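import Pool.Agent.TH513.FR.Defs

/-! L2: Gram determinant facts and the number of solutions modulo a prime. -/

namespace Pool.Agent.TH513.FR

namespace CardOrth

open Matrix

theorem gram_ne_zero {d j : ℕ} (x : Fin j → Fin d → ℤ)
    (h : LinearIndependent ℚ (fun i => qv (x i))) :
    (Matrix.of x * (Matrix.of x)ᵀ).det ≠ 0 := by
  intro h0
  set Aq : Matrix (Fin j) (Fin d) ℚ := (Matrix.of x).map (Int.castRingHom ℚ) with hAq
  have h1 : (Aq * Aqᵀ).det = 0 := by
    have : Aq * Aqᵀ = (Matrix.of x * (Matrix.of x)ᵀ).map (Int.castRingHom ℚ) := by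
      rw [Matrix.map_mul, hAq, Matrix.transpose_map]
    rw [this]
    have h2 := (Int.castRingHom ℚ).map_det (Matrix.of x * (Matrix.of x)ᵀ)
    rw [h0, map_zero] at h2
    exact h2.symm
  obtain ⟨c, hc, hc0⟩ := Matrix.exists_vecMul_eq_zero_iff.2 h1
  have h3 : c ᵥ* Aq = 0 := by
    have h4 : (c ᵥ* Aq) ⬝ᵥ (c ᵥ* Aq) = 0 := by
      have : (c ᵥ* Aq) ⬝ᵥ (c ᵥ* Aq) = (c ᵥ* (Aq * Aqᵀ)) ⬝ᵥ c := by
        rw [← Matrix.vecMul_vecMul, ← Matrix.dotProduct_mulVec, Matrix.vecMul_transpose,
          dotProduct_comm]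
      rw [this, hc0, zero_dotProduct]
    exact dotProduct_self_eq_zero.1 h4
  apply hc
  have h5 : ∑ i, c i • qv (x i) = 0 := by
    funext l
    have := congrFun h3 l
    simp only [Matrix.vecMul, dotProduct, hAq, Matrix.map_apply, Matrix.of_apply] at this
    simpa [qv] using this
  have := Fintype.linearIndependent_iff.1 h c h5
  exact funext this

theorem gram_le {d j H : ℕ} (x : Fin j → Fin d → ℤ) (hx : ∀ i l, |x i l| ≤ (H : ℤ)) :
    |(Matrix.of x * (Matrix.of x)ᵀ).det| ≤ (j.factorial * (d * H ^ 2) ^ j : ℕ) := by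
  have h := Matrix.det_le (A := Matrix.of x * (Matrix.of x)ᵀ)
    (abv := (AbsoluteValue.abs : AbsoluteValue ℤ ℤ)) (x := ((d * H ^ 2 : ℕ) : ℤ)) (by
      intro i k
      rw [AbsoluteValue.abs_apply, Matrix.mul_apply]
      simp only [Matrix.of_apply, Matrix.transpose_apply]
      calc |∑ l, x i l * x k l| ≤ ∑ l, |x i l * x k l| := Finset.abs_sum_le_sum_abs _ _
        _ ≤ ∑ _l : Fin d, ((H : ℤ) * H) := by
            refine Finset.sum_le_sum fun l _ => ?_
            rw [abs_mul]
            exact mul_le_mul (hx i l) (hx k l) (abs_nonneg _) (Int.natCast_nonneg _)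
        _ = ((d * H ^ 2 : ℕ) : ℤ) := by
            rw [Finset.sum_const, Finset.card_univ, Fintype.card_fin, nsmul_eq_mul]
            push_cast
            ring)
  rw [AbsoluteValue.abs_apply, Fintype.card_fin] at h
  refine h.trans (le_of_eq ?_)
  rw [nsmul_eq_mul]
  push_cast
  ring

theorem card_sol {d j : ℕ} (x : Fin j → Fin d → ℤ) (q : ℕ) (hq : q.Prime)
    (h0 : (((Matrix.of x * (Matrix.of x)ᵀ).det : ℤ) : ZMod q) ≠ 0) :
    Nat.card {t : Fin d → ZMod q // ∀ i, ∑ l, t l * ((x i l : ℤ) : ZMod q) = 0} * q ^ j =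
      q ^ d := by
  have : Fact q.Prime := ⟨hq⟩
  set B : Matrix (Fin j) (Fin d) (ZMod q) := (Matrix.of x).map (Int.castRingHom (ZMod q)) with hB
  have hdet : (B * Bᵀ).det ≠ 0 := by
    have : B * Bᵀ = (Matrix.of x * (Matrix.of x)ᵀ).map (Int.castRingHom (ZMod q)) := by
      rw [Matrix.map_mul, hB, Matrix.transpose_map]
    rw [this]
    have h2 := (Int.castRingHom (ZMod q)).map_det (Matrix.of x * (Matrix.of x)ᵀ)
    have h3 : ((Matrix.of x * (Matrix.of x)ᵀ).map (Int.castRingHom (ZMod q))).det =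
        (((Matrix.of x * (Matrix.of x)ᵀ).det : ℤ) : ZMod q) := h2.symm
    rw [h3]
    exact h0
  have hu : IsUnit (B * Bᵀ).det := isUnit_iff_ne_zero.2 hdet
  have hsurj : Function.Surjective B.mulVecLin := by
    intro y
    refine ⟨Bᵀ *ᵥ ((B * Bᵀ)⁻¹ *ᵥ y), ?_⟩
    rw [Matrix.mulVecLin_apply, Matrix.mulVec_mulVec, Matrix.mulVec_mulVec,
      Matrix.mul_nonsing_inv _ hu, Matrix.one_mulVec]
  have hrange : Module.finrank (ZMod q) (LinearMap.range B.mulVecLin) = j := by
    rw [LinearMap.range_eq_top.2 hsurj, finrank_top, Module.finrank_fin_fun]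
  have hrk := LinearMap.finrank_range_add_finrank_ker B.mulVecLin
  rw [hrange, Module.finrank_fin_fun] at hrk
  have hcard : Nat.card {t : Fin d → ZMod q // ∀ i, ∑ l, t l * ((x i l : ℤ) : ZMod q) = 0} =
      q ^ Module.finrank (ZMod q) (LinearMap.ker B.mulVecLin) := by
    have h1 : Nat.card {t : Fin d → ZMod q // ∀ i, ∑ l, t l * ((x i l : ℤ) : ZMod q) = 0} =
        Nat.card (LinearMap.ker B.mulVecLin) := by
      refine Nat.card_congr (Equiv.subtypeEquivRight fun t => ?_)
      rw [LinearMap.mem_ker, Matrix.mulVecLin_apply]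
      constructor
      · intro h
        funext i
        simp only [Matrix.mulVec, dotProduct, hB, Matrix.map_apply, Matrix.of_apply,
          Pi.zero_apply]
        rw [← h i]
        refine Finset.sum_congr rfl fun l _ => ?_
        rw [mul_comm]
        rfl
      · intro h i
        have := congrFun h i
        simp only [Matrix.mulVec, dotProduct, hB, Matrix.map_apply, Matrix.of_apply,
          Pi.zero_apply] at this
        rw [← this]
        refine Finset.sum_congr rfl fun l _ => ?_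
        rw [mul_comm]
        rfl
    rw [h1, Module.natCard_eq_pow_finrank (K := ZMod q), Nat.card_zmod]
  rw [hcard, ← pow_add]
  congr 1
  omega

end CardOrth

theorem cardOrth : CardOrthB := by
  intro d j H x hx hli
  have h1 := CardOrth.gram_ne_zero x hli
  have h2 := CardOrth.gram_le x hx
  refine ⟨h1, h2, fun q hq hlt => ?_⟩
  refine CardOrth.card_sol x q hq fun h0 => ?_
  rw [ZMod.intCast_zmod_eq_zero_iff_dvd] at h0
  have h3 := Int.le_of_dvd (abs_pos.2 h1) ((dvd_abs _ _).2 h0)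
  have h4 : ((j.factorial * (d * H ^ 2) ^ j : ℕ) : ℤ) < (q : ℤ) := by exact_mod_cast hlt
  omega

end Pool.Agent.TH513.FR
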