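import Pool.Agent.TH513.FR.Defs

/-!
D3: few points of `Y` when the base `n` expansions with digits in `Y` are distinct and there are
at most `N` of them in every half-open unit cube.
-/

namespace Pool.Agent.TH513.FR

namespace Cluster

open Finset Matrix

/-- Cauchy-Schwarz for a positive semidefinite form and non-negative weights. -/
theorem quad_sum_le {j S : ℕ} {Θ : Matrix (Fin j) (Fin j) ℝ} (hΘ : Θ.PosSemidef)
    (w : Fin S → ℝ) (hw : ∀ s, 0 ≤ w s) (x : Fin S → Fin j → ℝ) :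
    (∑ s, w s • x s) ⬝ᵥ (Θ *ᵥ (∑ s, w s • x s))
      ≤ (∑ s, w s) * ∑ s, w s * (x s ⬝ᵥ (Θ *ᵥ x s)) := by
  obtain ⟨m, B, hB⟩ := Matrix.posSemidef_iff_eq_sum_vecMulVec.mp hΘ
  have hq : ∀ u : Fin j → ℝ, u ⬝ᵥ (Θ *ᵥ u) = ∑ k, (B k ⬝ᵥ u) ^ 2 := by
    intro u
    rw [hB, Matrix.sum_mulVec, dotProduct_sum]
    refine Finset.sum_congr rfl fun k _ => ?_
    rw [star_trivial, Matrix.vecMulVec_mulVec]
    simp only [op_smul_eq_smul, dotProduct_smul, smul_eq_mul]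
    rw [dotProduct_comm u (B k), sq]
  simp only [hq]
  have h1 : ∀ k, B k ⬝ᵥ (∑ s, w s • x s) = ∑ s, w s * (B k ⬝ᵥ x s) := by
    intro k
    rw [dotProduct_sum]
    simp only [dotProduct_smul, smul_eq_mul]
  simp only [h1]
  have h2 : ∑ s, w s * ∑ k, (B k ⬝ᵥ x s) ^ 2 = ∑ k, ∑ s, w s * (B k ⬝ᵥ x s) ^ 2 := by
    rw [Finset.sum_comm]
    exact Finset.sum_congr rfl fun s _ => by rw [Finset.mul_sum]
  rw [h2, Finset.mul_sum]
  refine Finset.sum_le_sum fun k _ => ?_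
  have h3 := Finset.sum_mul_sq_le_sq_mul_sq Finset.univ (fun s => Real.sqrt (w s))
    (fun s => Real.sqrt (w s) * (B k ⬝ᵥ x s))
  have e1 : ∀ s, Real.sqrt (w s) * (Real.sqrt (w s) * (B k ⬝ᵥ x s)) = w s * (B k ⬝ᵥ x s) := by
    intro s
    rw [← mul_assoc, Real.mul_self_sqrt (hw s)]
  have e2 : ∀ s, (Real.sqrt (w s) * (B k ⬝ᵥ x s)) ^ 2 = w s * (B k ⬝ᵥ x s) ^ 2 := by
    intro s
    rw [mul_pow, Real.sq_sqrt (hw s)]
  have e3 : ∀ s, (Real.sqrt (w s)) ^ 2 = w s := fun s => Real.sq_sqrt (hw s)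
  simp only [e1, e2, e3] at h3
  exact h3

/-- Jensen in the form needed. -/
theorem sum_exp_ge {α : Type*} (Y : Finset α) (q : α → ℝ) (hq : ∑ y ∈ Y, q y ≤ Y.card)
    {a : ℝ} (ha : 0 ≤ a) :
    (Y.card : ℝ) * Real.exp (-a) ≤ ∑ y ∈ Y, Real.exp (-(a * q y)) := by
  have h : ∀ y ∈ Y, Real.exp (-a) * (1 + a - a * q y) ≤ Real.exp (-(a * q y)) := by
    intro y _
    have h1 : Real.exp (-(a * q y)) = Real.exp (-a) * Real.exp (a - a * q y) := by
      rw [← Real.exp_add]; ring_nf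
    rw [h1]
    refine mul_le_mul_of_nonneg_left ?_ (Real.exp_pos _).le
    have := Real.add_one_le_exp (a - a * q y)
    linarith
  refine le_trans ?_ (Finset.sum_le_sum h)
  rw [← Finset.mul_sum, mul_comm]
  refine mul_le_mul_of_nonneg_left ?_ (Real.exp_pos _).le
  rw [Finset.sum_sub_distrib, Finset.sum_const, ← Finset.mul_sum, nsmul_eq_mul]
  nlinarith [mul_le_mul_of_nonneg_left hq ha]

theorem main (hA : DetAvgB) (hT : ThetaB) : ClusterB := by
  classical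
  intro j S n N Y hY hdet hn hnS hinj hN
  have hj0 : 0 < j := lt_of_lt_of_le (pow_pos (by omega) _) hnS
  have hYne : Y.Nonempty := ⟨_, hY ⟨0, hj0⟩⟩
  have hc : (0 : ℝ) < (Y.card : ℝ) := by exact_mod_cast hYne.card_pos
  have hjR : (0 : ℝ) < (j : ℝ) := by exact_mod_cast hj0
  set G : Matrix (Fin j) (Fin j) ℝ := ∑ y ∈ Y, Matrix.vecMulVec y y with hG
  set Mx : Matrix (Fin j) (Fin j) ℝ := 1 + ((j : ℝ) / (Y.card : ℝ)) • G with hMx
  have hdetM : Mx.det ≤ (2 * Real.exp 1) ^ j := hA j Y hY hdet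
  have hGpsd : G.PosSemidef := by
    rw [hG]
    refine Matrix.posSemidef_sum _ fun y _ => ?_
    simpa using Matrix.posSemidef_vecMulVec_self_star y
  have hApsd : (((j : ℝ) / (Y.card : ℝ)) • G).PosSemidef :=
    hGpsd.smul (div_nonneg hjR.le hc.le)
  have hMpd : Mx.PosDef := Matrix.PosDef.one.add_posSemidef hApsd
  have hΘpd : (Mx⁻¹).PosDef := hMpd.inv
  set Θ : Matrix (Fin j) (Fin j) ℝ := Mx⁻¹ with hΘ
  have hMdet0 : 0 < Mx.det := hMpd.det_pos
  have hunit : IsUnit Mx.det := isUnit_iff_ne_zero.mpr hMdet0.ne'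
  have hMΘ : Mx * Θ = 1 := Matrix.mul_nonsing_inv _ hunit
  have hΘM : Θ * Mx = 1 := Matrix.nonsing_inv_mul _ hunit
  -- contraction
  have hcontr : ∀ u : Fin j → ℝ, u ⬝ᵥ (Θ *ᵥ u) ≤ u ⬝ᵥ u := by
    intro u
    set v := Θ *ᵥ u with hv
    set A := ((j : ℝ) / (Y.card : ℝ)) • G with hAdef
    have hu : u = v + A *ᵥ v := by
      have h1 : Mx *ᵥ v = u := by rw [hv, Matrix.mulVec_mulVec, hMΘ, Matrix.one_mulVec]
      rw [← h1, hMx, Matrix.add_mulVec, Matrix.one_mulVec]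
    have hAv : 0 ≤ v ⬝ᵥ (A *ᵥ v) := by
      have := hApsd.dotProduct_mulVec_nonneg v
      simpa using this
    have hAA : 0 ≤ (A *ᵥ v) ⬝ᵥ (A *ᵥ v) := by
      simp only [dotProduct]
      exact Finset.sum_nonneg fun i _ => mul_self_nonneg _
    have h2 : u ⬝ᵥ u - u ⬝ᵥ v = v ⬝ᵥ (A *ᵥ v) + (A *ᵥ v) ⬝ᵥ (A *ᵥ v) := by
      rw [hu]
      simp only [add_dotProduct, dotProduct_add]
      rw [dotProduct_comm (A *ᵥ v) v]
      ring
    linarith
  -- average of the form over `Y`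
  have hsumq : ∑ y ∈ Y, y ⬝ᵥ (Θ *ᵥ y) ≤ (Y.card : ℝ) := by
    have h1 : ∀ y : Fin j → ℝ, y ⬝ᵥ (Θ *ᵥ y) = (Θ * Matrix.vecMulVec y y).trace := by
      intro y
      rw [Matrix.mul_vecMulVec, Matrix.trace_vecMulVec, dotProduct_comm]
    have h2 : ∑ y ∈ Y, y ⬝ᵥ (Θ *ᵥ y) = (Θ * G).trace := by
      rw [hG, Finset.mul_sum, Matrix.trace_sum]
      exact Finset.sum_congr rfl fun y _ => h1 y
    have h3 : ((j : ℝ) / (Y.card : ℝ)) * (Θ * G).trace = (j : ℝ) - Θ.trace := by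
      have h4 : Θ * (((j : ℝ) / (Y.card : ℝ)) • G) = 1 - Θ := by
        have h5 : ((j : ℝ) / (Y.card : ℝ)) • G = Mx - 1 := by rw [hMx]; abel
        rw [h5, Matrix.mul_sub, hΘM, Matrix.mul_one]
      have h6 := congrArg Matrix.trace h4
      rw [Matrix.mul_smul, Matrix.trace_smul, Matrix.trace_sub, Matrix.trace_one,
        Fintype.card_fin, smul_eq_mul] at h6
      exact h6
    have h7 : 0 ≤ Θ.trace := hΘpd.posSemidef.trace_nonneg
    rw [h2]
    have h8 : ((j : ℝ) / (Y.card : ℝ)) * (Θ * G).trace ≤ (j : ℝ) := by rw [h3]; linarith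
    have h9 : (Θ * G).trace = ((Y.card : ℝ) / (j : ℝ)) * (((j : ℝ) / (Y.card : ℝ)) * (Θ * G).trace) := by
      field_simp
    rw [h9]
    calc ((Y.card : ℝ) / (j : ℝ)) * (((j : ℝ) / (Y.card : ℝ)) * (Θ * G).trace)
        ≤ ((Y.card : ℝ) / (j : ℝ)) * (j : ℝ) :=
          mul_le_mul_of_nonneg_left h8 (div_nonneg hc.le hjR.le)
      _ = (Y.card : ℝ) := by field_simp
  -- the tuples
  set P : (Fin S → (Fin j → ℝ)) → (Fin j → ℝ) := fun f => ∑ s : Fin S, ((n : ℝ) ^ (s : ℕ)) • f s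
    with hP
  set F : Finset (Fin S → (Fin j → ℝ)) := Fintype.piFinset fun _ : Fin S => Y with hF
  have hmemF : ∀ f, f ∈ F ↔ ∀ s, f s ∈ Y := by
    intro f; rw [hF]; exact Fintype.mem_piFinset
  have hD2 := hT j Θ hΘpd hcontr (F.image P) N (by
    intro v
    have := hN v
    convert this using 2)
  rw [Finset.sum_image (by
    intro f hf g hg hfg
    exact hinj f g ((hmemF f).1 hf) ((hmemF g).1 hg) hfg)] at hD2
  set W : ℝ := ∑ s : Fin S, (n : ℝ) ^ (s : ℕ) with hW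
  have hW0 : 0 ≤ W := Finset.sum_nonneg fun s _ => by positivity
  have hWle : W ≤ (n : ℝ) ^ S := by
    have h1 : ∑ s ∈ Finset.range S, n ^ s < n ^ S := by
      have := Nat.geomSum_lt hn (s := Finset.range S) (n := S) (fun k hk => Finset.mem_range.1 hk)
      exact this
    have h2 : W = ((∑ s ∈ Finset.range S, n ^ s : ℕ) : ℝ) := by
      rw [hW, Fin.sum_univ_eq_sum_range (fun s => (n : ℝ) ^ s) S]
      push_cast
      rfl
    rw [h2]
    exact_mod_cast h1.le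
  have hWW : W * W ≤ (j : ℝ) := by
    have h1 : W * W ≤ (n : ℝ) ^ S * (n : ℝ) ^ S := mul_le_mul hWle hWle hW0 (by positivity)
    have h2 : (n : ℝ) ^ S * (n : ℝ) ^ S = ((n ^ (2 * S) : ℕ) : ℝ) := by
      push_cast; rw [two_mul, pow_add]
    rw [h2] at h1
    exact h1.trans (by exact_mod_cast hnS)
  have hlow : (Y.card : ℝ) ^ S * Real.exp (-(j : ℝ)) ≤ ∑ f ∈ F, Real.exp (-(P f ⬝ᵥ (Θ *ᵥ P f))) := by
    have h1 : ∀ f ∈ F, ∏ s : Fin S, Real.exp (-((W * (n : ℝ) ^ (s : ℕ)) * (f s ⬝ᵥ (Θ *ᵥ f s))))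
        ≤ Real.exp (-(P f ⬝ᵥ (Θ *ᵥ P f))) := by
      intro f _
      rw [← Real.exp_sum]
      refine Real.exp_le_exp.mpr ?_
      rw [Finset.sum_neg_distrib, neg_le_neg_iff]
      have h2 := quad_sum_le hΘpd.posSemidef (fun s : Fin S => (n : ℝ) ^ (s : ℕ))
        (fun s => by positivity) f
      refine h2.trans (le_of_eq ?_)
      rw [Finset.mul_sum]
      refine Finset.sum_congr rfl fun s _ => ?_
      rw [hW]; ring
    refine le_trans ?_ (Finset.sum_le_sum h1)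
    rw [hF, ← Finset.prod_univ_sum (fun _ : Fin S => Y)
      (fun (s : Fin S) (y : Fin j → ℝ) => Real.exp (-((W * (n : ℝ) ^ (s : ℕ)) * (y ⬝ᵥ (Θ *ᵥ y)))))]
    have h3 : ∀ s ∈ (Finset.univ : Finset (Fin S)),
        (Y.card : ℝ) * Real.exp (-(W * (n : ℝ) ^ (s : ℕ)))
          ≤ ∑ y ∈ Y, Real.exp (-((W * (n : ℝ) ^ (s : ℕ)) * (y ⬝ᵥ (Θ *ᵥ y)))) := by
      intro s _
      exact sum_exp_ge Y _ hsumq (by positivity)
    refine le_trans ?_ (Finset.prod_le_prod (fun s _ => by positivity) h3)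
    rw [Finset.prod_mul_distrib, Finset.prod_const, Finset.card_univ, Fintype.card_fin,
      ← Real.exp_sum]
    refine mul_le_mul_of_nonneg_left (Real.exp_le_exp.mpr ?_) (by positivity)
    rw [Finset.sum_neg_distrib, ← Finset.mul_sum, neg_le_neg_iff]
    exact hWW
  -- determinant
  set r : ℝ := Real.sqrt (2 * Real.exp 1) with hr
  have hr0 : 0 < r := Real.sqrt_pos.mpr (by positivity)
  have hdetΘ : Θ.det = (Mx.det)⁻¹ := by
    rw [hΘ, Matrix.det_nonsing_inv, Ring.inverse_eq_inv']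
  have hsq : Real.sqrt Mx.det ≤ r ^ j := by
    rw [Real.sqrt_le_left (by positivity)]
    refine hdetM.trans (le_of_eq ?_)
    rw [← pow_mul, mul_comm j 2, pow_mul, hr, Real.sq_sqrt (by positivity)]
  have hsq0 : 0 < Real.sqrt Mx.det := Real.sqrt_pos.mpr hMdet0
  have hfin : (Y.card : ℝ) ^ S * Real.exp (-(j : ℝ)) ≤ (N : ℝ) * 4 ^ j * r ^ j := by
    have h1 : (Y.card : ℝ) ^ S * Real.exp (-(j : ℝ)) * Real.sqrt Θ.det ≤ (N : ℝ) * 4 ^ j :=
      (mul_le_mul_of_nonneg_right hlow (Real.sqrt_nonneg _)).trans hD2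
    rw [hdetΘ, Real.sqrt_inv, ← div_eq_mul_inv, div_le_iff₀ hsq0] at h1
    exact h1.trans (mul_le_mul_of_nonneg_left hsq (by positivity))
  have hr2 : r ≤ 2.34 := by
    rw [hr, Real.sqrt_le_left (by norm_num)]
    have := Real.exp_one_lt_d9
    norm_num at this ⊢
    linarith
  have hnum : 4 * r * Real.exp 1 ≤ 26 := by
    have := Real.exp_one_lt_d9
    have h2 : 4 * r * Real.exp 1 ≤ 4 * 2.34 * 2.7182818286 :=
      mul_le_mul (by linarith) this.le (Real.exp_pos 1).le (by norm_num)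
    exact h2.trans (by norm_num)
  have hexp : Real.exp (-(j : ℝ)) * Real.exp 1 ^ j = 1 := by
    rw [← Real.exp_nat_mul, mul_one, ← Real.exp_add]
    simp
  have hR : (Y.card : ℝ) ^ S ≤ (N : ℝ) * 26 ^ j := by
    calc (Y.card : ℝ) ^ S = (Y.card : ℝ) ^ S * Real.exp (-(j : ℝ)) * Real.exp 1 ^ j := by
          rw [mul_assoc, hexp, mul_one]
      _ ≤ (N : ℝ) * 4 ^ j * r ^ j * Real.exp 1 ^ j :=
          mul_le_mul_of_nonneg_right hfin (by positivity)
      _ = (N : ℝ) * (4 * r * Real.exp 1) ^ j := by rw [mul_pow, mul_pow]; ring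
      _ ≤ (N : ℝ) * 26 ^ j := by
          refine mul_le_mul_of_nonneg_left ?_ (by positivity)
          exact pow_le_pow_left₀ (by positivity) hnum j
  exact_mod_cast hR

end Cluster

theorem cluster : DetAvgB → ThetaB → ClusterB := Cluster.main

end Pool.Agent.TH513.FR
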