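import Mathlib

/-!
Statements of the lemmas used for MP_86f7a7_co (proper progressions do not suffice in the
polynomial Freiman-Ruzsa conjecture over the integers).  Every `...B : Prop` below is a
statement proved in a file of its own.
-/

namespace Pool.Agent.TH513.FR

open Finset Matrix
open scoped Classical in

/-- coordinates in `ℚ` -/
def qv {d : ℕ} (x : Fin d → ℤ) : Fin d → ℚ := fun l => (x l : ℚ)

/-- D1: averaging the squared determinant. -/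
def DetAvgB : Prop :=
  ∀ (j : ℕ) (Y : Finset (Fin j → ℝ)),
    (∀ i : Fin j, (Pi.single i (1 : ℝ) : Fin j → ℝ) ∈ Y) →
    (∀ y : Fin j → (Fin j → ℝ), (∀ i, y i ∈ Y) → |Matrix.det (Matrix.of y)| ≤ 1) →
    (1 + ((j : ℝ) / (Y.card : ℝ)) • ∑ y ∈ Y, Matrix.vecMulVec y y).det
      ≤ (2 * Real.exp 1) ^ j

open scoped Classical in
/-- D2: theta sum over a finite set with at most `N` points in every half-open unit cube. -/
def ThetaB : Prop :=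
  ∀ (j : ℕ) (Θ : Matrix (Fin j) (Fin j) ℝ), Θ.PosDef →
    (∀ u : Fin j → ℝ, u ⬝ᵥ (Θ *ᵥ u) ≤ u ⬝ᵥ u) →
    ∀ (W : Finset (Fin j → ℝ)) (N : ℕ),
      (∀ v : Fin j → ℝ, (W.filter (fun y => ∀ i, v i ≤ y i ∧ y i < v i + 1)).card ≤ N) →
      (∑ y ∈ W, Real.exp (-(y ⬝ᵥ (Θ *ᵥ y)))) * Real.sqrt Θ.det ≤ (N : ℝ) * 4 ^ j

open scoped Classical in
/-- D3: few points of `Y` when the base `n` expansions with digits in `Y` are distinct and there are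
at most `N` of them in every half-open unit cube. -/
def ClusterB : Prop :=
  ∀ (j S n N : ℕ) (Y : Finset (Fin j → ℝ)),
    (∀ i : Fin j, (Pi.single i (1 : ℝ) : Fin j → ℝ) ∈ Y) →
    (∀ y : Fin j → (Fin j → ℝ), (∀ i, y i ∈ Y) → |Matrix.det (Matrix.of y)| ≤ 1) →
    2 ≤ n → n ^ (2 * S) ≤ j →
    (∀ f g : Fin S → (Fin j → ℝ), (∀ s, f s ∈ Y) → (∀ s, g s ∈ Y) →
      (∑ s : Fin S, ((n : ℝ) ^ (s : ℕ)) • f s) = (∑ s : Fin S, ((n : ℝ) ^ (s : ℕ)) • g s) → f = g) →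
    (∀ v : Fin j → ℝ,
      (((Fintype.piFinset fun _ : Fin S => Y).image
          (fun f => ∑ s : Fin S, ((n : ℝ) ^ (s : ℕ)) • f s)).filter
        (fun y => ∀ i, v i ≤ y i ∧ y i < v i + 1)).card ≤ N) →
    Y.card ^ S ≤ N * 26 ^ j

/-- L1: flag basis of the saturation of a sublattice. -/
def FlagB : Prop :=
  ∀ (d j : ℕ) (x : Fin j → Fin d → ℤ), LinearIndependent ℚ (fun i => qv (x i)) →
    ∃ (T : Fin j → Fin j → ℤ) (z : Fin j → Fin d → ℤ),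
      (∀ i, 1 ≤ T i i) ∧ (∀ i k, k < i → 0 ≤ T i k ∧ T i k < T i i) ∧
      (∀ i k, i < k → T i k = 0) ∧
      (∀ i, x i = ∑ k, T i k • z k) ∧
      (∀ y : Fin d → ℤ, qv y ∈ Submodule.span ℚ (Set.range fun i => qv (x i)) →
        ∃ η : Fin j → ℤ, y = ∑ k, η k • z k)

/-- L2: Gram determinant facts and the number of solutions `t` modulo a prime. -/
def CardOrthB : Prop :=
  ∀ (d j H : ℕ) (x : Fin j → Fin d → ℤ), (∀ i l, |x i l| ≤ (H : ℤ)) →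
    LinearIndependent ℚ (fun i => qv (x i)) →
    (Matrix.of x * (Matrix.of x)ᵀ).det ≠ 0 ∧
    |(Matrix.of x * (Matrix.of x)ᵀ).det| ≤ (j.factorial * (d * H ^ 2) ^ j : ℕ) ∧
    ∀ q : ℕ, q.Prime → j.factorial * (d * H ^ 2) ^ j < q →
      Nat.card {t : Fin d → ZMod q // ∀ i, ∑ l, t l * ((x i l : ℤ) : ZMod q) = 0} * q ^ j = q ^ d

/-- L3: reduction modulo a lower triangular integer matrix with positive diagonal. -/
def TriReduceB : Prop :=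
  ∀ (j : ℕ) (T : Fin j → Fin j → ℤ), (∀ i, 1 ≤ T i i) → (∀ i k, i < k → T i k = 0) →
    (∀ η : Fin j → ℤ, ∃ a ρ : Fin j → ℤ, (∀ i, 0 ≤ ρ i ∧ ρ i < T i i) ∧
      ∀ k, η k = ρ k + ∑ i, a i * T i k) ∧
    (∀ a ρ ρ' : Fin j → ℤ, (∀ i, 0 ≤ ρ i ∧ ρ i < T i i) → (∀ i, 0 ≤ ρ' i ∧ ρ' i < T i i) →
      (∀ k, ρ k - ρ' k = ∑ i, a i * T i k) → a = 0 ∧ ρ = ρ')

/-- The random-lattice conditions. -/
structure GoodT (M d Q q : ℕ) (t : Fin d → ZMod q) : Prop where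
  E1 : ∀ x : Fin d → ℤ, (∑ l, t l * ((x l : ℤ) : ZMod q) = 0) → (∀ l, 4 * |x l| ≤ (Q : ℤ)) → x = 0
  E2 : ∀ (j : ℕ), 4 * j ≤ d → ∀ (x z : Fin j → Fin d → ℤ) (T : Fin j → Fin j → ℤ),
      LinearIndependent ℚ (fun i => qv (x i)) →
      (∀ i l, |x i l| ≤ 2 * M * Q) →
      (∀ i, ∑ l, t l * ((x i l : ℤ) : ZMod q) = 0) →
      (∀ i, 1 ≤ T i i) → (∀ i k, k < i → 0 ≤ T i k ∧ T i k < T i i) →
      (∀ i k, i < k → T i k = 0) →
      (∀ i, x i = ∑ k, T i k • z k) →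
      (∏ i, T i i) ≤ (8 * j * M : ℤ) ^ j →
      (∏ i, T i i) ≤ (((200 * M : ℤ) ^ 4) ^ j)

/-- L4: good `t` exist (union bound). -/
def UnionB : Prop :=
  ∀ M : ℕ, 1 ≤ M → ∃ d₀ : ℕ, ∀ d, d₀ ≤ d →
    ∃ Q q : ℕ, 4 ≤ Q ∧ q.Prime ∧ Q ^ d ≤ q ∧ q ≤ 2 * Q ^ d ∧
      (∀ j, 4 * j ≤ d → j.factorial * (d * (2 * M * Q) ^ 2) ^ j < q) ∧
      ∃ t : Fin d → ZMod q, GoodT M d Q q t

/-- few lattice points of sup norm at most `2R` in subspaces of dimension at most `d/4` -/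
def FewIn {d : ℕ} (Λ : AddSubgroup (Fin d → ℤ)) (R : ℕ) : Prop :=
  ∀ F : Submodule ℚ (Fin d → ℚ), 4 * Module.finrank ℚ F ≤ d →
    ∀ U : Finset (Fin d → ℤ), (∀ x ∈ U, x ∈ Λ ∧ (∀ l, |x l| ≤ 2 * (R : ℤ)) ∧ qv x ∈ F) →
      U.card ≤ 2 ^ d

/-- L5: the lattice. -/
def LatticeB : Prop :=
  ∀ M : ℕ, 1 ≤ M → ∃ d₀ : ℕ, ∀ d, d₀ ≤ d →
    ∃ (Λ : AddSubgroup (Fin d → ℤ)) (R : ℕ), 1 ≤ R ∧ FewIn Λ R ∧
      ∃ A : Finset (Fin d → ℤ), (∀ x, x ∈ A ↔ x ∈ Λ ∧ ∀ l, |x l| ≤ (R : ℤ)) ∧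
        M ^ d ≤ 2 * A.card

open scoped Classical in
/-- the triangle kernel restricted to `Λ` -/
noncomputable def tri {d : ℕ} (Λ : AddSubgroup (Fin d → ℤ)) (R : ℕ) (x : Fin d → ℤ) : ℝ :=
  if x ∈ Λ then ∏ l, max 0 (1 - |((x l : ℤ) : ℝ)| / (2 * R)) else 0

/-- K1: the kernel is positive definite. -/
def TriPDB : Prop :=
  ∀ (d R : ℕ), 1 ≤ R → ∀ (Λ : AddSubgroup (Fin d → ℤ)) (n : ℕ) (c : Fin n → ℝ)
    (u : Fin n → Fin d → ℤ), 0 ≤ ∑ i, ∑ j, c i * c j * tri Λ R (u i - u j)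

open scoped Classical in
/-- K2: `2^(s+1)` groups of `m` linearly independent vectors. -/
def GroupsB : Prop :=
  ∀ (d m s : ℕ) (Λ : AddSubgroup (Fin d → ℤ)) (R : ℕ), 1 ≤ R → FewIn Λ R → 4 * m ≤ d →
    ∀ (w : Fin (2 ^ (s + 1)) → Fin m → Fin d → ℤ),
      (∀ g, LinearIndependent ℚ (fun i => qv (w g i))) → ∀ y : Fin d → ℤ,
      ((Finset.univ.filter (fun ε : Fin (2 ^ (s + 1)) → Fin m → Fin 2 =>
          (y + ∑ g, ∑ i, ((ε g i : Fin 2) : ℕ) • w g i) ∈ Λ ∧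
          ∀ l, |(y + ∑ g, ∑ i, ((ε g i : Fin 2) : ℕ) • w g i) l| ≤ (R : ℤ))).card : ℝ)
        ≤ 2 ^ (2 ^ (s + 1) * m) * (4 ^ d *
          (((2 ^ (s + 1)).choose (2 ^ s) : ℝ) / 2 ^ (2 ^ (s + 1))) ^ m)

open scoped Classical in
/-- G1: conditioning a box to two-point choices in prescribed coordinates. -/
def PairCondB : Prop :=
  ∀ (d r m k : ℕ) (N : Fin r → ℕ) (a : Fin d → ℤ) (v : Fin r → Fin d → ℤ)
    (g : Fin k → Fin m → Fin r),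
    Function.Injective (fun p : Fin k × Fin m => g p.1 p.2) →
    (∀ i, 1 ≤ N i) → (∀ p i, 2 ≤ N (g p i)) →
    ∀ B : Set (Fin d → ℤ), ∃ (y : Fin d → ℤ) (c : Fin k → Fin m → ℤ),
      (∀ p i, c p i ≠ 0) ∧
      ((Fintype.piFinset fun i => Finset.range (N i)).filter
          (fun n : Fin r → ℕ => a + ∑ i, n i • v i ∈ B)).card * 2 ^ (k * m)
        ≤ (∏ i, N i) * (Finset.univ.filter (fun ε : Fin k → Fin m → Fin 2 =>
            y + ∑ p, ∑ i, ((ε p i : Fin 2) : ℕ) • (c p i • v (g p i)) ∈ B)).card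

/-- G2: either `k` disjoint independent `m`-sets or a small exceptional set with the rest spanning
a space of dimension less than `m`. -/
def SelectB : Prop :=
  ∀ (d r m k : ℕ) (v : Fin r → Fin d → ℚ) (I : Finset (Fin r)),
    (∃ g : Fin k → Fin m → Fin r, Function.Injective (fun p : Fin k × Fin m => g p.1 p.2) ∧
      (∀ p i, g p i ∈ I) ∧ ∀ p, LinearIndependent ℚ (fun i => v (g p i))) ∨
    (∃ E ⊆ I, E.card ≤ k * m ∧
      Module.finrank ℚ (Submodule.span ℚ (v '' ((I \ E : Finset (Fin r)) : Set (Fin r)))) < m)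

end Pool.Agent.TH513.FR
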