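import Pool.Agent.TH513.FR.Defs

/-! Proof of `DetAvgB` (job D1). -/

namespace Pool.Agent.TH513.FR

open Finset Matrix

namespace DetAvg

variable {j : ℕ} {ι : Type*} [Fintype ι] [DecidableEq ι]

omit [DecidableEq ι] in
/-- multilinear expansion of the determinant of a weighted sum of rank one matrices -/
theorem expand (w : ι → ℝ) (v : ι → Fin j → ℝ) :
    (∑ a, w a • Matrix.vecMulVec (v a) (v a)).det
      = ∑ f : Fin j → ι, (∏ i, (w (f i) * v (f i) i)) * Matrix.det (Matrix.of fun i => v (f i)) := by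
  have h1 : (∑ a, w a • Matrix.vecMulVec (v a) (v a))
      = (Matrix.of fun i => ∑ a, (w a * v a i) • v a) := by
    ext i k
    simp [Matrix.sum_apply, Matrix.vecMulVec_apply, Finset.sum_apply, mul_assoc]
  rw [h1]
  have h2 := (Matrix.detRowAlternating (R := ℝ) (n := Fin j)).toMultilinearMap.map_sum
    (α := fun _ => ι) (fun i a => (w a * v a i) • v a)
  have h3 : ∀ M : Fin j → Fin j → ℝ,
      (Matrix.detRowAlternating (R := ℝ) (n := Fin j)).toMultilinearMap M = Matrix.det (Matrix.of M) :=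
    fun M => rfl
  rw [h3] at h2
  rw [h2]
  refine Finset.sum_congr rfl fun f _ => ?_
  have h4 := (Matrix.detRowAlternating (R := ℝ) (n := Fin j)).toMultilinearMap.map_smul_univ
    (fun i => w (f i) * v (f i) i) (fun i => v (f i))
  rw [h4, h3, smul_eq_mul]

theorem symm (w : ι → ℝ) (v : ι → Fin j → ℝ) :
    (j.factorial : ℝ) * (∑ a, w a • Matrix.vecMulVec (v a) (v a)).det
      = ∑ f : Fin j → ι, (∏ i, w (f i)) * (Matrix.det (Matrix.of fun i => v (f i))) ^ 2 := by
  have hσ : ∀ σ : Equiv.Perm (Fin j), (∑ a, w a • Matrix.vecMulVec (v a) (v a)).det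
      = ∑ f : Fin j → ι, (∏ i, w (f i)) * ((Equiv.Perm.sign σ : ℤ) : ℝ) *
          (∏ i, v (f (σ i)) i) * Matrix.det (Matrix.of fun i => v (f i)) := by
    intro σ
    rw [expand w v]
    rw [← (Equiv.arrowCongr σ (Equiv.refl ι)).symm.sum_comp]
    refine Finset.sum_congr rfl fun f _ => ?_
    have hf : ∀ i, ((Equiv.arrowCongr σ (Equiv.refl ι)).symm f) i = f (σ i) := fun i => rfl
    simp only [hf]
    rw [Finset.prod_mul_distrib]
    have hw : ∏ i, w (f (σ i)) = ∏ i, w (f i) := Equiv.prod_comp σ (fun i => w (f i))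
    rw [hw]
    have hd : Matrix.det (Matrix.of fun i => v (f (σ i)))
        = ((Equiv.Perm.sign σ : ℤ) : ℝ) * Matrix.det (Matrix.of fun i => v (f i)) := by
      have := Matrix.det_permute σ (Matrix.of fun i => v (f i))
      exact this
    rw [hd]
    ring
  have hsum : ∑ σ : Equiv.Perm (Fin j), (∑ a, w a • Matrix.vecMulVec (v a) (v a)).det
      = (j.factorial : ℝ) * (∑ a, w a • Matrix.vecMulVec (v a) (v a)).det := by
    rw [Finset.sum_const, Finset.card_univ, Fintype.card_perm, Fintype.card_fin, nsmul_eq_mul]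
  rw [← hsum, Finset.sum_congr rfl fun σ _ => hσ σ, Finset.sum_comm]
  refine Finset.sum_congr rfl fun f _ => ?_
  have hdet : Matrix.det (Matrix.of fun i => v (f i))
      = ∑ σ : Equiv.Perm (Fin j), ((Equiv.Perm.sign σ : ℤ) : ℝ) * ∏ i, v (f (σ i)) i := by
    rw [Matrix.det_apply']
    rfl
  calc ∑ σ : Equiv.Perm (Fin j), (∏ i, w (f i)) * ((Equiv.Perm.sign σ : ℤ) : ℝ) *
          (∏ i, v (f (σ i)) i) * Matrix.det (Matrix.of fun i => v (f i))
      = (∏ i, w (f i)) * (∑ σ : Equiv.Perm (Fin j), ((Equiv.Perm.sign σ : ℤ) : ℝ) *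
          ∏ i, v (f (σ i)) i) * Matrix.det (Matrix.of fun i => v (f i)) := by
        rw [Finset.mul_sum, Finset.sum_mul]
        refine Finset.sum_congr rfl fun σ _ => ?_
        ring
    _ = _ := by rw [← hdet]; ring

theorem bound (w : ι → ℝ) (v : ι → Fin j → ℝ) (hw : ∀ a, 0 ≤ w a)
    (hv : ∀ f : Fin j → ι, |Matrix.det (Matrix.of fun i => v (f i))| ≤ 1) :
    (j.factorial : ℝ) * (∑ a, w a • Matrix.vecMulVec (v a) (v a)).det ≤ (∑ a, w a) ^ j := by
  rw [symm w v]
  have h1 : (∑ a, w a) ^ j = ∑ f : Fin j → ι, ∏ i, w (f i) := by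
    have := Finset.prod_univ_sum (fun _ : Fin j => (Finset.univ : Finset ι)) (fun _ a => w a)
    rw [Finset.prod_const, Finset.card_univ, Fintype.card_fin, Fintype.piFinset_univ] at this
    exact this
  rw [h1]
  refine Finset.sum_le_sum fun f _ => ?_
  have h2 : (Matrix.det (Matrix.of fun i => v (f i))) ^ 2 ≤ 1 := by
    have := hv f
    rw [← sq_abs]
    exact pow_le_one₀ (abs_nonneg _) this
  have h3 : 0 ≤ ∏ i, w (f i) := Finset.prod_nonneg fun i _ => hw _
  calc _ ≤ (∏ i, w (f i)) * 1 := mul_le_mul_of_nonneg_left h2 h3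
    _ = _ := mul_one _

end DetAvg

theorem detAvg : DetAvgB := by
  intro j Y hY hdet
  classical
  rcases Nat.eq_zero_or_pos j with rfl | hj
  · simp
  let v : (↥Y ⊕ Fin j) → Fin j → ℝ := Sum.elim (fun y => (y : Fin j → ℝ)) (fun i => Pi.single i 1)
  let w : (↥Y ⊕ Fin j) → ℝ := Sum.elim (fun _ => (j : ℝ) / (Y.card : ℝ)) (fun _ => 1)
  have hYne : Y.Nonempty := ⟨_, hY ⟨0, hj⟩⟩
  have hYc : (0 : ℝ) < Y.card := by exact_mod_cast hYne.card_pos
  have hvY : ∀ a, v a ∈ Y := by
    rintro (y | i)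
    · exact y.2
    · exact hY i
  have hw : ∀ a, 0 ≤ w a := by
    rintro (y | i)
    · exact div_nonneg (Nat.cast_nonneg _) hYc.le
    · exact zero_le_one
  have hsum : ∑ a, w a = 2 * j := by
    rw [Fintype.sum_sum_type]
    simp only [w, Sum.elim_inl, Sum.elim_inr, Finset.sum_const, Finset.card_univ,
      Fintype.card_coe, Fintype.card_fin, nsmul_eq_mul, mul_one]
    field_simp
    ring
  have hM : (1 + ((j : ℝ) / (Y.card : ℝ)) • ∑ y ∈ Y, Matrix.vecMulVec y y)
      = ∑ a, w a • Matrix.vecMulVec (v a) (v a) := by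
    rw [Fintype.sum_sum_type]
    simp only [w, v, Sum.elim_inl, Sum.elim_inr, one_smul]
    rw [← Finset.smul_sum, Finset.sum_coe_sort Y (fun y => Matrix.vecMulVec y y), add_comm]
    congr 1
    ext i k
    rw [Matrix.sum_apply]
    simp only [Matrix.vecMulVec_apply, Matrix.one_apply, Pi.single_apply]
    simp
  have hb := DetAvg.bound w v hw (fun f => by
    have := hdet (fun i => v (f i)) (fun i => hvY _)
    exact this)
  rw [hsum, ← hM] at hb
  set D := (1 + ((j : ℝ) / (Y.card : ℝ)) • ∑ y ∈ Y, Matrix.vecMulVec y y).det with hD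
  have hfac : (0 : ℝ) < j.factorial := by exact_mod_cast j.factorial_pos
  have h1 : D ≤ (2 * (j : ℝ)) ^ j / j.factorial := by
    rw [le_div_iff₀ hfac, mul_comm]
    exact hb
  have h2 : (j : ℝ) ^ j / j.factorial ≤ Real.exp j :=
    Real.pow_div_factorial_le_exp (j : ℝ) (Nat.cast_nonneg _) j
  have h3 : Real.exp (j : ℝ) = Real.exp 1 ^ j := by
    rw [← Real.exp_nat_mul, mul_one]
  calc D ≤ (2 * (j : ℝ)) ^ j / j.factorial := h1
    _ = 2 ^ j * ((j : ℝ) ^ j / j.factorial) := by rw [mul_pow]; ring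
    _ ≤ 2 ^ j * Real.exp 1 ^ j := by
        rw [← h3]
        exact mul_le_mul_of_nonneg_left h2 (by positivity)
    _ = (2 * Real.exp 1) ^ j := by rw [mul_pow]

end Pool.Agent.TH513.FR
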