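import Pool.Agent.TH513.FR.Defs

namespace Pool.Agent.TH513.FR

open Finset

/-- The progression `{a + n_1 v_1 + ... + n_r v_r : 0 ≤ n_i < N_i}` in `ℤ^d` as a finite set. -/
def prog {d r : ℕ} (a : Fin d → ℤ) (v : Fin r → Fin d → ℤ) (N : Fin r → ℕ) :
    Finset (Fin d → ℤ) :=
  (Fintype.piFinset fun i => Finset.range (N i)).image (fun n => a + ∑ i, n i • v i)

theorem mem_prog {d r : ℕ} {a : Fin d → ℤ} {v : Fin r → Fin d → ℤ} {N : Fin r → ℕ}
    {x : Fin d → ℤ} : x ∈ prog a v N ↔ ∃ n : Fin r → ℕ, (∀ i, n i < N i) ∧ x = a + ∑ i, n i • v i := by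
  simp only [prog, Finset.mem_image, Fintype.mem_piFinset, Finset.mem_range]
  constructor
  · rintro ⟨n, hn, rfl⟩; exact ⟨n, hn, rfl⟩
  · rintro ⟨n, hn, rfl⟩; exact ⟨n, hn, rfl⟩

namespace Final

theorem cb_bound (n : ℕ) : (n.centralBinom : ℝ) ^ 2 * (2 * n + 1) ≤ 16 ^ n := by
  induction n with
  | zero => simp
  | succ n ih =>
    have h := Nat.succ_mul_centralBinom_succ n
    have h' : ((n : ℝ) + 1) * ((n + 1).centralBinom : ℝ) = 2 * (2 * n + 1) * (n.centralBinom : ℝ) := by
      exact_mod_cast h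
    have hpos : (0 : ℝ) < (n : ℝ) + 1 := by positivity
    have h2 : ((n + 1).centralBinom : ℝ) = 2 * (2 * n + 1) * (n.centralBinom : ℝ) / (n + 1) := by
      field_simp; linarith
    rw [h2, pow_succ (16 : ℝ)]
    push_cast
    rw [div_pow, div_mul_eq_mul_div, div_le_iff₀ (by positivity)]
    have h3 : (2 * (2 * (n : ℝ) + 1) * (n.centralBinom : ℝ)) ^ 2 * (2 * ((n : ℝ) + 1) + 1)
        = 4 * ((2 * n + 1) * (2 * n + 3)) * ((n.centralBinom : ℝ) ^ 2 * (2 * n + 1)) := by ring
    rw [h3]
    have h4 : (2 * (n : ℝ) + 1) * (2 * n + 3) ≤ 4 * ((n : ℝ) + 1) ^ 2 := by nlinarith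
    calc 4 * ((2 * (n : ℝ) + 1) * (2 * n + 3)) * ((n.centralBinom : ℝ) ^ 2 * (2 * n + 1))
        ≤ 4 * (4 * ((n : ℝ) + 1) ^ 2) * 16 ^ n := by
          apply mul_le_mul _ ih (by positivity) (by positivity)
          linarith
      _ = 16 ^ n * 16 * ((n : ℝ) + 1) ^ 2 := by ring

theorem qv_sub {d : ℕ} (x y : Fin d → ℤ) : qv (x - y) = qv x - qv y := by
  funext l; simp [qv]

theorem qv_add {d : ℕ} (x y : Fin d → ℤ) : qv (x + y) = qv x + qv y := by
  funext l; simp [qv]

theorem qv_nsmul {d : ℕ} (n : ℕ) (x : Fin d → ℤ) : qv (n • x) = (n : ℚ) • qv x := by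
  funext l; simp [qv]

theorem qv_zsmul {d : ℕ} (n : ℤ) (x : Fin d → ℤ) : qv (n • x) = (n : ℚ) • qv x := by
  funext l; simp [qv]

theorem qv_sum {d : ℕ} {ι : Type*} (s : Finset ι) (x : ι → Fin d → ℤ) :
    qv (∑ i ∈ s, x i) = ∑ i ∈ s, qv (x i) := by
  funext l; simp [qv]

theorem few_coset {d : ℕ} {Λ : AddSubgroup (Fin d → ℤ)} {R : ℕ} (hF : FewIn Λ R)
    {A : Finset (Fin d → ℤ)} (hA : ∀ x, x ∈ A ↔ x ∈ Λ ∧ ∀ l, |x l| ≤ (R : ℤ))
    (F : Submodule ℚ (Fin d → ℚ)) (hFd : 4 * Module.finrank ℚ F ≤ d)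
    (U : Finset (Fin d → ℤ)) (hU : U ⊆ A) (hdiff : ∀ x ∈ U, ∀ y ∈ U, qv (x - y) ∈ F) :
    U.card ≤ 2 ^ d := by
  rcases U.eq_empty_or_nonempty with h | ⟨x₀, hx₀⟩
  · rw [h]; simp
  · have hinj : Function.Injective (fun x : Fin d → ℤ => x - x₀) := fun x y h => by
      simpa using h
    rw [← Finset.card_image_of_injective U hinj]
    apply hF F hFd
    intro x hx
    rw [Finset.mem_image] at hx
    obtain ⟨y, hy, rfl⟩ := hx
    have h1 := (hA y).1 (hU hy)
    have h2 := (hA x₀).1 (hU hx₀)
    refine ⟨Λ.sub_mem h1.1 h2.1, ?_, hdiff y hy x₀ hx₀⟩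
    intro l
    have := h1.2 l
    have := h2.2 l
    simp only [Pi.sub_apply]
    rw [abs_le] at *
    constructor <;> linarith [h1.2 l, h2.2 l]

theorem long_bound {d r m R : ℕ} {Λ : AddSubgroup (Fin d → ℤ)} (hF : FewIn Λ R)
    {A : Finset (Fin d → ℤ)} (hA : ∀ x, x ∈ A ↔ x ∈ Λ ∧ ∀ l, |x l| ≤ (R : ℤ))
    (a : Fin d → ℤ) (v : Fin r → Fin d → ℤ) (N : Fin r → ℕ) (hm : 4 * m ≤ d)
    (g : Fin m → Fin r) (hg : LinearIndependent ℚ (fun i => qv (v (g i)))) :
    (A ∩ prog a v N).card * ∏ p, N (g p) ≤ 2 ^ m * (prog a v N).card * 2 ^ d := by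
  classical
  have hginj : Function.Injective g := by
    intro i j hij
    have : (fun i => qv (v (g i))) i = (fun i => qv (v (g i))) j := by simp [hij]
    exact hg.injective this
  set P := prog a v N with hP
  set Bx : Finset (Fin m → ℕ) := Fintype.piFinset fun p => Finset.range (N (g p)) with hBx
  have hBc : Bx.card = ∏ p, N (g p) := by
    rw [hBx, Fintype.card_piFinset]; simp
  set S := (A ∩ P) ×ˢ Bx with hS
  have hSc : S.card = (A ∩ P).card * ∏ p, N (g p) := by rw [hS, Finset.card_product, hBc]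
  rw [← hSc]
  set f : (Fin d → ℤ) × (Fin m → ℕ) → (Fin d → ℤ) := fun xu => xu.1 + ∑ p, xu.2 p • v (g p) with hf
  -- image is covered by `2^m` translates of `P`
  set D : Finset (Fin d → ℤ) := Finset.univ.biUnion (fun σ : Fin m → Fin 2 =>
    P.image (fun x => x + ∑ p, (((σ p : Fin 2) : ℕ) * N (g p)) • v (g p))) with hD
  have hDc : D.card ≤ 2 ^ m * P.card := by
    rw [hD]
    refine (Finset.card_biUnion_le).trans ?_
    refine (Finset.sum_le_sum (fun σ _ => Finset.card_image_le)).trans ?_
    simp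
  have himg : S.image f ⊆ D := by
    intro z hz
    rw [Finset.mem_image] at hz
    obtain ⟨⟨x, u⟩, hxu, rfl⟩ := hz
    rw [hS, Finset.mem_product] at hxu
    obtain ⟨hx, hu⟩ := hxu
    rw [hBx, Fintype.mem_piFinset] at hu
    simp only [Finset.mem_range] at hu
    have hxP := (Finset.mem_inter.1 hx).2
    rw [hP, mem_prog] at hxP
    obtain ⟨n, hn, hxn⟩ := hxP
    -- the added vector as a function on `Fin r`
    set e : Fin r → ℕ := fun i => ∑ p, if g p = i then u p else 0 with he
    have he1 : ∀ p, e (g p) = u p := by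
      intro p
      rw [he]
      simp only
      rw [Finset.sum_eq_single p]
      · simp
      · intro q _ hq
        rw [if_neg]
        intro h; exact hq (hginj h)
      · simp
    have he2 : ∀ i, (∀ p, g p ≠ i) → e i = 0 := by
      intro i hi
      rw [he]
      simp only
      apply Finset.sum_eq_zero
      intro p _
      rw [if_neg (hi p)]
    have hesum : ∑ p, u p • v (g p) = ∑ i, e i • v i := by
      have : ∀ i, e i • v i = ∑ p, if g p = i then u p • v (g p) else 0 := by
        intro i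
        rw [he]
        simp only
        rw [Finset.sum_smul]
        apply Finset.sum_congr rfl
        intro p _
        split_ifs with h
        · rw [h]
        · simp
      simp_rw [this]
      rw [Finset.sum_comm]
      apply Finset.sum_congr rfl
      intro p _
      simp
    have hNpos : ∀ i, 0 < N i := fun i => lt_of_le_of_lt (Nat.zero_le _) (hn i)
    have hlt : ∀ i, n i + e i < 2 * N i := by
      intro i
      by_cases h : ∃ p, g p = i
      · obtain ⟨p, rfl⟩ := h
        rw [he1]
        have := hn (g p)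
        have := hu p
        omega
      · push Not at h
        rw [he2 i h]
        have := hn i
        omega
    rw [hD, Finset.mem_biUnion]
    refine ⟨fun p => ⟨(n (g p) + e (g p)) / N (g p), ?_⟩, Finset.mem_univ _, ?_⟩
    · rw [Nat.div_lt_iff_lt_mul (hNpos _)]
      exact hlt _
    · rw [Finset.mem_image]
      refine ⟨a + ∑ i, ((n i + e i) % N i) • v i, ?_, ?_⟩
      · rw [hP, mem_prog]
        exact ⟨_, fun i => Nat.mod_lt _ (hNpos i), rfl⟩
      · rw [hf]
        simp only
        simp only at hxn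
        rw [hesum, hxn]
        have h1 : ∑ p, ((n (g p) + e (g p)) / N (g p) * N (g p)) • v (g p)
            = ∑ i, ((n i + e i) / N i * N i) • v i := by
          have h2 : ∀ i, i ∉ Finset.univ.image g → ((n i + e i) / N i * N i) • v i = 0 := by
            intro i hi
            have : ∀ p, g p ≠ i := by
              intro p hp
              exact hi (Finset.mem_image.2 ⟨p, Finset.mem_univ _, hp⟩)
            rw [he2 i this, add_zero, Nat.div_eq_of_lt (hn i)]
            simp
          rw [← Finset.sum_subset (Finset.subset_univ (Finset.univ.image g)) (fun i _ hi => h2 i hi)]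
          rw [Finset.sum_image (fun x _ y _ h => hginj h)]
        rw [h1, add_assoc, ← Finset.sum_add_distrib, add_assoc, ← Finset.sum_add_distrib]
        congr 1
        apply Finset.sum_congr rfl
        intro i _
        rw [← add_smul, ← add_smul]
        congr 1
        exact Nat.mod_add_div' _ _
  have hfib : ∀ z ∈ S.image f, (S.filter (fun xu => f xu = z)).card ≤ 2 ^ d := by
    intro z _
    set Φ := S.filter (fun xu => f xu = z) with hΦ
    have hinj : Set.InjOn Prod.fst (Φ : Set ((Fin d → ℤ) × (Fin m → ℕ))) := by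
      rintro ⟨x, u⟩ h1 ⟨y, w⟩ h2 hxy
      simp only at hxy
      subst hxy
      rw [Finset.mem_coe, hΦ, Finset.mem_filter] at h1 h2
      have h3 : f (x, u) = f (x, w) := h1.2.trans h2.2.symm
      simp only [hf, add_right_inj] at h3
      have h4 : ∑ p, ((u p : ℚ)) • qv (v (g p)) = ∑ p, ((w p : ℚ)) • qv (v (g p)) := by
        have := congrArg qv h3
        rw [qv_sum, qv_sum] at this
        simpa only [qv_nsmul] using this
      have h5 : ∀ p, ((u p : ℚ)) = (w p : ℚ) := by
        have h6 : ∑ p, ((u p : ℚ) - (w p : ℚ)) • qv (v (g p)) = 0 := by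
          simp_rw [sub_smul]
          rw [Finset.sum_sub_distrib, h4, sub_self]
        intro p
        have := Fintype.linearIndependent_iff.1 hg _ h6 p
        linarith
      have h7 : u = w := by
        funext p
        exact_mod_cast h5 p
      rw [h7]
    rw [← Finset.card_image_of_injOn hinj]
    have hfr : Module.finrank ℚ (Submodule.span ℚ (Set.range fun i => qv (v (g i)))) = m := by
      rw [finrank_span_eq_card hg]; simp
    apply few_coset hF hA (Submodule.span ℚ (Set.range fun i => qv (v (g i)))) (by rw [hfr]; exact hm)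
    · intro x hx
      rw [Finset.mem_image] at hx
      obtain ⟨⟨x', u⟩, h1, rfl⟩ := hx
      rw [hΦ, Finset.mem_filter, hS, Finset.mem_product] at h1
      exact (Finset.mem_inter.1 h1.1.1).1
    · intro x hx y hy
      rw [Finset.mem_image] at hx hy
      obtain ⟨⟨x', u⟩, h1, rfl⟩ := hx
      obtain ⟨⟨y', w⟩, h2, rfl⟩ := hy
      rw [hΦ, Finset.mem_filter] at h1 h2
      have h3 : f (x', u) = f (y', w) := h1.2.trans h2.2.symm
      simp only [hf] at h3
      have h4 : x' - y' = ∑ p, w p • v (g p) - ∑ p, u p • v (g p) := by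
        rw [sub_eq_sub_iff_add_eq_add, h3]
        abel
      simp only
      rw [h4, qv_sub, qv_sum, qv_sum]
      apply Submodule.sub_mem
      · apply Submodule.sum_mem
        intro p _
        rw [qv_nsmul]
        exact Submodule.smul_mem _ _ (Submodule.subset_span ⟨p, rfl⟩)
      · apply Submodule.sum_mem
        intro p _
        rw [qv_nsmul]
        exact Submodule.smul_mem _ _ (Submodule.subset_span ⟨p, rfl⟩)
  calc S.card ≤ 2 ^ d * (S.image f).card := Finset.card_le_mul_card_image S (2 ^ d) hfib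
    _ ≤ 2 ^ d * (2 ^ m * P.card) := Nat.mul_le_mul_left _ ((Finset.card_le_card himg).trans hDc)
    _ = 2 ^ m * P.card * 2 ^ d := by ring

theorem short_bound {d r R : ℕ} {Λ : AddSubgroup (Fin d → ℤ)} (hF : FewIn Λ R)
    {A : Finset (Fin d → ℤ)} (hA : ∀ x, x ∈ A ↔ x ∈ Λ ∧ ∀ l, |x l| ≤ (R : ℤ))
    (a : Fin d → ℤ) (v : Fin r → Fin d → ℤ) (N : Fin r → ℕ) (F : Submodule ℚ (Fin d → ℚ))
    (hFd : 4 * Module.finrank ℚ F ≤ d) (E : Finset (Fin r))
    (hE : ∀ i, i ∉ E → N i ≤ 1 ∨ qv (v i) ∈ F) :
    (A ∩ prog a v N).card ≤ (∏ i ∈ E, N i) * 2 ^ d := by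
  classical
  have hch : ∀ x ∈ A ∩ prog a v N, ∃ n : Fin r → ℕ, (∀ i, n i < N i) ∧ x = a + ∑ i, n i • v i :=
    fun x hx => mem_prog.1 (Finset.mem_inter.1 hx).2
  choose! n hn hxn using hch
  set Bx : Finset (Fin r → ℕ) := Fintype.piFinset fun i => if i ∈ E then Finset.range (N i) else {0}
    with hBx
  have hBc : Bx.card = ∏ i ∈ E, N i := by
    rw [hBx, Fintype.card_piFinset]
    rw [← Finset.prod_subset (Finset.subset_univ E)]
    · apply Finset.prod_congr rfl
      intro i hi
      rw [if_pos hi, Finset.card_range]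
    · intro i _ hi
      rw [if_neg hi]; simp
  rw [← hBc]
  set f : (Fin d → ℤ) → (Fin r → ℕ) := fun x i => if i ∈ E then n x i else 0 with hf
  have hmaps : ∀ x ∈ A ∩ prog a v N, f x ∈ Bx := by
    intro x hx
    rw [hBx, Fintype.mem_piFinset]
    intro i
    by_cases hi : i ∈ E
    · simp only [hf, if_pos hi, Finset.mem_range]; exact hn x hx i
    · simp only [hf, if_neg hi, Finset.mem_singleton]
  have := Finset.card_le_mul_card_image_of_maps_to hmaps (2 ^ d) (fun b _ => ?_)
  · rw [mul_comm]; exact this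
  · apply few_coset hF hA F hFd
    · intro x hx
      exact (Finset.mem_inter.1 (Finset.mem_filter.1 hx).1).1
    · intro x hx y hy
      rw [Finset.mem_filter] at hx hy
      have h1 : f x = f y := hx.2.trans hy.2.symm
      have h2 : x - y = ∑ i, ((n x i : ℤ) - (n y i : ℤ)) • v i := by
        conv_lhs => rw [hxn x hx.1, hxn y hy.1]
        simp_rw [sub_smul]
        rw [Finset.sum_sub_distrib]
        simp
      rw [h2, qv_sum]
      apply Submodule.sum_mem
      intro i _
      rw [qv_zsmul]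
      by_cases hi : i ∈ E
      · have h3 := congrFun h1 i
        simp only [hf, if_pos hi] at h3
        rw [h3]; simp
      · rcases hE i hi with h4 | h4
        · have h5 := hn x hx.1 i
          have h6 := hn y hy.1 i
          have h7 : n x i = 0 := by omega
          have h8 : n y i = 0 := by omega
          rw [h7, h8]; simp
        · exact Submodule.smul_mem _ _ h4

end Final

end Pool.Agent.TH513.FR
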