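import Pool.Agent.TH513.FR.Defs

/-!
# L1: flag basis of the saturation of a sublattice
-/

set_option autoImplicit false

namespace Pool.Agent.TH513.FR

namespace Flag

open Finset

variable {d : ℕ}

theorem qv_add (x y : Fin d → ℤ) : qv (x + y) = qv x + qv y := by
  funext l; simp [qv]

theorem qv_sub (x y : Fin d → ℤ) : qv (x - y) = qv x - qv y := by
  funext l; simp [qv]

theorem qv_smul (a : ℤ) (y : Fin d → ℤ) : qv (a • y) = (a : ℚ) • qv y := by
  funext l; simp [qv]

theorem qv_sum {ι : Type} (s : Finset ι) (f : ι → Fin d → ℤ) :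
    qv (∑ i ∈ s, f i) = ∑ i ∈ s, qv (f i) := by
  funext l; simp [qv]

/-- a linear functional with given values on a linearly independent family -/
theorem exists_functional {j : ℕ} (v : Fin j → Fin d → ℚ) (hv : LinearIndependent ℚ v)
    (c : Fin j → ℚ) : ∃ κ : (Fin d → ℚ) →ₗ[ℚ] ℚ, ∀ i, κ (v i) = c i := by
  let b := Module.Basis.span hv
  obtain ⟨κ, hκ⟩ := LinearMap.exists_extend (b.constr ℚ c)
  refine ⟨κ, fun i => ?_⟩
  have h1 : v i = (Submodule.span ℚ (Set.range v)).subtype (b i) := by
    simp [b, Module.Basis.span_apply]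
  rw [h1, ← LinearMap.comp_apply, hκ]
  simp

/-- clearing denominators -/
theorem exists_denom (κ : (Fin d → ℚ) →ₗ[ℚ] ℚ) :
    ∃ (N : ℤ) (φ : (Fin d → ℤ) →+ ℤ), 1 ≤ N ∧ ∀ y, ((φ y : ℤ) : ℚ) = N * κ (qv y) := by
  classical
  let D : Fin d → ℕ := fun l => (κ (Pi.single l 1)).den
  let N : ℕ := ∏ l, D l
  have hN : 1 ≤ N := Nat.one_le_iff_ne_zero.2 (Finset.prod_ne_zero_iff.2 fun l _ => (κ (Pi.single l 1)).den_nz)
  have ha : ∀ l, ∃ a : ℤ, (a : ℚ) = N * κ (Pi.single l 1) := by
    intro l
    obtain ⟨m, hm⟩ : D l ∣ N := Finset.dvd_prod_of_mem D (mem_univ l)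
    refine ⟨m * (κ (Pi.single l 1)).num, ?_⟩
    rw [hm]
    push_cast
    have h1 : ((D l : ℕ) : ℚ) * κ (Pi.single l 1) = (κ (Pi.single l 1)).num := by
      have := Rat.mul_den_eq_num (κ (Pi.single l 1))
      rw [mul_comm]
      exact this
    rw [mul_comm ((D l : ℕ) : ℚ) (m : ℚ), mul_assoc, h1]
  choose a ha using ha
  refine ⟨N, AddMonoidHom.mk' (fun y => ∑ l, y l * a l) ?_, by exact_mod_cast hN, fun y => ?_⟩
  · intro y y'
    rw [← Finset.sum_add_distrib]
    exact Finset.sum_congr rfl fun l _ => by simp [add_mul]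
  · have h2 : κ (qv y) = ∑ l, (y l : ℚ) * κ (Pi.single l 1) := by
      have h3 : qv y = ∑ l, (y l : ℚ) • (Pi.single l (1 : ℚ) : Fin d → ℚ) := by
        funext k
        simp [qv, Finset.sum_apply, Pi.single_apply]
      rw [h3, map_sum]
      exact Finset.sum_congr rfl fun l _ => by rw [map_smul, smul_eq_mul]
    rw [h2]
    simp only [AddMonoidHom.mk'_apply, Int.cast_sum, Int.cast_mul, ha, Int.cast_natCast,
      Finset.mul_sum]
    exact Finset.sum_congr rfl fun l _ => by ring

theorem span_init {j : ℕ} (x : Fin (j + 1) → Fin d → ℤ) (κ : (Fin d → ℚ) →ₗ[ℚ] ℚ)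
    (h0 : ∀ i : Fin j, κ (qv (x i.castSucc)) = 0) (h1 : κ (qv (x (Fin.last j))) = 1)
    (y : Fin d → ℚ) (hy : y ∈ Submodule.span ℚ (Set.range fun i => qv (x i))) (hκ : κ y = 0) :
    y ∈ Submodule.span ℚ (Set.range fun i : Fin j => qv (x i.castSucc)) := by
  rw [Submodule.mem_span_range_iff_exists_fun] at hy ⊢
  obtain ⟨c, hc⟩ := hy
  rw [Fin.sum_univ_castSucc] at hc
  have h2 : c (Fin.last j) = 0 := by
    have h3 := congrArg κ hc
    rw [map_add, map_sum, map_smul, h1, hκ] at h3
    have h4 : ∑ i : Fin j, κ (c i.castSucc • qv (x i.castSucc)) = 0 :=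
      Finset.sum_eq_zero fun i _ => by rw [map_smul, h0, smul_zero]
    rw [h4] at h3
    simpa using h3
  refine ⟨fun i => c i.castSucc, ?_⟩
  rw [h2, zero_smul, add_zero] at hc
  exact hc

theorem main : ∀ (j : ℕ) (x : Fin j → Fin d → ℤ), LinearIndependent ℚ (fun i => qv (x i)) →
    ∃ (T : Fin j → Fin j → ℤ) (z : Fin j → Fin d → ℤ),
      (∀ i, 1 ≤ T i i) ∧ (∀ i k, k < i → 0 ≤ T i k ∧ T i k < T i i) ∧
      (∀ i k, i < k → T i k = 0) ∧
      (∀ i, x i = ∑ k, T i k • z k) ∧
      (∀ y : Fin d → ℤ, qv y ∈ Submodule.span ℚ (Set.range fun i => qv (x i)) →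
        ∃ η : Fin j → ℤ, y = ∑ k, η k • z k) ∧
      (∀ k, qv (z k) ∈ Submodule.span ℚ (Set.range fun i => qv (x i)))
  | 0, x, _ => by
    refine ⟨fun i => i.elim0, fun i => i.elim0, fun i => i.elim0, fun i => i.elim0,
      fun i => i.elim0, fun i => i.elim0, ?_, fun i => i.elim0⟩
    intro y hy
    refine ⟨fun i => i.elim0, ?_⟩
    have h1 : qv y = 0 := by
      have h2 : (Set.range fun i : Fin 0 => qv (x i)) = ∅ := Set.range_eq_empty _
      rw [h2, Submodule.span_empty] at hy
      simpa using hy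
    funext l
    have h3 := congrFun h1 l
    simp only [qv, Pi.zero_apply, Int.cast_eq_zero] at h3
    simp [h3]
  | j + 1, x, hx => by
    classical
    have hx' : LinearIndependent ℚ (fun i : Fin j => qv (x i.castSucc)) :=
      hx.comp Fin.castSucc (Fin.castSucc_injective j)
    obtain ⟨T, z, hT1, hT2, hT3, hxz, hsat, hz⟩ := main j (fun i => x i.castSucc) hx'
    obtain ⟨κ, hκ⟩ := exists_functional (fun i => qv (x i)) hx (Fin.snoc (fun _ => 0) 1)
    have hκ0 : ∀ i : Fin j, κ (qv (x i.castSucc)) = 0 := by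
      intro i
      rw [hκ i.castSucc]
      simp
    have hκ1 : κ (qv (x (Fin.last j))) = 1 := by
      rw [hκ (Fin.last j)]
      simp
    obtain ⟨N, φ, hN, hφ⟩ := exists_denom κ
    have hN0 : (N : ℚ) ≠ 0 := by
      have : (1 : ℚ) ≤ N := by exact_mod_cast hN
      linarith
    have hφ0 : ∀ y, φ y = 0 → κ (qv y) = 0 := by
      intro y hy
      have h1 := hφ y
      rw [hy, Int.cast_zero] at h1
      rcases mul_eq_zero.1 h1.symm with h2 | h2
      · exact absurd h2 hN0
      · exact h2
    have hφz : ∀ y, κ (qv y) = 0 → φ y = 0 := by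
      intro y hy
      have h1 := hφ y
      rw [hy, mul_zero] at h1
      exact_mod_cast h1
    have hφx : φ (x (Fin.last j)) = N := by
      have h1 := hφ (x (Fin.last j))
      rw [hκ1, mul_one] at h1
      exact_mod_cast h1
    -- the earlier span
    set S' := Submodule.span ℚ (Set.range fun i : Fin j => qv (x i.castSucc)) with hS'
    set S := Submodule.span ℚ (Set.range fun i : Fin (j + 1) => qv (x i)) with hS
    have hSS : S' ≤ S := by
      refine Submodule.span_mono ?_
      rintro _ ⟨i, rfl⟩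
      exact ⟨i.castSucc, rfl⟩
    have hκS : ∀ y ∈ S', κ y = 0 := by
      intro y hy
      induction hy using Submodule.span_induction with
      | mem y h => obtain ⟨i, rfl⟩ := h; exact hκ0 i
      | zero => exact map_zero κ
      | add a b _ _ ha hb => rw [map_add, ha, hb, add_zero]
      | smul a b _ hb => rw [map_smul, hb, smul_zero]
    have hback : ∀ y, qv y ∈ S → φ y = 0 → qv y ∈ S' := fun y hy h =>
      span_init x κ hκ0 hκ1 (qv y) hy (hφ0 y h)
    -- the group of values
    let Γ : AddSubgroup (Fin d → ℤ) :=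
      { carrier := {y | qv y ∈ S}
        add_mem' := fun {a b} ha hb => by
          simp only [Set.mem_setOf_eq] at ha hb ⊢
          rw [qv_add]
          exact S.add_mem ha hb
        zero_mem' := by
          have : qv (0 : Fin d → ℤ) = 0 := by funext l; simp [qv]
          simp only [Set.mem_setOf_eq, this]
          exact S.zero_mem
        neg_mem' := fun {a} ha => by
          simp only [Set.mem_setOf_eq] at ha ⊢
          have : qv (-a) = -qv a := by funext l; simp [qv]
          rw [this]
          exact S.neg_mem ha }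
    have hΓ : ∀ y, y ∈ Γ ↔ qv y ∈ S := fun y => Iff.rfl
    obtain ⟨g0, hg0⟩ := Int.subgroup_cyclic (Γ.map φ)
    have hxΓ : x (Fin.last j) ∈ Γ := (hΓ _).2 (Submodule.subset_span ⟨Fin.last j, rfl⟩)
    have hmem : ∀ m, m ∈ Γ.map φ ↔ ∃ c : ℤ, c * g0 = m := by
      intro m
      rw [hg0, AddSubgroup.mem_closure_singleton]
      simp only [smul_eq_mul]
    -- positive generator
    obtain ⟨g, hgpos, hgval, hgdvd⟩ : ∃ g : ℤ, 0 < g ∧ (∃ z₁ ∈ Γ, φ z₁ = g) ∧
        ∀ y ∈ Γ, ∃ m : ℤ, φ y = m * g := by
      have hg0ne : g0 ≠ 0 := by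
        intro h0
        have h1 : N ∈ Γ.map φ := ⟨_, hxΓ, hφx⟩
        obtain ⟨c, hc⟩ := (hmem N).1 h1
        rw [h0, mul_zero] at hc
        omega
      refine ⟨|g0|, abs_pos.2 hg0ne, ?_, ?_⟩
      · have h1 : |g0| ∈ Γ.map φ := by
          rw [hmem]
          rcases abs_choice g0 with h | h
          · exact ⟨1, by rw [h, one_mul]⟩
          · exact ⟨-1, by rw [h]; ring⟩
        obtain ⟨z₁, hz₁, h2⟩ := h1
        exact ⟨z₁, hz₁, h2⟩
      · intro y hy
        obtain ⟨c, hc⟩ := (hmem (φ y)).1 ⟨y, hy, rfl⟩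
        rcases abs_choice g0 with h | h
        · exact ⟨c, by rw [h, hc]⟩
        · exact ⟨-c, by rw [h, ← hc]; ring⟩
    obtain ⟨z₁, hz₁, hφz₁⟩ := hgval
    obtain ⟨h, hh⟩ := hgdvd _ hxΓ
    rw [hφx] at hh
    have hh1 : 1 ≤ h := by
      by_contra hlt
      have h2 : h ≤ 0 := by omega
      have h3 : h * g ≤ 0 := mul_nonpos_of_nonpos_of_nonneg h2 hgpos.le
      omega
    -- the remainder
    have hrem : ∃ s : Fin j → ℤ, x (Fin.last j) - h • z₁ = ∑ k, s k • z k := by
      apply hsat
      apply hback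
      · rw [qv_sub, qv_smul]
        exact S.sub_mem hxΓ (S.smul_mem _ hz₁)
      · rw [map_sub, map_zsmul, hφx, hφz₁, hh, smul_eq_mul, sub_self]
    obtain ⟨s, hs⟩ := hrem
    set zl : Fin d → ℤ := z₁ + ∑ k, (s k / h) • z k with hzl
    have hφzk : ∀ k, φ (z k) = 0 := fun k => hφz _ (hκS _ (hz k))
    have hφzl : φ zl = g := by
      rw [hzl, map_add, map_sum, hφz₁]
      have : ∑ k, φ ((s k / h) • z k) = 0 :=
        Finset.sum_eq_zero fun k _ => by rw [map_zsmul, hφzk, smul_zero]
      rw [this, add_zero]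
    have hzlS : qv zl ∈ S := by
      rw [hzl, qv_add, qv_sum]
      refine S.add_mem hz₁ (S.sum_mem fun k _ => ?_)
      rw [qv_smul]
      exact S.smul_mem _ (hSS (hz k))
    refine ⟨Fin.snoc (α := fun _ => Fin (j + 1) → ℤ) (fun i => Fin.snoc (α := fun _ => ℤ) (T i) 0)
        (Fin.snoc (α := fun _ => ℤ) (fun k => s k % h) h),
      Fin.snoc (α := fun _ => Fin d → ℤ) z zl, ?_, ?_, ?_, ?_, ?_, ?_⟩
    · intro i
      induction i using Fin.lastCases with
      | last => simpa using hh1
      | cast i => simpa using hT1 i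
    · intro i k hik
      induction i using Fin.lastCases with
      | last =>
        induction k using Fin.lastCases with
        | last => exact absurd hik (lt_irrefl _)
        | cast k =>
          simp only [Fin.snoc_last, Fin.snoc_castSucc]
          exact ⟨Int.emod_nonneg _ (by omega), Int.emod_lt_of_pos _ (by omega)⟩
      | cast i =>
        induction k using Fin.lastCases with
        | last => exact absurd hik (not_lt.2 (Fin.le_last _))
        | cast k =>
          simp only [Fin.snoc_castSucc]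
          exact hT2 i k (by simpa using hik)
    · intro i k hik
      induction i using Fin.lastCases with
      | last => exact absurd hik (not_lt.2 (Fin.le_last _))
      | cast i =>
        induction k using Fin.lastCases with
        | last => simp
        | cast k =>
          simp only [Fin.snoc_castSucc]
          exact hT3 i k (by simpa using hik)
    · intro i
      induction i using Fin.lastCases with
      | last =>
        rw [Fin.sum_univ_castSucc]
        simp only [Fin.snoc_last, Fin.snoc_castSucc]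
        have h1 : x (Fin.last j) = h • z₁ + ∑ k, s k • z k := by
          rw [← hs]; abel
        rw [h1, hzl, smul_add, Finset.smul_sum]
        have h2 : ∀ k, s k • z k = (s k % h) • z k + h • ((s k / h) • z k) := by
          intro k
          rw [smul_smul, ← add_smul, Int.emod_add_mul_ediv]
        rw [Finset.sum_congr rfl fun k _ => h2 k, Finset.sum_add_distrib]
        abel
      | cast i =>
        rw [Fin.sum_univ_castSucc]
        simp only [Fin.snoc_castSucc, Fin.snoc_last, zero_smul, add_zero]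
        exact hxz i
    · intro y hy
      obtain ⟨m, hm⟩ := hgdvd y hy
      obtain ⟨η, hη⟩ := hsat (y - m • zl) (hback _ (by
        rw [qv_sub, qv_smul]
        exact S.sub_mem hy (S.smul_mem _ hzlS)) (by
        rw [map_sub, map_zsmul, hφzl, hm, smul_eq_mul, sub_self]))
      refine ⟨Fin.snoc (α := fun _ => ℤ) η m, ?_⟩
      rw [Fin.sum_univ_castSucc]
      simp only [Fin.snoc_castSucc, Fin.snoc_last]
      rw [← hη]
      abel
    · intro k
      induction k using Fin.lastCases with
      | last => simpa using hzlS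
      | cast k =>
        simp only [Fin.snoc_castSucc]
        exact hSS (hz k)

end Flag

theorem flag : FlagB := by
  intro d j x hx
  obtain ⟨T, z, h1, h2, h3, h4, h5, _⟩ := Flag.main j x hx
  exact ⟨T, z, h1, h2, h3, h4, h5⟩

end Pool.Agent.TH513.FR
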