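import Pool.Agent.TH513.FR.Defs

/-!
K2: `2^(s+1)` groups of `m` linearly independent vectors: the bound for the number of lattice
points of small sup norm among the subset sums, from the positive definiteness of the triangle
kernel (the doubling argument in the group algebra of `ℤ^d`).
-/

namespace Pool.Agent.TH513.FR.Groups

open Finset

variable {d : ℕ}

/-- the real group algebra of `ℤ^d` -/
abbrev Alg (d : ℕ) := AddMonoidAlgebra ℝ (Fin d → ℤ)

/-- the linear functional with values `G` at the points -/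
noncomputable def pair (G : (Fin d → ℤ) → ℝ) : Alg d →ₗ[ℝ] ℝ :=
  (Finsupp.linearCombination ℝ G).comp
    (AddMonoidAlgebra.coeffLinearEquiv (S := ℝ) ℝ).toLinearMap

lemma pair_single (G : (Fin d → ℤ) → ℝ) (x : Fin d → ℤ) (c : ℝ) :
    pair G (AddMonoidAlgebra.single x c) = c * G x := by
  simp [pair]

/-- the involution `x ↦ -x` -/
noncomputable def inv : Alg d →ₐ[ℝ] Alg d :=
  AddMonoidAlgebra.mapDomainAlgHom ℝ ℝ (-(AddMonoidHom.id (Fin d → ℤ)))

lemma inv_single (x : Fin d → ℤ) (c : ℝ) :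
    (inv (AddMonoidAlgebra.single x c) : Alg d) = AddMonoidAlgebra.single (-x) c := by
  simp [inv]

lemma exists_repr (f : Alg d) : ∃ (n : ℕ) (c : Fin n → ℝ) (u : Fin n → Fin d → ℤ),
    f = ∑ i, AddMonoidAlgebra.single (u i) (c i) := by
  induction f using AddMonoidAlgebra.induction_linear with
  | zero => exact ⟨0, Fin.elim0, Fin.elim0, by simp⟩
  | add f g hf hg =>
    obtain ⟨n, c, u, rfl⟩ := hf
    obtain ⟨m, c', u', rfl⟩ := hg
    refine ⟨n + m, Fin.append c c', Fin.append u u', ?_⟩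
    rw [Fin.sum_univ_add]
    simp
  | single x r => exact ⟨1, fun _ => r, fun _ => x, by simp⟩

lemma inv_inv (f : Alg d) : inv (inv f) = f := by
  obtain ⟨n, c, u, rfl⟩ := exists_repr f
  simp [inv_single]

lemma pair_inv {G : (Fin d → ℤ) → ℝ} (hG : ∀ x, G (-x) = G x) (f : Alg d) :
    pair G (inv f) = pair G f := by
  obtain ⟨n, c, u, rfl⟩ := exists_repr f
  simp [inv_single, pair_single, hG]

/-- `f * f^*` -/
noncomputable def D (f : Alg d) : Alg d := f * inv f

lemma D_one : D (1 : Alg d) = 1 := by simp [D]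

lemma D_mul (f g : Alg d) : D (f * g) = D f * D g := by
  simp only [D, map_mul]; ring

/-- `D` as a monoid homomorphism -/
noncomputable def DHom : Alg d →* Alg d where
  toFun := D
  map_one' := D_one
  map_mul' := D_mul

lemma D_prod {ι : Type*} (s : Finset ι) (f : ι → Alg d) :
    D (∏ i ∈ s, f i) = ∏ i ∈ s, D (f i) :=
  map_prod (DHom (d := d)) f s

lemma D_pow (f : Alg d) (n : ℕ) : D (f ^ n) = D f ^ n :=
  map_pow (DHom (d := d)) f n

lemma D_single (x : Fin d → ℤ) (f : Alg d) :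
    D (AddMonoidAlgebra.single x 1 * f) = D f := by
  rw [D_mul]
  have : D (AddMonoidAlgebra.single x (1 : ℝ) : Alg d) = 1 := by
    simp [D, inv_single, AddMonoidAlgebra.one_def]
  rw [this, one_mul]

/-- positive definiteness -/
def PD (G : (Fin d → ℤ) → ℝ) : Prop :=
  ∀ (n : ℕ) (c : Fin n → ℝ) (u : Fin n → Fin d → ℤ),
    0 ≤ ∑ i, ∑ j, c i * c j * G (u i - u j)

lemma pair_D_nonneg {G : (Fin d → ℤ) → ℝ} (hG : PD G) (f : Alg d) : 0 ≤ pair G (D f) := by
  obtain ⟨n, c, u, rfl⟩ := exists_repr f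
  have := hG n c u
  have e : pair G (D (∑ i, (AddMonoidAlgebra.single (u i) (c i) : Alg d)))
      = ∑ i, ∑ j, c i * c j * G (u i - u j) := by
    simp only [D, map_sum, inv_single, Finset.sum_mul_sum, AddMonoidAlgebra.single_mul_single,
      pair_single, sub_eq_add_neg]
  rw [e]; exact this

/-- Cauchy-Schwarz -/
lemma pair_mul_sq_le {G : (Fin d → ℤ) → ℝ} (hG : PD G) (hev : ∀ x, G (-x) = G x)
    (f h : Alg d) : pair G (f * h) ^ 2 ≤ pair G (D f) * pair G (D h) := by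
  -- quadratic polynomial `t ↦ pair (D (t f + inv h))`
  have key : ∀ t : ℝ, 0 ≤ pair G (D f) * (t * t) + 2 * pair G (f * h) * t + pair G (D h) := by
    intro t
    have h1 := pair_D_nonneg hG (t • f + inv h)
    have e : D (t • f + inv h) = (t * t) • D f + t • (f * h) + t • inv (f * h) + D h := by
      simp only [D, map_add, map_smul, inv_inv, map_mul]
      simp only [Algebra.smul_def, map_mul]
      ring
    rw [e] at h1
    simp only [map_add, map_smul, pair_inv hev, smul_eq_mul] at h1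
    linarith
  have := discrim_le_zero key
  unfold discrim at this
  nlinarith

lemma doubling {G : (Fin d → ℤ) → ℝ} (hG : PD G) (hev : ∀ x, G (-x) = G x) {ι : Type*}
    [DecidableEq ι] (s : ℕ) : ∀ (I : Finset ι) (μ : ι → Alg d) (y : Fin d → ℤ),
      I.card = 2 ^ (s + 1) →
      pair G (AddMonoidAlgebra.single y 1 * ∏ i ∈ I, μ i) ^ (2 ^ (s + 1))
        ≤ ∏ i ∈ I, pair G (D^[s + 1] (μ i)) := by
  induction s with
  | zero =>
    intro I μ y hI
    obtain ⟨a, b, hab, rfl⟩ := Finset.card_eq_two.mp (by simpa using hI)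
    simp only [Finset.prod_pair hab, zero_add, pow_one, Function.iterate_one]
    rw [← mul_assoc]
    refine (pair_mul_sq_le hG hev _ _).trans ?_
    rw [D_single]
  | succ s ih =>
    intro I μ y hI
    obtain ⟨I₁, h₁, hc₁⟩ := Finset.exists_subset_card_eq (s := I) (n := 2 ^ (s + 1))
      (by rw [hI]; exact Nat.pow_le_pow_right (by norm_num) (by omega))
    have hc₂ : (I \ I₁).card = 2 ^ (s + 1) := by
      rw [Finset.card_sdiff_of_subset h₁, hI, hc₁, pow_succ 2 (s + 1)]; omega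
    have e : ∀ F : ι → Alg d, ∏ i ∈ I, F i = (∏ i ∈ I₁, F i) * ∏ i ∈ I \ I₁, F i := by
      intro F; rw [mul_comm, Finset.prod_sdiff h₁]
    have e' : ∀ F : ι → ℝ, ∏ i ∈ I, F i = (∏ i ∈ I₁, F i) * ∏ i ∈ I \ I₁, F i := by
      intro F; rw [mul_comm, Finset.prod_sdiff h₁]
    have h2 := pair_mul_sq_le hG hev (AddMonoidAlgebra.single y 1 * ∏ i ∈ I₁, μ i)
      (∏ i ∈ I \ I₁, μ i)
    rw [D_single, D_prod, D_prod, mul_assoc, ← e] at h2
    have h3 := ih I₁ (fun i => D (μ i)) 0 hc₁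
    have h4 := ih (I \ I₁) (fun i => D (μ i)) 0 hc₂
    have one : (AddMonoidAlgebra.single (0 : Fin d → ℤ) (1 : ℝ) : Alg d) = 1 := rfl
    rw [one, one_mul] at h3 h4
    rw [e']
    simp only [Function.iterate_succ_apply] at h3 h4 ⊢
    calc pair G (AddMonoidAlgebra.single y 1 * ∏ i ∈ I, μ i) ^ 2 ^ (s + 1 + 1)
        = (pair G (AddMonoidAlgebra.single y 1 * ∏ i ∈ I, μ i) ^ 2) ^ (2 ^ (s + 1)) := by
          rw [← pow_mul]; congr 1; ring
      _ ≤ (pair G (∏ i ∈ I₁, D (μ i)) * pair G (∏ i ∈ I \ I₁, D (μ i))) ^ (2 ^ (s + 1)) :=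
          pow_le_pow_left₀ (sq_nonneg _) h2 _
      _ = pair G (∏ i ∈ I₁, D (μ i)) ^ (2 ^ (s + 1)) *
            pair G (∏ i ∈ I \ I₁, D (μ i)) ^ (2 ^ (s + 1)) := mul_pow _ _ _
      _ ≤ _ := mul_le_mul h3 h4 (Even.pow_nonneg ⟨2 ^ s, by rw [pow_succ]; ring⟩ _)
            (le_trans (Even.pow_nonneg ⟨2 ^ s, by rw [pow_succ]; ring⟩ _) h3)

/-- `(1 + X^w)/2` -/
noncomputable def P (w : Fin d → ℤ) : Alg d :=
  AddMonoidAlgebra.single 0 (1 / 2) + AddMonoidAlgebra.single w (1 / 2)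

lemma D_P (w : Fin d → ℤ) : D (P w) = AddMonoidAlgebra.single (-w) 1 * P w ^ 2 := by
  have h : inv (P w) = AddMonoidAlgebra.single (-w) 1 * P w := by
    simp only [P, map_add, inv_single, mul_add, AddMonoidAlgebra.single_mul_single, neg_zero,
      add_zero, one_mul, neg_add_cancel]
    rw [add_comm]
  rw [D, h]; ring

lemma iterate_D_P (w : Fin d → ℤ) (n : ℕ) : D^[n + 1] (P w) = D (P w) ^ (2 ^ n) := by
  induction n with
  | zero => simp
  | succ n ih =>
    rw [Function.iterate_succ_apply', ih, D_pow]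
    have : D (D (P w)) = D (P w) ^ 2 := by
      conv_lhs => rw [D_P w]
      rw [D_single, D_pow]
    rw [this, ← pow_mul]; congr 1; ring

lemma P_pow (w : Fin d → ℤ) (k : ℕ) :
    P w ^ k = ∑ b ∈ range (k + 1),
      AddMonoidAlgebra.single (b • w) ((k.choose b : ℝ) / 2 ^ k) := by
  rw [P, add_comm, add_pow]
  refine Finset.sum_congr rfl fun b hb => ?_
  have hb' : b ≤ k := by simpa [Nat.lt_succ_iff] using hb
  rw [AddMonoidAlgebra.single_pow, AddMonoidAlgebra.single_pow,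
    AddMonoidAlgebra.single_mul_single, smul_zero, add_zero]
  have : ((k.choose b : ℕ) : Alg d) = AddMonoidAlgebra.single 0 (k.choose b : ℝ) := by
    rw [AddMonoidAlgebra.natCast_def]
  rw [this, AddMonoidAlgebra.single_mul_single, add_zero]
  congr 1
  rw [← pow_add, Nat.add_sub_cancel' hb', one_div, inv_pow]
  ring

lemma iterate_D_P' (w : Fin d → ℤ) (s : ℕ) :
    D^[s + 1] (P w) = ∑ b ∈ range (2 ^ (s + 1) + 1),
      AddMonoidAlgebra.single (((b : ℤ) - 2 ^ s) • w)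
        (((2 ^ (s + 1)).choose b : ℝ) / 2 ^ (2 ^ (s + 1))) := by
  rw [iterate_D_P, D_P, mul_pow, ← pow_mul, AddMonoidAlgebra.single_pow, one_pow]
  have : 2 * 2 ^ s = 2 ^ (s + 1) := by ring
  rw [this, P_pow, Finset.mul_sum]
  refine Finset.sum_congr rfl fun b _ => ?_
  rw [AddMonoidAlgebra.single_mul_single, one_mul]
  congr 1
  rw [sub_smul]
  simp only [smul_neg, natCast_zsmul]
  rw [neg_add_eq_sub]
  congr 1

lemma iterate_D_prod {ι : Type*} (I : Finset ι) (f : ι → Alg d) (n : ℕ) :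
    D^[n] (∏ i ∈ I, f i) = ∏ i ∈ I, D^[n] (f i) := by
  induction n with
  | zero => simp
  | succ n ih => simp only [Function.iterate_succ_apply', ih, D_prod]

/-- `qv` as a homomorphism -/
def qvHom : (Fin d → ℤ) →+ (Fin d → ℚ) where
  toFun := qv
  map_zero' := by funext l; simp [qv]
  map_add' x y := by funext l; simp [qv]

lemma qv_sum_zsmul {m : ℕ} (w : Fin m → Fin d → ℤ) (c : Fin m → ℤ) :
    qv (∑ i, c i • w i) = ∑ i, (c i : ℚ) • qv (w i) := by
  change qvHom _ = _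
  rw [map_sum]
  refine Finset.sum_congr rfl fun i _ => ?_
  rw [map_zsmul]
  funext l
  simp [qvHom]

section tri

variable (Λ : AddSubgroup (Fin d → ℤ)) (R : ℕ)

lemma tri_nonneg (x : Fin d → ℤ) : 0 ≤ tri Λ R x := by
  unfold tri
  split_ifs
  · exact Finset.prod_nonneg fun l _ => le_max_left _ _
  · exact le_rfl

lemma tri_le_one (x : Fin d → ℤ) : tri Λ R x ≤ 1 := by
  unfold tri
  split_ifs
  · refine Finset.prod_le_one (fun l _ => le_max_left _ _) fun l _ => ?_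
    refine max_le zero_le_one ?_
    have : (0 : ℝ) ≤ |((x l : ℤ) : ℝ)| / (2 * R) := by positivity
    linarith
  · exact zero_le_one

lemma tri_even (x : Fin d → ℤ) : tri Λ R (-x) = tri Λ R x := by
  unfold tri
  by_cases hx : x ∈ Λ
  · rw [if_pos hx, if_pos (neg_mem hx)]
    simp
  · rw [if_neg hx, if_neg (fun h => hx (by simpa using neg_mem h))]

lemma tri_ne_zero (hR : 1 ≤ R) {x : Fin d → ℤ} (h : tri Λ R x ≠ 0) :
    x ∈ Λ ∧ ∀ l, |x l| ≤ 2 * (R : ℤ) := by
  unfold tri at h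
  split_ifs at h with hx
  · refine ⟨hx, fun l => ?_⟩
    by_contra hl
    push Not at hl
    refine h (Finset.prod_eq_zero (Finset.mem_univ l) ?_)
    refine max_eq_left ?_
    have hR' : (0 : ℝ) < 2 * R := by positivity
    have hl' : (2 * (R : ℝ)) < |((x l : ℤ) : ℝ)| := by exact_mod_cast hl
    rw [sub_nonpos, le_div_iff₀ hR', one_mul]
    exact hl'.le
  · exact absurd rfl h

lemma tri_lower (hR : 1 ≤ R) {x : Fin d → ℤ} (hx : x ∈ Λ) (h : ∀ l, |x l| ≤ (R : ℤ)) :
    (1 / 2 : ℝ) ^ d ≤ tri Λ R x := by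
  unfold tri
  rw [if_pos hx]
  have : (1 / 2 : ℝ) ^ d = ∏ _l : Fin d, (1 / 2 : ℝ) := by simp
  rw [this]
  refine Finset.prod_le_prod (fun l _ => by norm_num) fun l _ => ?_
  refine le_trans ?_ (le_max_right _ _)
  have hR' : (0 : ℝ) < 2 * R := by positivity
  have hl' : |((x l : ℤ) : ℝ)| ≤ (R : ℝ) := by exact_mod_cast h l
  have : |((x l : ℤ) : ℝ)| / (2 * R) ≤ 1 / 2 := by
    rw [div_le_iff₀ hR']; linarith
  linarith

end tri

/-- one group of independent vectors -/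
lemma pair_group (Λ : AddSubgroup (Fin d → ℤ)) (R : ℕ) (hR : 1 ≤ R) (hF : FewIn Λ R) {m : ℕ}
    (hm : 4 * m ≤ d) (s : ℕ) (w : Fin m → Fin d → ℤ)
    (hw : LinearIndependent ℚ (fun i => qv (w i))) :
    pair (tri Λ R) (D^[s + 1] (∏ i, P (w i))) ≤
      2 ^ d * (((2 ^ (s + 1)).choose (2 ^ s) : ℝ) / 2 ^ (2 ^ (s + 1))) ^ m := by
  classical
  set k := 2 ^ (s + 1) with hk
  set a : ℝ := ((k.choose (2 ^ s) : ℕ) : ℝ) / 2 ^ k with ha
  have ha0 : 0 ≤ a := by positivity
  have hle : ∀ b : ℕ, ((k.choose b : ℕ) : ℝ) / 2 ^ k ≤ a := by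
    intro b
    have h1 : k.choose b ≤ k.choose (k / 2) := Nat.choose_le_middle b k
    have h2 : k / 2 = 2 ^ s := by rw [hk, pow_succ]; omega
    rw [h2] at h1
    rw [ha]
    gcongr
  let pt : (Fin m → ℕ) → (Fin d → ℤ) := fun b => ∑ i, ((b i : ℤ) - 2 ^ s) • w i
  have e : D^[s + 1] (∏ i, P (w i)) = ∑ b ∈ Fintype.piFinset (fun _ : Fin m => range (k + 1)),
      AddMonoidAlgebra.single (pt b) (∏ i, ((k.choose (b i) : ℕ) : ℝ) / 2 ^ k) := by
    rw [iterate_D_prod]
    simp only [iterate_D_P']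
    rw [Finset.prod_univ_sum]
    refine Finset.sum_congr rfl fun b _ => ?_
    rw [AddMonoidAlgebra.prod_single]
  rw [e, map_sum]
  simp only [pair_single]
  set S := (Fintype.piFinset (fun _ : Fin m => range (k + 1))).filter
    (fun b => tri Λ R (pt b) ≠ 0) with hS
  have h1 : ∑ b ∈ Fintype.piFinset (fun _ : Fin m => range (k + 1)),
      (∏ i, ((k.choose (b i) : ℕ) : ℝ) / 2 ^ k) * tri Λ R (pt b) ≤ ∑ b ∈ S, a ^ m := by
    rw [hS, Finset.sum_filter]
    refine Finset.sum_le_sum fun b _ => ?_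
    split_ifs with hb
    · have h2 : (∏ i, ((k.choose (b i) : ℕ) : ℝ) / 2 ^ k) ≤ a ^ m := by
        calc (∏ i, ((k.choose (b i) : ℕ) : ℝ) / 2 ^ k) ≤ ∏ _i : Fin m, a :=
              Finset.prod_le_prod (fun i _ => by positivity) fun i _ => hle _
          _ = a ^ m := by simp
      calc _ ≤ a ^ m * 1 := mul_le_mul h2 (tri_le_one Λ R _) (tri_nonneg Λ R _) (by positivity)
        _ = a ^ m := mul_one _
    · push Not at hb
      rw [hb, mul_zero]
  refine h1.trans ?_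
  rw [Finset.sum_const, nsmul_eq_mul]
  refine mul_le_mul_of_nonneg_right ?_ (by positivity)
  have hinj : Set.InjOn pt (S : Set (Fin m → ℕ)) := by
    intro b _ b' _ hbb
    have h3 : qv (pt b) = qv (pt b') := by rw [hbb]
    rw [qv_sum_zsmul, qv_sum_zsmul] at h3
    have h4 := Fintype.linearIndependent_iff.mp hw
      (fun i => (((b i : ℤ) - 2 ^ s : ℤ) : ℚ) - (((b' i : ℤ) - 2 ^ s : ℤ) : ℚ)) (by
        simp only [sub_smul, Finset.sum_sub_distrib]
        rw [h3]; simp)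
    funext i
    have := h4 i
    push_cast at this
    have : (b i : ℚ) = b' i := by linarith
    exact_mod_cast this
  have h5 := hF (Submodule.span ℚ (Set.range fun i => qv (w i)))
    (by rw [finrank_span_eq_card hw]; simpa using hm) (S.image pt) (by
      intro x hx
      obtain ⟨b, hb, rfl⟩ := Finset.mem_image.mp hx
      obtain ⟨h6, h7⟩ := tri_ne_zero Λ R hR (Finset.mem_filter.mp hb).2
      refine ⟨h6, h7, ?_⟩
      rw [qv_sum_zsmul]
      exact Submodule.sum_mem _ fun i _ => Submodule.smul_mem _ _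
        (Submodule.subset_span ⟨i, rfl⟩))
  rw [Finset.card_image_of_injOn hinj] at h5
  exact_mod_cast h5

/-- expansion of the product -/
lemma pair_prod {m k : ℕ} (G : (Fin d → ℤ) → ℝ) (w : Fin k → Fin m → Fin d → ℤ)
    (y : Fin d → ℤ) :
    pair G (AddMonoidAlgebra.single y 1 * ∏ g, ∏ i, P (w g i)) =
      (1 / 2) ^ (k * m) * ∑ ε : Fin k → Fin m → Fin 2,
        G (y + ∑ g, ∑ i, ((ε g i : Fin 2) : ℕ) • w g i) := by
  have hP : ∀ v : Fin d → ℤ, P v = ∑ e : Fin 2,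
      AddMonoidAlgebra.single ((e : ℕ) • v) (1 / 2 : ℝ) := by
    intro v
    rw [Fin.sum_univ_two]
    simp [P]
  have h1 : ∀ g, ∏ i, P (w g i) = ∑ e : Fin m → Fin 2,
      AddMonoidAlgebra.single (∑ i, ((e i : Fin 2) : ℕ) • w g i) ((1 / 2 : ℝ) ^ m) := by
    intro g
    simp only [hP]
    rw [Finset.prod_univ_sum, Fintype.piFinset_univ]
    refine Finset.sum_congr rfl fun e _ => ?_
    rw [AddMonoidAlgebra.prod_single]
    simp
  simp only [h1]
  rw [Finset.prod_univ_sum, Fintype.piFinset_univ, Finset.mul_sum, map_sum, Finset.mul_sum]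
  refine Finset.sum_congr rfl fun ε _ => ?_
  rw [AddMonoidAlgebra.prod_single, AddMonoidAlgebra.single_mul_single, pair_single, one_mul]
  congr 1
  simp [← pow_mul, mul_comm]

open scoped Classical in
lemma groups_aux (hK : TriPDB) (m s k : ℕ) (hk : k = 2 ^ (s + 1)) (Λ : AddSubgroup (Fin d → ℤ))
    (R : ℕ) (hR : 1 ≤ R) (hF : FewIn Λ R) (hm : 4 * m ≤ d) (w : Fin k → Fin m → Fin d → ℤ)
    (hw : ∀ g, LinearIndependent ℚ (fun i => qv (w g i))) (y : Fin d → ℤ) :
      ((Finset.univ.filter (fun ε : Fin k → Fin m → Fin 2 =>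
          (y + ∑ g, ∑ i, ((ε g i : Fin 2) : ℕ) • w g i) ∈ Λ ∧
          ∀ l, |(y + ∑ g, ∑ i, ((ε g i : Fin 2) : ℕ) • w g i) l| ≤ (R : ℤ))).card : ℝ)
        ≤ 2 ^ (k * m) * (4 ^ d * ((k.choose (2 ^ s) : ℝ) / 2 ^ k) ^ m) := by
  set a : ℝ := ((k.choose (2 ^ s) : ℕ) : ℝ) / 2 ^ k with ha
  have ha0 : 0 ≤ a := by positivity
  have hPD : PD (tri Λ R) := hK d R hR Λ
  -- the main inequality
  have h1 := doubling hPD (tri_even Λ R) s (Finset.univ : Finset (Fin k))
    (fun g => ∏ i, P (w g i)) y (by simp [hk])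
  have h2 : ∏ g : Fin k, pair (tri Λ R) (D^[s + 1] (∏ i, P (w g i)))
      ≤ ∏ _g : Fin k, (2 ^ d * a ^ m) := by
    refine Finset.prod_le_prod (fun g _ => ?_) fun g _ => ?_
    · rw [Function.iterate_succ_apply']
      exact pair_D_nonneg hPD _
    · have := pair_group Λ R hR hF hm s (w g) (hw g)
      rwa [← hk] at this
  have h3 : pair (tri Λ R) (AddMonoidAlgebra.single y 1 * ∏ g, ∏ i, P (w g i))
      ≤ 2 ^ d * a ^ m := by
    by_contra hlt
    push Not at hlt
    have h4 : (2 ^ d * a ^ m) ^ k <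
        pair (tri Λ R) (AddMonoidAlgebra.single y 1 * ∏ g, ∏ i, P (w g i)) ^ k :=
      pow_lt_pow_left₀ hlt (by positivity) (by rw [hk]; positivity)
    have h5 := h1.trans h2
    rw [Finset.prod_const, Finset.card_univ, Fintype.card_fin] at h5
    rw [← hk] at h5
    exact absurd h5 (not_le.mpr h4)
  rw [pair_prod] at h3
  set T : ℝ := ∑ ε : Fin k → Fin m → Fin 2,
    tri Λ R (y + ∑ g, ∑ i, ((ε g i : Fin 2) : ℕ) • w g i) with hT
  have h6 : T ≤ 2 ^ (k * m) * (2 ^ d * a ^ m) := by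
    have h7 : (2 : ℝ) ^ (k * m) * ((1 / 2) ^ (k * m) * T) ≤ 2 ^ (k * m) * (2 ^ d * a ^ m) :=
      mul_le_mul_of_nonneg_left h3 (by positivity)
    have h8 : (2 : ℝ) ^ (k * m) * ((1 / 2) ^ (k * m) * T) = T := by
      rw [← mul_assoc, ← mul_pow]; norm_num
    rwa [h8] at h7
  set C := Finset.univ.filter (fun ε : Fin k → Fin m → Fin 2 =>
      (y + ∑ g, ∑ i, ((ε g i : Fin 2) : ℕ) • w g i) ∈ Λ ∧
      ∀ l, |(y + ∑ g, ∑ i, ((ε g i : Fin 2) : ℕ) • w g i) l| ≤ (R : ℤ)) with hC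
  have h9 : (C.card : ℝ) * (1 / 2) ^ d ≤ T := by
    calc (C.card : ℝ) * (1 / 2) ^ d = ∑ ε ∈ C, (1 / 2 : ℝ) ^ d := by simp
      _ ≤ ∑ ε ∈ C, tri Λ R (y + ∑ g, ∑ i, ((ε g i : Fin 2) : ℕ) • w g i) := by
          refine Finset.sum_le_sum fun ε hε => ?_
          obtain ⟨h, h'⟩ := (Finset.mem_filter.mp hε).2
          exact tri_lower Λ R hR h h'
      _ ≤ T := Finset.sum_le_sum_of_subset_of_nonneg (Finset.subset_univ _)
          fun ε _ _ => tri_nonneg Λ R _
  have h10 : (C.card : ℝ) = 2 ^ d * ((C.card : ℝ) * (1 / 2) ^ d) := by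
    have : (2 : ℝ) ^ d * (1 / 2) ^ d = 1 := by rw [← mul_pow]; norm_num
    calc (C.card : ℝ) = (C.card : ℝ) * ((2 : ℝ) ^ d * (1 / 2) ^ d) := by rw [this, mul_one]
      _ = _ := by ring
  have h11 : (C.card : ℝ) ≤ 2 ^ (k * m) * (4 ^ d * a ^ m) := by
    rw [h10]
    calc (2 : ℝ) ^ d * ((C.card : ℝ) * (1 / 2) ^ d) ≤ 2 ^ d * (2 ^ (k * m) * (2 ^ d * a ^ m)) :=
          mul_le_mul_of_nonneg_left (h9.trans h6) (by positivity)
      _ = 2 ^ (k * m) * (4 ^ d * a ^ m) := by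
          have : (4 : ℝ) ^ d = 2 ^ d * 2 ^ d := by rw [← mul_pow]; norm_num
          rw [this]; ring
  exact h11

end Pool.Agent.TH513.FR.Groups

namespace Pool.Agent.TH513.FR

theorem groups : TriPDB → GroupsB := by
  intro hK d m s Λ R hR hF hm w hw y
  exact Groups.groups_aux hK m s _ rfl Λ R hR hF hm w hw y

end Pool.Agent.TH513.FR
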