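import Pool.Agent.TH513.FR.Defs

/-!
# L5: the lattice (assembly)
(job 86f7a7 L5 of helper513, written by helper367)
-/

namespace Pool.Agent.TH513.FR

namespace Lattice

open Finset Matrix

/-! ### `qv` -/

/-- `qv` as an additive map -/
def qh (d : ℕ) : (Fin d → ℤ) →+ (Fin d → ℚ) where
  toFun := qv
  map_zero' := by
    funext l
    simp [qv]
  map_add' x y := by
    funext l
    simp [qv]

theorem qv_add {d : ℕ} (x y : Fin d → ℤ) : qv (x + y) = qv x + qv y := (qh d).map_add x y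

theorem qv_sub {d : ℕ} (x y : Fin d → ℤ) : qv (x - y) = qv x - qv y := (qh d).map_sub x y

theorem qv_zero {d : ℕ} : qv (0 : Fin d → ℤ) = 0 := (qh d).map_zero

theorem qv_smul {d : ℕ} (a : ℤ) (x : Fin d → ℤ) : qv (a • x) = (a : ℚ) • qv x := by
  funext l
  simp [qv]

theorem qv_sum {d : ℕ} {ι : Type*} (s : Finset ι) (f : ι → Fin d → ℤ) :
    qv (∑ i ∈ s, f i) = ∑ i ∈ s, qv (f i) := map_sum (qh d) f s

theorem qv_inj {d : ℕ} {x y : Fin d → ℤ} (h : qv x = qv y) : x = y := by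
  funext l
  have := congrFun h l
  simp only [qv] at this
  exact_mod_cast this

/-- the rational span -/
abbrev sp {d j : ℕ} (x : Fin j → Fin d → ℤ) : Submodule ℚ (Fin d → ℚ) :=
  Submodule.span ℚ (Set.range fun i => qv (x i))

/-! ### choice of a basis -/

theorem exists_tuple {d : ℕ} (U : Finset (Fin d → ℤ)) :
    ∃ (j : ℕ) (x : Fin j → Fin d → ℤ), (∀ i, x i ∈ U) ∧
      LinearIndependent ℚ (fun i => qv (x i)) ∧ (∀ y ∈ U, qv y ∈ sp x) := by
  classical
  obtain ⟨b, hb1, hb2, hb3⟩ := exists_linearIndependent ℚ (qv '' (U : Set (Fin d → ℤ)))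
  have hfin : b.Finite := (U.finite_toSet.image qv).subset hb1
  have : Fintype b := hfin.fintype
  let e := (Fintype.equivFin b).symm
  have hch : ∀ i : Fin (Fintype.card b), ∃ y ∈ U, qv y = (e i : Fin d → ℚ) := by
    intro i
    obtain ⟨y, hy, he⟩ := hb1 (e i).2
    exact ⟨y, hy, he⟩
  choose x hx1 hx2 using hch
  refine ⟨_, x, hx1, ?_, ?_⟩
  · have h : (fun i => qv (x i)) = (Subtype.val : b → _) ∘ e := funext hx2
    rw [h]
    exact hb3.comp e e.injective
  · intro y hy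
    have h1 : qv y ∈ Submodule.span ℚ (qv '' (U : Set (Fin d → ℤ))) :=
      Submodule.subset_span ⟨y, hy, rfl⟩
    rw [← hb2] at h1
    have h2 : Set.range (fun i => qv (x i)) = b := by
      ext v
      constructor
      · rintro ⟨i, rfl⟩
        simp only
        rw [hx2]
        exact (e i).2
      · intro hv
        refine ⟨e.symm ⟨v, hv⟩, ?_⟩
        simp only
        rw [hx2]
        simp
    unfold sp
    rw [h2]
    exact h1

theorem exists_proj {d j : ℕ} (x : Fin j → Fin d → ℚ) (h : LinearIndependent ℚ x) :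
    ∃ π : (Fin d → ℚ) →ₗ[ℚ] (Fin j → ℚ), ∀ i, π (x i) = Pi.single i 1 := by
  classical
  let f : (Fin j → ℚ) →ₗ[ℚ] (Fin d → ℚ) := Fintype.linearCombination ℚ x
  have hf : LinearMap.ker f = ⊥ := by
    rw [LinearMap.ker_eq_bot]
    exact linearIndependent_iff_injective_fintypeLinearCombination.1 h
  obtain ⟨g, hg⟩ := f.exists_leftInverse_of_injective hf
  refine ⟨g, fun i => ?_⟩
  have h1 : f (Pi.single i 1) = x i := by
    simp [f, Fintype.linearCombination_apply_single]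
  rw [← h1]
  exact LinearMap.congr_fun hg _

theorem repr_of {d j : ℕ} {x : Fin j → Fin d → ℤ} {π : (Fin d → ℚ) →ₗ[ℚ] (Fin j → ℚ)}
    (h : ∀ i, π (qv (x i)) = Pi.single i 1) {v : Fin d → ℚ} (hv : v ∈ sp x) :
    v = ∑ i, π v i • qv (x i) := by
  classical
  obtain ⟨c, rfl⟩ := (Submodule.mem_span_range_iff_exists_fun ℚ).1 hv
  have : π (∑ i, c i • qv (x i)) = c := by
    rw [map_sum]
    funext k
    simp [h, Finset.sum_apply, Pi.single_apply]
  rw [this]

theorem exists_basis {d : ℕ} (U : Finset (Fin d → ℤ)) :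
    ∃ (j : ℕ) (x : Fin j → Fin d → ℤ) (π : (Fin d → ℚ) →ₗ[ℚ] (Fin j → ℚ)),
      (∀ i, x i ∈ U) ∧ LinearIndependent ℚ (fun i => qv (x i)) ∧
      (∀ i, π (qv (x i)) = Pi.single i 1) ∧ (∀ y ∈ U, qv y ∈ sp x) ∧
      (∀ y : Fin j → Fin d → ℤ, (∀ i, y i ∈ U) →
        |(Matrix.of fun i => π (qv (y i))).det| ≤ 1) := by
  classical
  obtain ⟨j, x₀, h1, h2, h3⟩ := exists_tuple U
  obtain ⟨π₀, hπ₀⟩ := exists_proj _ h2
  let δ : (Fin j → U) → ℚ := fun y => |(Matrix.of fun i => π₀ (qv (y i : Fin d → ℤ))).det|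
  have : Nonempty (Fin j → U) := ⟨fun i => ⟨x₀ i, h1 i⟩⟩
  obtain ⟨x, hx⟩ := Finite.exists_max δ
  set A : Matrix (Fin j) (Fin j) ℚ := Matrix.of fun i => π₀ (qv (x i : Fin d → ℤ)) with hA
  have hδ0 : 1 ≤ |A.det| := by
    have h4 := hx (fun i => ⟨x₀ i, h1 i⟩)
    have e : (Matrix.of fun i => π₀ (qv (x₀ i))) = (1 : Matrix (Fin j) (Fin j) ℚ) := by
      ext i k
      simp [hπ₀, Matrix.one_apply, Pi.single_apply, eq_comm]
    simp only [δ] at h4
    rw [e, Matrix.det_one, abs_one] at h4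
    exact h4
  have hdet : A.det ≠ 0 := by
    intro h
    rw [h] at hδ0
    norm_num at hδ0
  have hunit : IsUnit A.det := isUnit_iff_ne_zero.2 hdet
  let π : (Fin d → ℚ) →ₗ[ℚ] (Fin j → ℚ) := (Matrix.vecMulLinear A⁻¹).comp π₀
  have hπ : ∀ v, π v = π₀ v ᵥ* A⁻¹ := fun v => rfl
  have hπx : ∀ i, π (qv (x i : Fin d → ℤ)) = Pi.single i 1 := by
    intro i
    rw [hπ]
    have e1 : π₀ (qv (x i : Fin d → ℤ)) = A i := rfl
    rw [e1, ← Matrix.mul_apply_eq_vecMul, Matrix.mul_nonsing_inv A hunit]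
    funext k
    simp [Matrix.one_apply, Pi.single_apply, eq_comm]
  have hLI : LinearIndependent ℚ (fun i => qv (x i : Fin d → ℤ)) := by
    rw [Fintype.linearIndependent_iff]
    intro g hg i
    have h5 := congrArg π hg
    rw [map_sum, map_zero] at h5
    have h6 := congrFun h5 i
    simpa [hπx, Finset.sum_apply, Pi.single_apply] using h6
  refine ⟨j, fun i => x i, π, fun i => (x i).2, hLI, hπx, ?_, ?_⟩
  · have hle : sp (fun i => (x i : Fin d → ℤ)) ≤ sp x₀ := by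
      rw [Submodule.span_le]
      rintro _ ⟨i, rfl⟩
      exact h3 _ (x i).2
    have heq : sp (fun i => (x i : Fin d → ℤ)) = sp x₀ := by
      apply Submodule.eq_of_le_of_finrank_eq hle
      rw [finrank_span_eq_card hLI, finrank_span_eq_card h2]
    intro y hy
    rw [heq]
    exact h3 y hy
  · intro y hy
    have e2 : (Matrix.of fun i => π (qv (y i))) = (Matrix.of fun i => π₀ (qv (y i))) * A⁻¹ := by
      ext i k
      rw [Matrix.mul_apply_eq_vecMul]
      rfl
    have h7 := hx (fun i => ⟨y i, hy i⟩)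
    simp only [δ] at h7
    rw [e2, Matrix.det_mul, Matrix.det_nonsing_inv, Ring.inverse_eq_inv', abs_mul, abs_inv,
      ← div_eq_mul_inv, div_le_one (by linarith)]
    exact h7

/-! ### the lattice -/

/-- the linear form -/
def phi {d q : ℕ} (t : Fin d → ZMod q) : (Fin d → ℤ) →+ ZMod q where
  toFun x := ∑ l, t l * ((x l : ℤ) : ZMod q)
  map_zero' := by simp
  map_add' x y := by simp [mul_add, Finset.sum_add_distrib]

/-- the lattice -/
def lam {d q : ℕ} (t : Fin d → ZMod q) : AddSubgroup (Fin d → ℤ) := (phi t).ker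

theorem mem_lam {d q : ℕ} {t : Fin d → ZMod q} {x : Fin d → ℤ} :
    x ∈ lam t ↔ ∑ l, t l * ((x l : ℤ) : ZMod q) = 0 := Iff.rfl

theorem z_mem {d j : ℕ} (G : AddSubgroup (Fin d → ℤ)) {x z : Fin j → Fin d → ℤ}
    {T : Fin j → Fin j → ℤ} (T3 : ∀ i k, i < k → T i k = 0) (xz : ∀ i, x i = ∑ k, T i k • z k)
    (hx : ∀ i, x i ∈ G) (hG : ∀ i, ∀ y : Fin d → ℤ, T i i • y ∈ G → y ∈ G) : ∀ i, z i ∈ G := by
  have key : ∀ m : ℕ, ∀ i : Fin j, (i : ℕ) = m → z i ∈ G := by
    intro m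
    induction m using Nat.strong_induction_on with
    | _ m ih =>
      intro i hi
      apply hG i
      have e : T i i • z i = x i - ∑ k ∈ univ.erase i, T i k • z k := by
        rw [xz i, ← Finset.add_sum_erase univ (fun k => T i k • z k) (mem_univ i)]
        abel
      rw [e]
      refine G.sub_mem (hx i) (G.sum_mem fun k hk => ?_)
      rcases lt_trichotomy k i with h | h | h
      · exact G.zsmul_mem (ih k (by rw [← hi]; exact h) k rfl) _
      · exact absurd h (Finset.ne_of_mem_erase hk)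
      · rw [T3 i k h, zero_smul]
        exact G.zero_mem
  exact fun i => key i i rfl

theorem T_unit {d j q : ℕ} {x z : Fin j → Fin d → ℤ} {T : Fin j → Fin j → ℤ}
    (T3 : ∀ i k, i < k → T i k = 0) (xz : ∀ i, x i = ∑ k, T i k • z k)
    (hdet : (Matrix.of x * (Matrix.of x)ᵀ).det ≠ 0)
    (hlt : |(Matrix.of x * (Matrix.of x)ᵀ).det| < q) (i : Fin j) :
    ((T i i : ℤ) : ZMod q) ≠ 0 := by
  intro hi
  have hdvd : (q : ℤ) ∣ T i i := (ZMod.intCast_zmod_eq_zero_iff_dvd _ _).1 hi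
  have e1 : Matrix.of x = Matrix.of T * Matrix.of z := by
    ext i l
    simp [Matrix.mul_apply, xz i, Finset.sum_apply]
  have e2 : (Matrix.of T).det = ∏ i, T i i := by
    rw [Matrix.det_of_isLowerTriangular]
    · rfl
    · intro a b hab
      exact T3 _ _ hab
  have h : (q : ℤ) ∣ (Matrix.of x * (Matrix.of x)ᵀ).det := by
    rw [e1, Matrix.transpose_mul, Matrix.mul_assoc, Matrix.det_mul, e2]
    exact Dvd.dvd.mul_right (hdvd.trans (Finset.dvd_prod_of_mem (fun i => T i i) (mem_univ i))) _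
  exact hdet (Int.eq_zero_of_abs_lt_dvd h hlt)

theorem z_facts {d j : ℕ} {x z : Fin j → Fin d → ℤ} {T : Fin j → Fin j → ℤ}
    (hLI : LinearIndependent ℚ (fun i => qv (x i))) (xz : ∀ i, x i = ∑ k, T i k • z k) :
    LinearIndependent ℚ (fun i => qv (z i)) ∧ ∀ k, qv (z k) ∈ sp x := by
  have hle : sp x ≤ sp z := by
    rw [Submodule.span_le]
    rintro _ ⟨i, rfl⟩
    simp only
    rw [xz i, qv_sum]
    refine Submodule.sum_mem _ fun k _ => ?_
    rw [qv_smul]
    exact Submodule.smul_mem _ _ (Submodule.subset_span ⟨k, rfl⟩)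
  have hx : Module.finrank ℚ (sp x) = j := by
    rw [finrank_span_eq_card hLI, Fintype.card_fin]
  have hz : Module.finrank ℚ (sp z) ≤ j := by
    have := finrank_range_le_card (R := ℚ) (fun i => qv (z i))
    rw [Fintype.card_fin] at this
    exact this
  have heq : sp x = sp z := Submodule.eq_of_le_of_finrank_le hle (by omega)
  constructor
  · rw [linearIndependent_iff_card_le_finrank_span, Fintype.card_fin]
    have : Set.finrank ℚ (Set.range fun i => qv (z i)) = Module.finrank ℚ (sp z) := rfl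
    rw [this, ← heq, hx]
  · intro k
    rw [heq]
    exact Submodule.subset_span ⟨k, rfl⟩

/-- the data -/
structure Ctx (M d Q q j : ℕ) (t : Fin d → ZMod q) (x z : Fin j → Fin d → ℤ)
    (T : Fin j → Fin j → ℤ) (π : (Fin d → ℚ) →ₗ[ℚ] (Fin j → ℚ)) : Prop where
  good : GoodT M d Q q t
  hM : 1 ≤ M
  LI : LinearIndependent ℚ (fun i => qv (x i))
  hx : ∀ i l, |x i l| ≤ 2 * M * Q
  π1 : ∀ i, π (qv (x i)) = Pi.single i 1
  T1 : ∀ i, 1 ≤ T i i
  T3 : ∀ i k, i < k → T i k = 0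
  xz : ∀ i, x i = ∑ k, T i k • z k
  sat : ∀ y : Fin d → ℤ, qv y ∈ sp x → ∃ η : Fin j → ℤ, y = ∑ k, η k • z k
  zl : ∀ k, z k ∈ lam t
  zs : ∀ k, qv (z k) ∈ sp x
  zLI : LinearIndependent ℚ (fun i => qv (z i))

theorem key_eq {M d Q q : ℕ} {t : Fin d → ZMod q} (hG : GoodT M d Q q t) {N : ℕ} (hN : 1 ≤ N)
    {y y' w : Fin d → ℤ} (hw : w ∈ lam t) (h : y - y' = (N : ℤ) • w)
    (hb : ∀ l, 4 * |y l - y' l| ≤ N * Q) : y = y' := by
  have hw0 : w = 0 := by
    refine hG.E1 w hw fun l => ?_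
    have h1 := congrFun h l
    simp only [Pi.sub_apply, Pi.smul_apply, smul_eq_mul] at h1
    have h2 := hb l
    rw [h1, abs_mul, Nat.abs_cast] at h2
    have h3 : (0 : ℤ) < N := by exact_mod_cast hN
    have h4 : (N : ℤ) * (4 * |w l|) ≤ N * Q := by linarith
    exact le_of_mul_le_mul_left h4 h3
  rw [hw0, smul_zero, sub_eq_zero] at h
  exact h

section ctx

variable {M d Q q j : ℕ} {t : Fin d → ZMod q} {x z : Fin j → Fin d → ℤ}
    {T : Fin j → Fin j → ℤ} {π : (Fin d → ℚ) →ₗ[ℚ] (Fin j → ℚ)}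

theorem Ctx.card_le (C : Ctx M d Q q j t x z T π) {N : ℕ} (hN : 1 ≤ N)
    (U : Finset (Fin d → ℤ)) (hU : ∀ y ∈ U, qv y ∈ sp x)
    (hb : ∀ y ∈ U, ∀ y' ∈ U, ∀ l, 4 * |y l - y' l| ≤ N * Q) : U.card ≤ N ^ j := by
  classical
  have hsat := C.sat
  choose! et het using hsat
  have : NeZero N := ⟨by omega⟩
  let f : (Fin d → ℤ) → (Fin j → ZMod N) := fun y k => ((et y k : ℤ) : ZMod N)
  have hinj : Set.InjOn f U := by
    intro y hy y' hy' hff
    have hd : ∀ k, ∃ w : ℤ, et y k - et y' k = N * w := by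
      intro k
      have h1 : ((et y' k : ℤ) : ZMod N) = ((et y k : ℤ) : ZMod N) := (congrFun hff k).symm
      exact (ZMod.intCast_eq_intCast_iff_dvd_sub _ _ _).1 h1
    choose w hw using hd
    refine key_eq C.good hN (w := ∑ k, w k • z k)
      ((lam t).sum_mem fun k _ => (lam t).zsmul_mem (C.zl k) _) ?_ (hb y hy y' hy')
    rw [het y (hU y hy), het y' (hU y' hy'), ← Finset.sum_sub_distrib, Finset.smul_sum]
    refine Finset.sum_congr rfl fun k _ => ?_
    rw [← sub_smul, hw k, mul_smul]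
  calc U.card ≤ (Finset.univ : Finset (Fin j → ZMod N)).card :=
        Finset.card_le_card_of_injOn f (fun _ _ => Finset.mem_coe.2 (Finset.mem_univ _)) hinj
    _ = N ^ j := by
        rw [Finset.card_univ, Fintype.card_fun, ZMod.card, Fintype.card_fin]

/-- the representative of the residue `ρ` with coordinates in `[0,1)` -/
noncomputable def yr (x z : Fin j → Fin d → ℤ) (π : (Fin d → ℚ) →ₗ[ℚ] (Fin j → ℚ))
    (ρ : Fin j → ℤ) : Fin d → ℤ :=
  ∑ k, ρ k • z k - ∑ i, ⌊π (qv (∑ k, ρ k • z k)) i⌋ • x i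

theorem Ctx.sum_mem (C : Ctx M d Q q j t x z T π) (η : Fin j → ℤ) :
    qv (∑ k, η k • z k) ∈ sp x := by
  rw [qv_sum]
  refine Submodule.sum_mem _ fun k _ => ?_
  rw [qv_smul]
  exact Submodule.smul_mem _ _ (C.zs k)

theorem Ctx.sumx_mem (_C : Ctx M d Q q j t x z T π) (η : Fin j → ℤ) :
    qv (∑ k, η k • x k) ∈ sp x := by
  rw [qv_sum]
  refine Submodule.sum_mem _ fun k _ => ?_
  rw [qv_smul]
  exact Submodule.smul_mem _ _ (Submodule.subset_span ⟨k, rfl⟩)

theorem Ctx.eta_inj (C : Ctx M d Q q j t x z T π) {η η' : Fin j → ℤ}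
    (h : ∑ k, η k • z k = ∑ k, η' k • z k) : η = η' := by
  have h1 := congrArg qv h
  rw [qv_sum, qv_sum, ← sub_eq_zero, ← Finset.sum_sub_distrib] at h1
  have h2 : ∑ k, ((η k : ℚ) - (η' k : ℚ)) • qv (z k) = 0 := by
    rw [← h1]
    refine Finset.sum_congr rfl fun k _ => ?_
    rw [qv_smul, qv_smul, sub_smul]
  have h3 := Fintype.linearIndependent_iff.1 C.zLI _ h2
  funext k
  have := h3 k
  rw [sub_eq_zero] at this
  exact_mod_cast this

theorem Ctx.x_sum (C : Ctx M d Q q j t x z T π) (a : Fin j → ℤ) :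
    ∑ i, a i • x i = ∑ k, (∑ i, a i * T i k) • z k := by
  have h : ∀ i, a i • x i = ∑ k, (a i * T i k) • z k := by
    intro i
    rw [C.xz i, Finset.smul_sum]
    refine Finset.sum_congr rfl fun k _ => ?_
    rw [mul_smul]
  rw [Finset.sum_congr rfl fun i _ => h i, Finset.sum_comm]
  refine Finset.sum_congr rfl fun k _ => ?_
  rw [Finset.sum_smul]

theorem Ctx.pi_sumx (C : Ctx M d Q q j t x z T π) (a : Fin j → ℤ) (i : Fin j) :
    π (qv (∑ k, a k • x k)) i = a i := by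
  rw [qv_sum, map_sum, Finset.sum_apply]
  have : ∀ k, π (qv (a k • x k)) i = if k = i then (a k : ℚ) else 0 := by
    intro k
    rw [qv_smul, map_smul, C.π1, Pi.smul_apply, Pi.single_apply]
    split_ifs with h1 h2 h2
    · simp
    · exact absurd h1.symm h2
    · exact absurd h2.symm h1
    · simp
  rw [Finset.sum_congr rfl fun k _ => this k]
  simp

theorem Ctx.yr_mem (C : Ctx M d Q q j t x z T π) (ρ : Fin j → ℤ) : qv (yr x z π ρ) ∈ sp x := by
  unfold yr
  rw [qv_sub]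
  exact Submodule.sub_mem _ (C.sum_mem _) (C.sumx_mem _)

theorem Ctx.pi_yr (C : Ctx M d Q q j t x z T π) (ρ : Fin j → ℤ) (i : Fin j) :
    0 ≤ π (qv (yr x z π ρ)) i ∧ π (qv (yr x z π ρ)) i < 1 := by
  have h : π (qv (yr x z π ρ)) i = Int.fract (π (qv (∑ k, ρ k • z k)) i) := by
    unfold yr
    rw [qv_sub, map_sub, Pi.sub_apply, C.pi_sumx, Int.fract]
  rw [h]
  exact ⟨Int.fract_nonneg _, Int.fract_lt_one _⟩

/-- the box of residues -/
noncomputable def box (T : Fin j → Fin j → ℤ) : Finset (Fin j → ℤ) :=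
  Fintype.piFinset fun i => Finset.Ico 0 (T i i)

theorem mem_box {ρ : Fin j → ℤ} : ρ ∈ box T ↔ ∀ i, 0 ≤ ρ i ∧ ρ i < T i i := by
  unfold box
  rw [Fintype.mem_piFinset]
  exact forall_congr' fun i => Finset.mem_Ico

theorem card_box (T1 : ∀ i, 1 ≤ T i i) : ((box T).card : ℤ) = ∏ i, T i i := by
  unfold box
  rw [Fintype.card_piFinset]
  push_cast
  refine Finset.prod_congr rfl fun i _ => ?_
  rw [Int.card_Ico, sub_zero, Int.toNat_of_nonneg]
  linarith [T1 i]

theorem Ctx.D_le (C : Ctx M d Q q j t x z T π) (hTR : TriReduceB) (hj : 1 ≤ j) :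
    (∏ i, T i i) ≤ (8 * j * M : ℤ) ^ j := by
  classical
  set P : Finset (Fin j → ℤ) := box T with hP
  have hcard : (P.card : ℤ) = ∏ i, T i i := card_box C.T1
  have hM := C.hM
  have hN : 1 ≤ 8 * j * M := by
    have : 1 * 1 ≤ (8 * j) * M := Nat.mul_le_mul (by omega) hM
    simpa using this
  have hinj : Set.InjOn (yr x z π) (P : Set (Fin j → ℤ)) := by
    intro ρ hρ ρ' hρ' h
    rw [Finset.mem_coe, hP, mem_box] at hρ hρ'
    unfold yr at h
    rw [C.x_sum, C.x_sum, ← Finset.sum_sub_distrib, ← Finset.sum_sub_distrib] at h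
    simp only [← sub_smul] at h
    have h1 := C.eta_inj h
    refine ((hTR j T C.T1 C.T3).2 (fun i => ⌊π (qv (∑ k, ρ k • z k)) i⌋ -
      ⌊π (qv (∑ k, ρ' k • z k)) i⌋) ρ ρ' hρ hρ' fun k => ?_).2
    have h2 := congrFun h1 k
    simp only [sub_mul, Finset.sum_sub_distrib]
    linarith
  have key := C.card_le hN (P.image (yr x z π)) (by
    intro y hy
    obtain ⟨ρ, -, rfl⟩ := Finset.mem_image.1 hy
    exact C.yr_mem ρ) (by
    intro y hy y' hy' l
    obtain ⟨ρ, -, rfl⟩ := Finset.mem_image.1 hy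
    obtain ⟨ρ', -, rfl⟩ := Finset.mem_image.1 hy'
    have h1 : qv (yr x z π ρ - yr x z π ρ') =
        ∑ i, (π (qv (yr x z π ρ)) i - π (qv (yr x z π ρ')) i) • qv (x i) := by
      rw [qv_sub]
      conv_lhs => rw [repr_of C.π1 (C.yr_mem ρ), repr_of C.π1 (C.yr_mem ρ')]
      rw [← Finset.sum_sub_distrib]
      refine Finset.sum_congr rfl fun k _ => ?_
      rw [sub_smul]
    have h2 := congrFun h1 l
    have h3 : |((yr x z π ρ l - yr x z π ρ' l : ℤ) : ℚ)| ≤ ∑ _i : Fin j, (2 * M * Q : ℚ) := by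
      have h4 : ((yr x z π ρ l - yr x z π ρ' l : ℤ) : ℚ) =
          ∑ i, (π (qv (yr x z π ρ)) i - π (qv (yr x z π ρ')) i) * (x i l : ℚ) := by
        rw [Finset.sum_apply] at h2
        exact h2
      rw [h4]
      refine (Finset.abs_sum_le_sum_abs _ _).trans (Finset.sum_le_sum fun i _ => ?_)
      rw [abs_mul]
      have h5 : |π (qv (yr x z π ρ)) i - π (qv (yr x z π ρ')) i| ≤ 1 := by
        have a1 := C.pi_yr ρ i
        have a2 := C.pi_yr ρ' i
        rw [abs_le]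
        constructor <;> linarith
      have h6 : |(x i l : ℚ)| ≤ 2 * M * Q := by
        have := C.hx i l
        exact_mod_cast this
      calc |π (qv (yr x z π ρ)) i - π (qv (yr x z π ρ')) i| * |(x i l : ℚ)| ≤
            1 * (2 * M * Q) := mul_le_mul h5 h6 (abs_nonneg _) zero_le_one
        _ = 2 * M * Q := one_mul _
    rw [Finset.sum_const, Finset.card_univ, Fintype.card_fin, nsmul_eq_mul] at h3
    have h7 : |yr x z π ρ l - yr x z π ρ' l| ≤ j * (2 * M * Q) := by exact_mod_cast h3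
    push_cast
    linarith)
  rw [Finset.card_image_of_injOn hinj] at key
  have h8 : (P.card : ℤ) ≤ ((8 * j * M) ^ j : ℕ) := by exact_mod_cast key
  rw [hcard] at h8
  push_cast at h8
  exact h8

/-- few vectors: the small dimensional case -/
theorem Ctx.card_small (C : Ctx M d Q q j t x z T π) (U : Finset (Fin d → ℤ))
    (hU : ∀ y ∈ U, qv y ∈ sp x) (hb : ∀ y ∈ U, ∀ l, |y l| ≤ 2 * M * Q) :
    U.card ≤ (16 * M) ^ j := by
  have hM := C.hM
  refine C.card_le (by omega) U hU fun y hy y' hy' l => ?_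
  have h1 := hb y hy l
  have h2 := hb y' hy' l
  have h3 := abs_sub (y l) (y' l)
  push_cast
  linarith

theorem Ctx.mem_lam' (C : Ctx M d Q q j t x z T π) {y : Fin d → ℤ} (hy : qv y ∈ sp x) :
    y ∈ lam t := by
  obtain ⟨η, rfl⟩ := C.sat y hy
  exact (lam t).sum_mem fun k _ => (lam t).zsmul_mem (C.zl k) _

theorem Ctx.residue (C : Ctx M d Q q j t x z T π) (hTR : TriReduceB) {y : Fin d → ℤ}
    (hy : qv y ∈ sp x) :
    ∃ ρ ∈ box T, ∃ a : Fin j → ℤ, y = ∑ k, ρ k • z k + ∑ i, a i • x i := by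
  obtain ⟨η, rfl⟩ := C.sat y hy
  obtain ⟨a, ρ, h1, h2⟩ := (hTR j T C.T1 C.T3).1 η
  refine ⟨ρ, mem_box.2 h1, a, ?_⟩
  rw [C.x_sum, ← Finset.sum_add_distrib]
  refine Finset.sum_congr rfl fun k _ => ?_
  rw [h2 k, add_smul]

theorem Ctx.digits (C : Ctx M d Q q j t x z T π) (U : Finset (Fin d → ℤ))
    (hU : ∀ y ∈ U, qv y ∈ sp x) (hb : ∀ y ∈ U, ∀ l, |y l| ≤ 2 * M * Q) :
    ∀ (S : ℕ) (f g : Fin S → Fin d → ℤ), (∀ s, f s ∈ U) → (∀ s, g s ∈ U) →
      ∑ s : Fin S, ((16 * M : ℕ) : ℤ) ^ (s : ℕ) • f s =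
        ∑ s : Fin S, ((16 * M : ℕ) : ℤ) ^ (s : ℕ) • g s → f = g := by
  intro S
  induction S with
  | zero =>
    intro f g _ _ _
    funext s
    exact s.elim0
  | succ S ih =>
    intro f g hf hg h
    have hM := C.hM
    rw [Fin.sum_univ_succ, Fin.sum_univ_succ] at h
    simp only [Fin.val_zero, pow_zero, one_smul, Fin.val_succ] at h
    have e : ∀ f : Fin (S + 1) → Fin d → ℤ,
        ∑ i : Fin S, ((16 * M : ℕ) : ℤ) ^ ((i : ℕ) + 1) • f i.succ =
        ((16 * M : ℕ) : ℤ) • ∑ i : Fin S, ((16 * M : ℕ) : ℤ) ^ (i : ℕ) • f i.succ := by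
      intro f
      rw [Finset.smul_sum]
      refine Finset.sum_congr rfl fun i _ => ?_
      rw [pow_succ', mul_smul]
    rw [e, e] at h
    have hml : ∀ f : Fin (S + 1) → Fin d → ℤ, (∀ s, f s ∈ U) →
        ∑ i : Fin S, ((16 * M : ℕ) : ℤ) ^ (i : ℕ) • f i.succ ∈ lam t := fun f hf =>
      (lam t).sum_mem fun i _ => (lam t).zsmul_mem (C.mem_lam' (hU _ (hf _))) _
    have h0 : f 0 = g 0 := by
      refine key_eq C.good (N := 16 * M) (by omega) ((lam t).sub_mem (hml g hg) (hml f hf)) ?_ ?_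
      · rw [smul_sub, sub_eq_sub_iff_add_eq_add, h, add_comm]
      · intro l
        have h1 := hb _ (hf 0) l
        have h2 := hb _ (hg 0) l
        have h3 := abs_sub (f 0 l) (g 0 l)
        push_cast
        linarith
    rw [h0] at h
    have h1 := add_left_cancel h
    have h2 : ((16 * M : ℕ) : ℤ) ≠ 0 := by
      have : 0 < 16 * M := by omega
      exact_mod_cast this.ne'
    have h3 := smul_right_injective (Fin d → ℤ) h2 h1
    have h4 := ih (fun s => f s.succ) (fun s => g s.succ) (fun s => hf _) (fun s => hg _) h3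
    funext s
    refine Fin.cases h0 (fun s => ?_) s
    exact congrFun h4 s

/-- real coordinates -/
noncomputable def cr (π : (Fin d → ℚ) →ₗ[ℚ] (Fin j → ℚ)) : (Fin d → ℤ) →+ (Fin j → ℝ) where
  toFun y := fun i => ((π (qv y) i : ℚ) : ℝ)
  map_zero' := by
    funext i
    simp [qv_zero]
  map_add' x y := by
    funext i
    simp [qv_add]

theorem cr_apply (y : Fin d → ℤ) (i : Fin j) : cr π y i = ((π (qv y) i : ℚ) : ℝ) := rfl

theorem Ctx.cr_inj (C : Ctx M d Q q j t x z T π) {y y' : Fin d → ℤ} (h : qv y ∈ sp x)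
    (h' : qv y' ∈ sp x) (hc : cr π y = cr π y') : y = y' := by
  apply qv_inj
  rw [repr_of C.π1 h, repr_of C.π1 h']
  refine Finset.sum_congr rfl fun k _ => ?_
  have h1 := congrFun hc k
  rw [cr_apply, cr_apply] at h1
  have h2 : π (qv y) k = π (qv y') k := by exact_mod_cast h1
  rw [h2]

theorem cr_sum {S : ℕ} (n : ℕ) (u : Fin S → Fin d → ℤ) :
    cr π (∑ s : Fin S, ((n : ℕ) : ℤ) ^ (s : ℕ) • u s) =
      ∑ s : Fin S, ((n : ℝ)) ^ (s : ℕ) • cr π (u s) := by
  rw [map_sum]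
  refine Finset.sum_congr rfl fun s _ => ?_
  rw [map_zsmul]
  funext i
  simp

theorem Ctx.card_big (C : Ctx M d Q q j t x z T π) (hCl : ClusterB) (hTR : TriReduceB)
    (U : Finset (Fin d → ℤ)) (hxU : ∀ i, x i ∈ U)
    (hU : ∀ y ∈ U, qv y ∈ sp x) (hb : ∀ y ∈ U, ∀ l, |y l| ≤ 2 * M * Q)
    (hdet : ∀ y : Fin j → Fin d → ℤ, (∀ i, y i ∈ U) →
        |(Matrix.of fun i => π (qv (y i))).det| ≤ 1) {S : ℕ} (hS : (16 * M) ^ (2 * S) ≤ j) :
    U.card ^ S ≤ (box T).card * 26 ^ j := by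
  classical
  have hM := C.hM
  set Y := U.image (cr π) with hY
  have hYU : Y.card = U.card :=
    Finset.card_image_of_injOn fun y hy y' hy' h => C.cr_inj (hU y hy) (hU y' hy') h
  rw [← hYU]
  refine hCl j S (16 * M) (box T).card Y ?_ ?_ (by omega) hS ?_ ?_
  · intro i
    rw [hY, Finset.mem_image]
    refine ⟨x i, hxU i, ?_⟩
    funext k
    rw [cr_apply, C.π1, Pi.single_apply, Pi.single_apply]
    split_ifs <;> simp
  · intro y hy
    choose u hu1 hu2 using fun i => Finset.mem_image.1 (hy i)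
    have h1 := hdet u hu1
    have e : Matrix.of y = (Rat.castHom ℝ).mapMatrix (Matrix.of fun i => π (qv (u i))) := by
      ext i k
      have := congrFun (hu2 i) k
      rw [cr_apply] at this
      simp [← this]
    rw [e, ← RingHom.map_det]
    have h2 : |((Matrix.of fun i => π (qv (u i))).det : ℝ)| ≤ 1 := by exact_mod_cast h1
    simpa using h2
  · intro f g hf hg h
    choose u hu1 hu2 using fun s => Finset.mem_image.1 (hf s)
    choose u' hu1' hu2' using fun s => Finset.mem_image.1 (hg s)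
    have hmem : ∀ u : Fin S → Fin d → ℤ, (∀ s, u s ∈ U) →
        qv (∑ s : Fin S, ((16 * M : ℕ) : ℤ) ^ (s : ℕ) • u s) ∈ sp x := by
      intro u hu
      rw [qv_sum]
      refine Submodule.sum_mem _ fun s _ => ?_
      rw [qv_smul]
      exact Submodule.smul_mem _ _ (hU _ (hu s))
    have huu : u = u' := by
      refine C.digits U hU hb S u u' hu1 hu1' (C.cr_inj (hmem u hu1) (hmem u' hu1') ?_)
      rw [cr_sum, cr_sum]
      simp only [hu2, hu2']
      exact h
    funext s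
    rw [← hu2, ← hu2', huu]
  · intro v
    have hex : ∀ p ∈ (((Fintype.piFinset fun _ : Fin S => Y).image
          (fun f => ∑ s : Fin S, (((16 * M : ℕ) : ℝ) ^ (s : ℕ)) • f s)).filter
        (fun y => ∀ i, v i ≤ y i ∧ y i < v i + 1)), ∃ ρ ∈ box T, ∃ (a : Fin j → ℤ),
        p = cr π (∑ k, ρ k • z k) + cr π (∑ i, a i • x i) := by
      intro p hp
      obtain ⟨hp1, -⟩ := Finset.mem_filter.1 hp
      obtain ⟨f, hf, rfl⟩ := Finset.mem_image.1 hp1
      rw [Fintype.mem_piFinset] at hf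
      choose u hu1 hu2 using fun s => Finset.mem_image.1 (hf s)
      have hm : qv (∑ s : Fin S, ((16 * M : ℕ) : ℤ) ^ (s : ℕ) • u s) ∈ sp x := by
        rw [qv_sum]
        refine Submodule.sum_mem _ fun s _ => ?_
        rw [qv_smul]
        exact Submodule.smul_mem _ _ (hU _ (hu1 s))
      obtain ⟨ρ, hρ, a, ha⟩ := C.residue hTR hm
      refine ⟨ρ, hρ, a, ?_⟩
      rw [← map_add, ← ha, cr_sum]
      simp only [hu2]
    choose! ρ hρ a ha using hex
    refine Finset.card_le_card_of_injOn ρ (fun p hp => hρ p hp) ?_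
    intro p hp p' hp' hpp
    rw [Finset.mem_coe] at hp hp'
    have h1 := ha p hp
    have h2 := ha p' hp'
    rw [← hpp] at h2
    have hb1 := (Finset.mem_filter.1 hp).2
    have hb2 := (Finset.mem_filter.1 hp').2
    have haa : a p = a p' := by
      funext i
      have e1 := congrFun h1 i
      have e2 := congrFun h2 i
      rw [Pi.add_apply, cr_apply (π := π) (∑ i, a p i • x i), C.pi_sumx] at e1
      rw [Pi.add_apply, cr_apply (π := π) (∑ i, a p' i • x i), C.pi_sumx] at e2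
      have c1 := hb1 i
      have c2 := hb2 i
      simp only [Rat.cast_intCast] at e1 e2
      have c3 : ((a p i : ℤ) : ℝ) - (a p' i : ℤ) < 1 := by linarith
      have c4 : ((a p' i : ℤ) : ℝ) - (a p i : ℤ) < 1 := by linarith
      have c5 : a p i - a p' i < 1 := by exact_mod_cast c3
      have c6 : a p' i - a p i < 1 := by exact_mod_cast c4
      omega
    rw [h1, h2, haa]

end ctx

theorem fewIn_of {M d Q q : ℕ} {t : Fin d → ZMod q} (h1 : FlagB) (h2 : CardOrthB)
    (h3 : TriReduceB) (h4 : ClusterB) (hM : 1 ≤ M) (hq : q.Prime)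
    (hsz : ∀ j, 4 * j ≤ d → j.factorial * (d * (2 * M * Q) ^ 2) ^ j < q)
    (hG : GoodT M d Q q t) {S : ℕ} (hS1 : 1 ≤ S) (hS : 26 * (200 * M) ^ 4 ≤ 16 ^ S)
    (hd : (16 * M) * (16 * M) ^ (2 * S) ≤ d) : FewIn (lam t) (M * Q) := by
  classical
  intro F hF U hU
  obtain ⟨j, x, π, hx1, hLI, hπ, hsp, hdet⟩ := exists_basis U
  have hjF : j ≤ Module.finrank ℚ F := by
    have hle : sp x ≤ F := by
      rw [Submodule.span_le]
      rintro _ ⟨i, rfl⟩
      exact (hU _ (hx1 i)).2.2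
    have := Submodule.finrank_mono hle
    rw [finrank_span_eq_card hLI, Fintype.card_fin] at this
    exact this
  have hj4 : 4 * j ≤ d := by omega
  have hb : ∀ y ∈ U, ∀ l, |y l| ≤ 2 * M * Q := by
    intro y hy l
    have := (hU y hy).2.1 l
    push_cast at this
    linarith
  obtain ⟨T, z, T1, T2, T3, xz, sat⟩ := h1 d j x hLI
  obtain ⟨c1, c2, -⟩ := h2 d j (2 * M * Q) x (by
    intro i l
    have := hb _ (hx1 i) l
    push_cast
    exact this) hLI
  have : Fact q.Prime := ⟨hq⟩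
  have hTu := T_unit (q := q) T3 xz c1 (lt_of_le_of_lt c2 (by exact_mod_cast hsz j hj4))
  have hzl : ∀ k, z k ∈ lam t := z_mem (lam t) T3 xz (fun i => (hU _ (hx1 i)).1) (by
    intro i y hy
    have h5 : phi t (T i i • y) = 0 := hy
    rw [map_zsmul, zsmul_eq_mul] at h5
    rcases mul_eq_zero.1 h5 with h6 | h6
    · exact absurd h6 (hTu i)
    · exact h6)
  obtain ⟨zLI, zs⟩ := z_facts hLI xz
  have C : Ctx M d Q q j t x z T π :=
    ⟨hG, hM, hLI, fun i l => hb _ (hx1 i) l, hπ, T1, T3, xz, sat, hzl, zs, zLI⟩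
  rcases lt_or_ge j ((16 * M) ^ (2 * S)) with hj | hj
  · have h5 := C.card_small U hsp hb
    calc U.card ≤ (16 * M) ^ j := h5
      _ ≤ (16 * M) ^ ((16 * M) ^ (2 * S)) := Nat.pow_le_pow_right (by omega) hj.le
      _ ≤ (2 ^ (16 * M)) ^ ((16 * M) ^ (2 * S)) := Nat.pow_le_pow_left (Nat.lt_two_pow_self).le _
      _ = 2 ^ ((16 * M) * (16 * M) ^ (2 * S)) := (pow_mul _ _ _).symm
      _ ≤ 2 ^ d := Nat.pow_le_pow_right (by norm_num) hd
  · have hj1 : 1 ≤ j := le_trans (Nat.one_le_pow _ _ (by omega)) hj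
    have hUc := C.card_big h4 h3 U hx1 hsp hb hdet hj
    have hD1 := C.D_le h3 hj1
    have hD2 := hG.E2 j hj4 x z T hLI C.hx (fun i => (hU _ (hx1 i)).1) T1 T2 T3 xz hD1
    rw [← card_box T1] at hD2
    have hD3 : (box T).card ≤ ((200 * M) ^ 4) ^ j := by exact_mod_cast hD2
    have h5 : U.card ^ S ≤ (16 ^ j) ^ S := by
      calc U.card ^ S ≤ (box T).card * 26 ^ j := hUc
        _ ≤ ((200 * M) ^ 4) ^ j * 26 ^ j := Nat.mul_le_mul_right _ hD3
        _ = (26 * (200 * M) ^ 4) ^ j := by rw [← mul_pow, mul_comm]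
        _ ≤ (16 ^ S) ^ j := Nat.pow_le_pow_left hS _
        _ = (16 ^ j) ^ S := by rw [← pow_mul, ← pow_mul, mul_comm]
    have h6 : U.card ≤ 16 ^ j := (Nat.pow_le_pow_iff_left (by omega)).1 h5
    calc U.card ≤ 16 ^ j := h6
      _ = 2 ^ (4 * j) := by
          rw [pow_mul]
          norm_num
      _ ≤ 2 ^ d := Nat.pow_le_pow_right (by norm_num) hj4

theorem size_le {M d Q q : ℕ} (hQ : 4 ≤ Q) (hq : q.Prime) (hq2 : q ≤ 2 * Q ^ d)
    (t : Fin d → ZMod q) (A : Finset (Fin d → ℤ))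
    (hA : ∀ x, x ∈ A ↔ x ∈ lam t ∧ ∀ l, |x l| ≤ ((M * Q : ℕ) : ℤ)) : M ^ d ≤ 2 * A.card := by
  classical
  have : NeZero q := ⟨hq.ne_zero⟩
  set B : Finset (Fin d → ℤ) :=
    Fintype.piFinset fun _ => Finset.Icc 0 ((M * Q : ℕ) : ℤ) with hB
  have hBc : B.card = (M * Q + 1) ^ d := by
    rw [hB, Fintype.card_piFinset]
    rw [Finset.prod_const, Finset.card_univ, Fintype.card_fin, Int.card_Icc]
    congr 1
  have h1 : B.card ≤ A.card * (B.image (phi t)).card := by
    apply Finset.card_le_mul_card_image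
    intro a ha
    obtain ⟨x₀, hx₀, rfl⟩ := Finset.mem_image.1 ha
    refine Finset.card_le_card_of_injOn (fun x => x - x₀) ?_ (sub_left_injective.injOn)
    intro x hx
    rw [Finset.mem_coe, Finset.mem_filter] at hx
    rw [Finset.mem_coe, hA]
    refine ⟨?_, fun l => ?_⟩
    · change phi t (x - x₀) = 0
      rw [map_sub, hx.2, sub_self]
    · have a1 := Finset.mem_Icc.1 (Fintype.mem_piFinset.1 hx.1 l)
      have a2 := Finset.mem_Icc.1 (Fintype.mem_piFinset.1 hx₀ l)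
      change |x l - x₀ l| ≤ _
      rw [abs_le]
      constructor <;> linarith
  have h2 : (B.image (phi t)).card ≤ q := by
    calc (B.image (phi t)).card ≤ (Finset.univ : Finset (ZMod q)).card :=
          Finset.card_le_card (Finset.subset_univ _)
      _ = q := by rw [Finset.card_univ, ZMod.card]
  have h3 : (M * Q) ^ d ≤ A.card * (2 * Q ^ d) := by
    calc (M * Q) ^ d ≤ (M * Q + 1) ^ d := Nat.pow_le_pow_left (by omega) _
      _ = B.card := hBc.symm
      _ ≤ A.card * (B.image (phi t)).card := h1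
      _ ≤ A.card * (2 * Q ^ d) := Nat.mul_le_mul_left _ (h2.trans hq2)
  rw [mul_pow] at h3
  have h4 : 0 < Q ^ d := by positivity
  have h5 : M ^ d * Q ^ d ≤ (2 * A.card) * Q ^ d := by
    calc M ^ d * Q ^ d ≤ A.card * (2 * Q ^ d) := h3
      _ = (2 * A.card) * Q ^ d := by ring
  exact Nat.le_of_mul_le_mul_right h5 h4

end Lattice

theorem lattice : FlagB → CardOrthB → TriReduceB → ClusterB → UnionB → LatticeB := by
  classical
  intro h1 h2 h3 h4 h5 M hM
  obtain ⟨d₀, hd₀⟩ := h5 M hM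
  obtain ⟨S, hS⟩ : ∃ S : ℕ, S = 26 * (200 * M) ^ 4 := ⟨_, rfl⟩
  have hS1 : 1 ≤ S := by
    rw [hS]
    exact Nat.succ_le_of_lt (by positivity)
  have hS2 : 26 * (200 * M) ^ 4 ≤ 16 ^ S := by
    rw [← hS]
    exact (Nat.lt_pow_self (by norm_num)).le
  refine ⟨max d₀ ((16 * M) * (16 * M) ^ (2 * S)), fun d hd => ?_⟩
  obtain ⟨Q, q, hQ, hq, hq1, hq2, hsz, t, hG⟩ := hd₀ d (le_trans (le_max_left _ _) hd)
  refine ⟨Lattice.lam t, M * Q, Nat.mul_pos hM (by omega),
    Lattice.fewIn_of h1 h2 h3 h4 hM hq hsz hG hS1 hS2 (le_trans (le_max_right _ _) hd), ?_⟩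
  have hA : ∀ x, x ∈ (Fintype.piFinset fun _ : Fin d =>
      Finset.Icc (-((M * Q : ℕ) : ℤ)) ((M * Q : ℕ) : ℤ)).filter (fun x => x ∈ Lattice.lam t) ↔
      x ∈ Lattice.lam t ∧ ∀ l, |x l| ≤ ((M * Q : ℕ) : ℤ) := by
    intro x
    rw [Finset.mem_filter, Fintype.mem_piFinset, and_comm]
    refine and_congr_right fun _ => forall_congr' fun l => ?_
    rw [Finset.mem_Icc, abs_le]
  exact ⟨_, hA, Lattice.size_le hQ hq hq2 t _ hA⟩

end Pool.Agent.TH513.FR
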