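import Pool.Agent.TH513.FR.Defs

namespace Pool.Agent.TH513.FR

namespace Select

/-- `m` indices in `S` with linearly independent values. -/
theorem pick {d r m : ℕ} (v : Fin r → Fin d → ℚ) (S : Finset (Fin r))
    (h : m ≤ Module.finrank ℚ (Submodule.span ℚ (v '' (S : Set (Fin r))))) :
    ∃ f : Fin m → Fin r, (∀ i, f i ∈ S) ∧ LinearIndependent ℚ (fun i => v (f i)) := by
  classical
  obtain ⟨b, hbs, hspan, hli⟩ := exists_linearIndependent ℚ (v '' (S : Set (Fin r)))
  have hfin : b.Finite := (S.finite_toSet.image v).subset hbs
  have : Fintype b := hfin.fintype
  have hcard : Module.finrank ℚ (Submodule.span ℚ b) = Fintype.card b := by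
    have h1 := finrank_span_eq_card hli
    rwa [Subtype.range_coe] at h1
  rw [← hspan, hcard] at h
  obtain ⟨e⟩ : Nonempty (Fin m ↪ b) :=
    Function.Embedding.nonempty_of_card_le (by simpa using h)
  have hpre : ∀ y : b, ∃ i ∈ S, v i = y.1 := by
    intro y
    obtain ⟨i, hi, hvi⟩ := hbs y.2
    exact ⟨i, hi, hvi⟩
  choose p hp hvp using hpre
  refine ⟨fun i => p (e i), fun i => hp _, ?_⟩
  have h2 : (fun i : Fin m => v (p (e i))) = (fun y : b => (y : Fin d → ℚ)) ∘ e := by
    funext i
    exact hvp (e i)
  rw [h2]
  exact hli.comp e e.injective

end Select

theorem select : SelectB := by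
  classical
  intro d r m k v I
  induction k with
  | zero =>
    left
    refine ⟨fun p => p.elim0, ?_, fun p => p.elim0, fun p => p.elim0⟩
    rintro ⟨p, _⟩
    exact p.elim0
  | succ k ih =>
    rcases ih with ⟨g, hinj, hI, hli⟩ | ⟨E, hE, hcard, hfr⟩
    · set E : Finset (Fin r) :=
        Finset.univ.image (fun p : Fin k × Fin m => g p.1 p.2) with hEdef
      have hEI : E ⊆ I := by
        intro x hx
        obtain ⟨p, _, rfl⟩ := Finset.mem_image.1 hx
        exact hI _ _
      have hEcard : E.card ≤ k * m := by
        refine le_trans Finset.card_image_le ?_
        simp
      by_cases hlt : Module.finrank ℚ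
          (Submodule.span ℚ (v '' ((I \ E : Finset (Fin r)) : Set (Fin r)))) < m
      · right
        exact ⟨E, hEI, hEcard.trans (Nat.mul_le_mul_right m (Nat.le_succ k)), hlt⟩
      · left
        obtain ⟨f, hf, hfli⟩ := Select.pick v (I \ E) (not_lt.1 hlt)
        have hfinj : Function.Injective f := by
          intro i i' hii
          have := hfli.injective (a₁ := i) (a₂ := i') (by simp [hii])
          exact this
        have hfE : ∀ i, ∀ p i', f i ≠ g p i' := by
          intro i p i' h
          have h1 := (Finset.mem_sdiff.1 (hf i)).2
          apply h1
          rw [h]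
          exact Finset.mem_image.2 ⟨(p, i'), Finset.mem_univ _, rfl⟩
        refine ⟨Fin.cons f g, ?_, ?_, ?_⟩
        · rintro ⟨p, i⟩ ⟨p', i'⟩ h
          induction p using Fin.cases with
          | zero =>
            induction p' using Fin.cases with
            | zero =>
              simp only [Fin.cons_zero] at h
              rw [hfinj h]
            | succ p' =>
              simp only [Fin.cons_zero, Fin.cons_succ] at h
              exact absurd h (hfE _ _ _)
          | succ p =>
            induction p' using Fin.cases with
            | zero =>
              simp only [Fin.cons_zero, Fin.cons_succ] at h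
              exact absurd h.symm (hfE _ _ _)
            | succ p' =>
              simp only [Fin.cons_succ] at h
              have := @hinj (p, i) (p', i') h
              simp only [Prod.mk.injEq] at this
              rw [this.1, this.2]
        · intro p i
          induction p using Fin.cases with
          | zero =>
            simp only [Fin.cons_zero]
            exact (Finset.mem_sdiff.1 (hf i)).1
          | succ p =>
            simp only [Fin.cons_succ]
            exact hI _ _
        · intro p
          induction p using Fin.cases with
          | zero =>
            simp only [Fin.cons_zero]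
            exact hfli
          | succ p =>
            simp only [Fin.cons_succ]
            exact hli p
    · right
      exact ⟨E, hE, hcard.trans (Nat.mul_le_mul_right m (Nat.le_succ k)), hfr⟩

end Pool.Agent.TH513.FR
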