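import Pool.Agent.TH513.FR.Final
import Pool.Agent.TH513.FR.Select

namespace Pool.Agent.TH513.FR

open Finset
open scoped Pointwise

namespace Main

/-- `|A + A| ≤ 4^d |A|` for `A = Λ ∩ [-R,R]^d`. -/
theorem doubling {d R : ℕ} {Λ : AddSubgroup (Fin d → ℤ)}
    {A : Finset (Fin d → ℤ)} (hA : ∀ x, x ∈ A ↔ x ∈ Λ ∧ ∀ l, |x l| ≤ (R : ℤ)) :
    (A + A).card ≤ 4 ^ d * A.card := by
  classical
  set f : (Fin d → ℤ) → (Fin d → ℤ) := fun x l => (x l + 2 * R) / (R + 1) with hf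
  set Bx : Finset (Fin d → ℤ) := Fintype.piFinset fun _ => Finset.Ico (0 : ℤ) 4 with hBx
  have hBc : Bx.card = 4 ^ d := by
    rw [hBx, Fintype.card_piFinset]; simp
  have hRpos : (0 : ℤ) < (R : ℤ) + 1 := by positivity
  have hmem : ∀ x ∈ A + A, x ∈ Λ ∧ ∀ l, |x l| ≤ 2 * (R : ℤ) := by
    intro x hx
    obtain ⟨y, hy, z, hz, rfl⟩ := Finset.mem_add.1 hx
    have h1 := (hA y).1 hy
    have h2 := (hA z).1 hz
    refine ⟨Λ.add_mem h1.1 h2.1, fun l => ?_⟩
    have h3 := abs_le.1 (h1.2 l)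
    have h4 := abs_le.1 (h2.2 l)
    simp only [Pi.add_apply]
    rw [abs_le]
    constructor <;> linarith
  have hmaps : ∀ x ∈ A + A, f x ∈ Bx := by
    intro x hx
    rw [hBx, Fintype.mem_piFinset]
    intro l
    have h := abs_le.1 ((hmem x hx).2 l)
    rw [Finset.mem_Ico]
    constructor
    · apply Int.ediv_nonneg <;> linarith
    · rw [Int.ediv_lt_iff_lt_mul hRpos]
      linarith
  have := Finset.card_le_mul_card_image_of_maps_to hmaps A.card (fun b _ => ?_)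
  · rw [hBc, mul_comm] at this; exact this
  · set U := (A + A).filter (fun x => f x = b) with hU
    rcases U.eq_empty_or_nonempty with h | ⟨x₀, hx₀⟩
    · rw [h]; simp
    · have hinj : Function.Injective (fun x : Fin d → ℤ => x - x₀) := fun x y h => by
        simpa using h
      rw [← Finset.card_image_of_injective U hinj]
      apply Finset.card_le_card
      intro x hx
      rw [Finset.mem_image] at hx
      obtain ⟨y, hy, rfl⟩ := hx
      rw [hU, Finset.mem_filter] at hy hx₀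
      have h1 := hmem y hy.1
      have h2 := hmem x₀ hx₀.1
      rw [hA]
      refine ⟨Λ.sub_mem h1.1 h2.1, fun l => ?_⟩
      have h3 : (y l + 2 * R) / (R + 1 : ℤ) = (x₀ l + 2 * R) / (R + 1 : ℤ) :=
        (congrFun hy.2 l).trans (congrFun hx₀.2 l).symm
      have h4 := Int.emod_add_mul_ediv (y l + 2 * R) (R + 1 : ℤ)
      have h5 := Int.emod_add_mul_ediv (x₀ l + 2 * R) (R + 1 : ℤ)
      have h6 := Int.emod_nonneg (y l + 2 * R) hRpos.ne'
      have h7 := Int.emod_nonneg (x₀ l + 2 * R) hRpos.ne'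
      have h8 := Int.emod_lt_of_pos (y l + 2 * R) hRpos
      have h9 := Int.emod_lt_of_pos (x₀ l + 2 * R) hRpos
      rw [h3] at h4
      simp only [Pi.sub_apply]
      rw [abs_le]
      constructor <;> linarith

/-- The short directions: for some choice of the number of groups, a density at least `c₀^{-2d}`
in the formal box is impossible. -/
theorem groups_contra (hG : GroupsB) (hP : PairCondB) (c₀ : ℕ) (hc₀ : 1 ≤ c₀) {m r s R : ℕ}
    (hs : (c₀ ^ 16 * 4 ^ 8) ^ 2 ≤ s) (hm : 1 ≤ m)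
    {Λ : AddSubgroup (Fin (8 * m) → ℤ)} (hR : 1 ≤ R) (hF : FewIn Λ R)
    {A : Finset (Fin (8 * m) → ℤ)} (hA : ∀ x, x ∈ A ↔ x ∈ Λ ∧ ∀ l, |x l| ≤ (R : ℤ))
    (a : Fin (8 * m) → ℤ) (v : Fin r → Fin (8 * m) → ℤ) (N : Fin r → ℕ) (hN : ∀ i, 1 ≤ N i)
    (hdens : ((∏ i, N i : ℕ) : ℝ) ≤ (c₀ : ℝ) ^ (2 * (8 * m)) * (A ∩ prog a v N).card)
    (g : Fin (2 ^ (s + 1)) → Fin m → Fin r)
    (hg1 : Function.Injective (fun p : Fin (2 ^ (s + 1)) × Fin m => g p.1 p.2))
    (hg2 : ∀ p i, 2 ≤ N (g p i))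
    (hg3 : ∀ p, LinearIndependent ℚ (fun i => qv (v (g p i)))) : False := by
  classical
  obtain ⟨y, c, hc, hcount⟩ := hP (8 * m) r m (2 ^ (s + 1)) N a v g hg1 hN hg2 (A : Set _)
  have hli : ∀ p, LinearIndependent ℚ (fun i => qv (c p i • v (g p i))) := by
    intro p
    have h1 : (fun i => qv (c p i • v (g p i))) =
        (fun i => (Units.mk0 (c p i : ℚ) (by exact_mod_cast hc p i)) • qv (v (g p i))) := by
      funext i
      rw [Final.qv_zsmul]
      rfl
    rw [h1]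
    exact (hg3 p).units_smul (fun i => Units.mk0 (c p i : ℚ) (by exact_mod_cast hc p i))
  have hgr := hG (8 * m) m s Λ R hR hF (by omega) (fun p i => c p i • v (g p i)) hli y
  set E1 := (Finset.univ.filter (fun ε : Fin (2 ^ (s + 1)) → Fin m → Fin 2 =>
      y + ∑ p, ∑ i, ((ε p i : Fin 2) : ℕ) • (c p i • v (g p i)) ∈ (A : Set (Fin (8 * m) → ℤ)))).card
    with hE1
  have hE2 : (E1 : ℝ) ≤ 2 ^ (2 ^ (s + 1) * m) * (4 ^ (8 * m) *
          (((2 ^ (s + 1)).choose (2 ^ s) : ℝ) / 2 ^ (2 ^ (s + 1))) ^ m) := by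
    refine le_trans ?_ hgr
    rw [hE1]
    exact_mod_cast Finset.card_le_card (fun ε hε => by
      rw [Finset.mem_filter] at hε ⊢
      refine ⟨hε.1, ?_⟩
      exact (hA _).1 (Finset.mem_coe.1 hε.2))
  set Sf := ((Fintype.piFinset fun i => Finset.range (N i)).filter
      (fun n : Fin r → ℕ => a + ∑ i, n i • v i ∈ (A : Set (Fin (8 * m) → ℤ)))).card with hSf
  have hTS : (A ∩ prog a v N).card ≤ Sf := by
    rw [hSf]
    have : A ∩ prog a v N ⊆ ((Fintype.piFinset fun i => Finset.range (N i)).filter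
      (fun n : Fin r → ℕ => a + ∑ i, n i • v i ∈ (A : Set (Fin (8 * m) → ℤ)))).image
        (fun n => a + ∑ i, n i • v i) := by
      intro x hx
      rw [Finset.mem_inter] at hx
      obtain ⟨n, hn, rfl⟩ := mem_prog.1 hx.2
      rw [Finset.mem_image]
      refine ⟨n, ?_, rfl⟩
      rw [Finset.mem_filter, Fintype.mem_piFinset]
      exact ⟨fun i => Finset.mem_range.2 (hn i), Finset.mem_coe.2 hx.1⟩
    exact (Finset.card_le_card this).trans Finset.card_image_le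
  have hprod : (0 : ℝ) < ((∏ i, N i : ℕ) : ℝ) := by
    have : 0 < ∏ i, N i := Finset.prod_pos (fun i _ => hN i)
    exact_mod_cast this
  have hcount' : (Sf : ℝ) * 2 ^ (2 ^ (s + 1) * m) ≤ ((∏ i, N i : ℕ) : ℝ) * E1 := by
    exact_mod_cast hcount
  set α : ℝ := ((2 ^ (s + 1)).choose (2 ^ s) : ℝ) / 2 ^ (2 ^ (s + 1)) with hα
  have hα0 : 0 ≤ α := by positivity
  set pw : ℝ := 2 ^ (2 ^ (s + 1) * m) with hpw
  have hpwpos : 0 < pw := by positivity
  -- combine
  have h1 : (Sf : ℝ) ≤ ((∏ i, N i : ℕ) : ℝ) * (4 ^ (8 * m) * α ^ m) := by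
    have h2 : (Sf : ℝ) * pw ≤ ((∏ i, N i : ℕ) : ℝ) * (pw * (4 ^ (8 * m) * α ^ m)) :=
      hcount'.trans (mul_le_mul_of_nonneg_left hE2 hprod.le)
    have h3 : ((∏ i, N i : ℕ) : ℝ) * (pw * (4 ^ (8 * m) * α ^ m)) =
      (((∏ i, N i : ℕ) : ℝ) * (4 ^ (8 * m) * α ^ m)) * pw := by ring
    rw [h3] at h2
    exact le_of_mul_le_mul_right h2 hpwpos
  have h4 : ((∏ i, N i : ℕ) : ℝ) ≤ (c₀ : ℝ) ^ (2 * (8 * m)) *
      (((∏ i, N i : ℕ) : ℝ) * (4 ^ (8 * m) * α ^ m)) := by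
    refine hdens.trans (mul_le_mul_of_nonneg_left ?_ (by positivity))
    have : ((A ∩ prog a v N).card : ℝ) ≤ (Sf : ℝ) := by exact_mod_cast hTS
    exact this.trans h1
  have h5 : (1 : ℝ) ≤ ((c₀ : ℝ) ^ 16 * 4 ^ 8 * α) ^ m := by
    have h6 : (c₀ : ℝ) ^ (2 * (8 * m)) * (((∏ i, N i : ℕ) : ℝ) * (4 ^ (8 * m) * α ^ m)) =
      ((∏ i, N i : ℕ) : ℝ) * ((c₀ : ℝ) ^ 16 * 4 ^ 8 * α) ^ m := by
      rw [mul_pow, mul_pow, ← pow_mul, ← pow_mul, show 16 * m = 2 * (8 * m) by ring]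
      ring
    rw [h6] at h4
    by_contra hlt
    push Not at hlt
    have := mul_lt_mul_of_pos_left hlt hprod
    rw [mul_one] at this
    linarith
  have hα1 : (c₀ : ℝ) ^ 16 * 4 ^ 8 * α < 1 := by
    have hcb := Final.cb_bound (2 ^ s)
    have hcb2 : ((2 ^ s).centralBinom : ℝ) = ((2 ^ (s + 1)).choose (2 ^ s) : ℝ) := by
      rw [Nat.centralBinom_eq_two_mul_choose, pow_succ, mul_comm]
    rw [hcb2] at hcb
    have h16 : (16 : ℝ) ^ (2 ^ s) = (2 ^ (2 ^ (s + 1))) ^ 2 := by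
      rw [← pow_mul, show (16 : ℝ) = 2 ^ 4 by norm_num, ← pow_mul]
      congr 1
      rw [pow_succ]; ring
    have hα2 : α ^ 2 * (2 * (2 : ℝ) ^ s + 1) ≤ 1 := by
      rw [hα, div_pow, div_mul_eq_mul_div, div_le_one (by positivity), ← h16]
      push_cast at hcb
      exact hcb
    have hs2 : ((c₀ : ℝ) ^ 16 * 4 ^ 8) ^ 2 ≤ (s : ℝ) := by exact_mod_cast hs
    have hs3 : (s : ℝ) < 2 ^ s := by
      have : s < 2 ^ s := Nat.lt_two_pow_self
      exact_mod_cast this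
    by_contra hge
    push Not at hge
    have h7 : 1 ≤ ((c₀ : ℝ) ^ 16 * 4 ^ 8) ^ 2 * α ^ 2 := by
      rw [← mul_pow]
      exact one_le_pow₀ hge
    have h8 : ((c₀ : ℝ) ^ 16 * 4 ^ 8) ^ 2 * α ^ 2 ≤ 2 ^ s * α ^ 2 :=
      mul_le_mul_of_nonneg_right (by linarith) (by positivity)
    have h9 : α ^ 2 * (2 * (2 : ℝ) ^ s + 1) = 2 * (2 ^ s * α ^ 2) + α ^ 2 := by ring
    rw [h9] at hα2
    have : 0 ≤ α ^ 2 := by positivity
    linarith
  have : ((c₀ : ℝ) ^ 16 * 4 ^ 8 * α) ^ m < 1 :=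
    pow_lt_one₀ (by positivity) hα1 (by omega)
  linarith

/-- The whole argument from the four main lemmas. -/
theorem main (hL : LatticeB) (hG : GroupsB) (hP : PairCondB) (hS : SelectB)
    (C : ℝ) (hC : 1 ≤ C) :
    ∃ (d : ℕ) (A : Finset (Fin d → ℤ)) (K : ℝ), 1 ≤ K ∧ A.Nonempty ∧
      ((A + A).card : ℝ) ≤ K * A.card ∧
      ∀ (r : ℕ) (a : Fin d → ℤ) (v : Fin r → Fin d → ℤ) (N : Fin r → ℕ), (∀ i, 1 ≤ N i) →
        ((∏ i, (N i : ℝ)) ≤ C * K ^ C * A.card ∨
          ((r : ℝ) ≤ C * Real.log K ∧ ((prog a v N).card : ℝ) ≤ C * K ^ C * A.card)) →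
        ((A ∩ prog a v N).card : ℝ) < C⁻¹ * K ^ (-C) * A.card := by
  classical
  set c₀ : ℕ := ⌈C * (4 : ℝ) ^ C⌉₊ with hc₀
  have h4C : (1 : ℝ) ≤ (4 : ℝ) ^ C := Real.one_le_rpow (by norm_num) (by linarith)
  have hc₀1 : (1 : ℝ) ≤ C * (4 : ℝ) ^ C := by nlinarith
  have hc₀le : C * (4 : ℝ) ^ C ≤ c₀ := Nat.le_ceil _
  have hc₀pos : 1 ≤ c₀ := by
    have : (1 : ℝ) ≤ (c₀ : ℝ) := hc₀1.trans hc₀le
    exact_mod_cast this
  set s : ℕ := (c₀ ^ 16 * 4 ^ 8) ^ 2 with hs
  set k : ℕ := max (2 ^ (s + 1)) ⌈12 * C⌉₊ with hk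
  set Ns : ℕ := 2 ^ 10 * c₀ ^ 16 with hNs
  have hNspos : 1 ≤ Ns := by
    rw [hNs]; exact Nat.mul_pos (by positivity) (by positivity)
  set M : ℕ := 4 * c₀ * Ns ^ k with hM
  have hMpos : 1 ≤ M := by
    have : 0 < M := by rw [hM]; positivity
    exact this
  obtain ⟨d₀, hd₀⟩ := hL M hMpos
  set m : ℕ := max d₀ 1 with hm
  have hm1 : 1 ≤ m := le_max_right _ _
  have hmd : d₀ ≤ 8 * m := by
    have : d₀ ≤ m := le_max_left _ _
    omega
  obtain ⟨Λ, R, hR, hF, A, hA, hAM⟩ := hd₀ (8 * m) hmd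
  have hA0 : (0 : Fin (8 * m) → ℤ) ∈ A := by
    rw [hA]
    refine ⟨Λ.zero_mem, fun l => ?_⟩
    simp
  have hAne : A.Nonempty := ⟨0, hA0⟩
  have hApos : 0 < A.card := hAne.card_pos
  set K : ℝ := (4 : ℝ) ^ (8 * m) with hK
  have hK1 : 1 ≤ K := one_le_pow₀ (by norm_num)
  have hKpos : 0 < K := by linarith
  refine ⟨8 * m, A, K, hK1, hAne, ?_, ?_⟩
  · have := doubling hA
    rw [hK]
    exact_mod_cast this
  intro r a v N hN hcase
  -- the constant `C K^C ≤ c₀^d`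
  have hKC : K ^ C = ((4 : ℝ) ^ C) ^ (8 * m) := by
    rw [hK, ← Real.rpow_natCast, ← Real.rpow_mul (by norm_num), ← Real.rpow_natCast,
      ← Real.rpow_mul (by norm_num), mul_comm]
  have hB : C * K ^ C ≤ (c₀ : ℝ) ^ (8 * m) := by
    rw [hKC]
    calc C * ((4 : ℝ) ^ C) ^ (8 * m) ≤ C ^ (8 * m) * ((4 : ℝ) ^ C) ^ (8 * m) := by
          apply mul_le_mul_of_nonneg_right _ (by positivity)
          exact le_self_pow₀ hC (by omega)
      _ = (C * (4 : ℝ) ^ C) ^ (8 * m) := by rw [mul_pow]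
      _ ≤ (c₀ : ℝ) ^ (8 * m) := pow_le_pow_left₀ (by positivity) hc₀le _
  have hBpos : 0 < C * K ^ C := by positivity
  by_contra hcon
  push Not at hcon
  have hneg : K ^ (-C) = (K ^ C)⁻¹ := Real.rpow_neg hKpos.le C
  rw [hneg, ← mul_inv] at hcon
  set T := A ∩ prog a v N with hT
  have hAT : (A.card : ℝ) ≤ (c₀ : ℝ) ^ (8 * m) * T.card := by
    have h1 : (A.card : ℝ) ≤ C * K ^ C * T.card := by
      rw [inv_mul_le_iff₀ hBpos] at hcon
      exact hcon
    exact h1.trans (mul_le_mul_of_nonneg_right hB (by positivity))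
  have hATn : A.card ≤ c₀ ^ (8 * m) * T.card := by exact_mod_cast hAT
  have hTpos : 0 < T.card := by
    rcases Nat.eq_zero_or_pos T.card with h | h
    · rw [h] at hATn; omega
    · exact h
  have hPle : (prog a v N).card ≤ ∏ i, N i := by
    refine Finset.card_image_le.trans ?_
    rw [Fintype.card_piFinset]; simp
  have hPcard : (prog a v N).card ≤ c₀ ^ (8 * m) * A.card := by
    have h1 : ((prog a v N).card : ℝ) ≤ C * K ^ C * A.card := by
      rcases hcase with h | ⟨_, h⟩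
      · have : ((prog a v N).card : ℝ) ≤ ∏ i, (N i : ℝ) := by exact_mod_cast hPle
        exact this.trans h
      · exact h
    have h2 : ((prog a v N).card : ℝ) ≤ (c₀ : ℝ) ^ (8 * m) * A.card :=
      h1.trans (mul_le_mul_of_nonneg_right hB (by positivity))
    exact_mod_cast h2
  -- long directions
  set IL : Finset (Fin r) := Finset.univ.filter (fun i => Ns ≤ N i) with hIL
  set IS : Finset (Fin r) := Finset.univ.filter (fun i => 2 ≤ N i ∧ N i < Ns) with hIS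
  set w : Fin r → Fin (8 * m) → ℚ := fun i => qv (v i) with hw
  have hlong : Module.finrank ℚ (Submodule.span ℚ (w '' (IL : Set (Fin r)))) < m := by
    by_contra hge
    push Not at hge
    obtain ⟨g, hgI, hgli⟩ := Select.pick w IL hge
    have hb := Final.long_bound hF hA a v N (by omega : 4 * m ≤ 8 * m) g hgli
    rw [← hT] at hb
    have h1 : Ns ^ m ≤ ∏ p, N (g p) := by
      calc Ns ^ m = ∏ _p : Fin m, Ns := by simp
        _ ≤ ∏ p, N (g p) := Finset.prod_le_prod' (fun p _ => (Finset.mem_filter.1 (hgI p)).2)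
    have h2 : T.card * Ns ^ m ≤ T.card * (2 ^ m * (c₀ ^ (8 * m) * c₀ ^ (8 * m)) * 2 ^ (8 * m)) := by
      calc T.card * Ns ^ m ≤ T.card * ∏ p, N (g p) := Nat.mul_le_mul_left _ h1
        _ ≤ 2 ^ m * (prog a v N).card * 2 ^ (8 * m) := hb
        _ ≤ 2 ^ m * (c₀ ^ (8 * m) * (c₀ ^ (8 * m) * T.card)) * 2 ^ (8 * m) := by
            apply Nat.mul_le_mul_right
            apply Nat.mul_le_mul_left
            exact hPcard.trans (Nat.mul_le_mul_left _ hATn)
        _ = T.card * (2 ^ m * (c₀ ^ (8 * m) * c₀ ^ (8 * m)) * 2 ^ (8 * m)) := by ring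
    have h3 := Nat.le_of_mul_le_mul_left h2 hTpos
    have h4 : 2 ^ m * (c₀ ^ (8 * m) * c₀ ^ (8 * m)) * 2 ^ (8 * m) = (2 ^ 9 * c₀ ^ 16) ^ m := by
      rw [mul_pow, ← pow_mul, ← pow_mul, ← pow_add]
      rw [show 9 * m = m + 8 * m by ring, show 16 * m = 8 * m + 8 * m by ring, pow_add 2]
      ring
    rw [h4] at h3
    have h5 : (2 ^ 9 * c₀ ^ 16) ^ m < Ns ^ m := by
      apply Nat.pow_lt_pow_left _ (by omega)
      rw [hNs]
      apply Nat.mul_lt_mul_of_pos_right (by norm_num) (by positivity)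
    omega
  -- final count from an exceptional set of short directions
  have hfin : ∀ E : Finset (Fin r), E ⊆ IS → E.card ≤ k * m →
      Module.finrank ℚ (Submodule.span ℚ (w '' ((IS \ E : Finset (Fin r)) : Set (Fin r)))) < m + 1 →
      False := by
    intro E hEI hEc hEr
    set F : Submodule ℚ (Fin (8 * m) → ℚ) := Submodule.span ℚ (w '' (IL : Set (Fin r))) ⊔
      Submodule.span ℚ (w '' ((IS \ E : Finset (Fin r)) : Set (Fin r))) with hFdef
    have hFr : 4 * Module.finrank ℚ F ≤ 8 * m := by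
      have := Submodule.finrank_add_le_finrank_add_finrank
        (Submodule.span ℚ (w '' (IL : Set (Fin r))))
        (Submodule.span ℚ (w '' ((IS \ E : Finset (Fin r)) : Set (Fin r))))
      rw [← hFdef] at this
      omega
    have hb := Final.short_bound hF hA a v N F hFr E (fun i hi => by
      by_cases h1 : N i ≤ 1
      · exact Or.inl h1
      · right
        by_cases h2 : Ns ≤ N i
        · apply (le_sup_left : _ ≤ F)
          exact Submodule.subset_span ⟨i, by simp [hIL, h2], rfl⟩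
        · apply (le_sup_right : _ ≤ F)
          refine Submodule.subset_span ⟨i, ?_, rfl⟩
          rw [Finset.mem_coe, Finset.mem_sdiff]
          refine ⟨?_, hi⟩
          rw [hIS, Finset.mem_filter]
          exact ⟨Finset.mem_univ _, by omega, by omega⟩)
    rw [← hT] at hb
    have h1 : ∏ i ∈ E, N i ≤ Ns ^ (k * m) := by
      calc ∏ i ∈ E, N i ≤ ∏ _i ∈ E, Ns := Finset.prod_le_prod' (fun i hi => by
            have := (Finset.mem_filter.1 (hEI hi)).2.2
            omega)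
        _ = Ns ^ E.card := by simp
        _ ≤ Ns ^ (k * m) := Nat.pow_le_pow_right hNspos hEc
    have h2 : M ^ (8 * m) ≤ 2 * (c₀ ^ (8 * m) * (Ns ^ (k * m) * 2 ^ (8 * m))) := by
      calc M ^ (8 * m) ≤ 2 * A.card := hAM
        _ ≤ 2 * (c₀ ^ (8 * m) * T.card) := Nat.mul_le_mul_left _ hATn
        _ ≤ 2 * (c₀ ^ (8 * m) * (Ns ^ (k * m) * 2 ^ (8 * m))) := by
            apply Nat.mul_le_mul_left
            apply Nat.mul_le_mul_left
            exact hb.trans (Nat.mul_le_mul_right _ h1)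
    have h3 : M ^ (8 * m) = 4 ^ (8 * m) * c₀ ^ (8 * m) * (Ns ^ (k * m)) ^ 8 := by
      rw [hM, mul_pow, mul_pow, ← pow_mul, ← pow_mul]
      congr 2
      ring
    have h4 : Ns ^ (k * m) ≤ (Ns ^ (k * m)) ^ 8 := Nat.le_self_pow (by norm_num) _
    have h5 : 2 * 2 ^ (8 * m) < 4 ^ (8 * m) := by
      have : 4 ^ (8 * m) = 2 ^ (8 * m) * 2 ^ (8 * m) := by
        rw [← mul_pow]
        norm_num
      rw [this]
      have h6 : 2 < 2 ^ (8 * m) := by
        calc 2 < 2 ^ 2 := by norm_num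
          _ ≤ 2 ^ (8 * m) := Nat.pow_le_pow_right (by norm_num) (by omega)
      exact Nat.mul_lt_mul_of_pos_right h6 (by positivity)
    rw [h3] at h2
    have h7 : 2 * (c₀ ^ (8 * m) * (Ns ^ (k * m) * 2 ^ (8 * m)))
        < 4 ^ (8 * m) * c₀ ^ (8 * m) * (Ns ^ (k * m)) ^ 8 := by
      calc 2 * (c₀ ^ (8 * m) * (Ns ^ (k * m) * 2 ^ (8 * m)))
          = (2 * 2 ^ (8 * m)) * (c₀ ^ (8 * m) * Ns ^ (k * m)) := by ring
        _ < 4 ^ (8 * m) * (c₀ ^ (8 * m) * Ns ^ (k * m)) :=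
            Nat.mul_lt_mul_of_pos_right h5 (by positivity)
        _ ≤ 4 ^ (8 * m) * (c₀ ^ (8 * m) * (Ns ^ (k * m)) ^ 8) := by
            apply Nat.mul_le_mul_left
            exact Nat.mul_le_mul_left _ h4
        _ = 4 ^ (8 * m) * c₀ ^ (8 * m) * (Ns ^ (k * m)) ^ 8 := by ring
    omega
  rcases hcase with hvol | ⟨hrank, _⟩
  · -- polynomial formal volume
    rcases hS (8 * m) r m (2 ^ (s + 1)) w IS with ⟨g, hg1, hg2, hg3⟩ | ⟨E, hEI, hEc, hEr⟩
    · refine groups_contra hG hP c₀ hc₀pos (le_of_eq hs.symm) hm1 hR hF hA a v N hN ?_ g hg1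
        (fun p i => (Finset.mem_filter.1 (hg2 p i)).2.1) hg3
      rw [← hT]
      push_cast
      calc (∏ i, (N i : ℝ)) ≤ C * K ^ C * A.card := hvol
        _ ≤ (c₀ : ℝ) ^ (8 * m) * A.card := mul_le_mul_of_nonneg_right hB (by positivity)
        _ ≤ (c₀ : ℝ) ^ (8 * m) * ((c₀ : ℝ) ^ (8 * m) * T.card) :=
            mul_le_mul_of_nonneg_left hAT (by positivity)
        _ = (c₀ : ℝ) ^ (2 * (8 * m)) * T.card := by rw [two_mul, pow_add]; ring
    · exact hfin E hEI (hEc.trans (Nat.mul_le_mul_right _ (le_max_left _ _))) (by omega)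
  · -- logarithmic rank
    refine hfin IS (Finset.Subset.refl _) ?_ ?_
    · have h1 : (IS.card : ℝ) ≤ r := by
        have : IS.card ≤ r := by simpa using Finset.card_le_univ IS
        exact_mod_cast this
      have h2 : Real.log K = (8 * m) * Real.log 4 := by
        rw [hK, Real.log_pow]; push_cast; ring
      have h3 : Real.log 4 ≤ 1.5 := by
        have : Real.log 4 = 2 * Real.log 2 := by
          rw [show (4 : ℝ) = 2 ^ 2 by norm_num, Real.log_pow]; norm_num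
        rw [this]
        have := Real.log_two_lt_d9
        linarith
      have h4 : (IS.card : ℝ) ≤ (⌈12 * C⌉₊ : ℝ) * m := by
        have h5 : (12 * C : ℝ) ≤ ⌈12 * C⌉₊ := Nat.le_ceil _
        have hm0 : (0 : ℝ) ≤ m := by positivity
        calc (IS.card : ℝ) ≤ r := h1
          _ ≤ C * ((8 * m) * Real.log 4) := by rw [← h2]; exact hrank
          _ ≤ C * ((8 * m) * 1.5) := by gcongr
          _ = (12 * C) * m := by ring
          _ ≤ (⌈12 * C⌉₊ : ℝ) * m := mul_le_mul_of_nonneg_right h5 hm0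
      have h6 : IS.card ≤ ⌈12 * C⌉₊ * m := by exact_mod_cast h4
      exact h6.trans (Nat.mul_le_mul_right _ (le_max_right _ _))
    · rw [Finset.sdiff_self, Finset.coe_empty, Set.image_empty, Submodule.span_empty, finrank_bot]
      omega

end Main

end Pool.Agent.TH513.FR
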