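import Pool.Agent.TH513.FR.Defs

set_option autoImplicit false

/-! G1: conditioning a box to two-point choices in prescribed coordinates. -/

namespace Pool.Agent.TH513.FR.PairCond

open Finset

variable {r m k : ℕ}

/-- the increments -/
def e (g : Fin k → Fin m → Fin r) (ε : Fin k → Fin m → Fin 2) (i : Fin r) : ℕ :=
  ∑ p : Fin k × Fin m, if g p.1 p.2 = i then ((ε p.1 p.2 : Fin 2) : ℕ) else 0

theorem e_g (g : Fin k → Fin m → Fin r)
    (hg : Function.Injective (fun p : Fin k × Fin m => g p.1 p.2))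
    (ε : Fin k → Fin m → Fin 2) (p : Fin k × Fin m) :
    e g ε (g p.1 p.2) = ((ε p.1 p.2 : Fin 2) : ℕ) := by
  unfold e
  rw [Finset.sum_eq_single p]
  · simp
  · intro q _ hqp
    rw [if_neg]
    intro h
    exact hqp (hg h)
  · simp

theorem e_out (g : Fin k → Fin m → Fin r) (ε : Fin k → Fin m → Fin 2) (i : Fin r)
    (h : ∀ p : Fin k × Fin m, g p.1 p.2 ≠ i) : e g ε i = 0 := by
  unfold e
  exact Finset.sum_eq_zero fun p _ => if_neg (h p)

/-- the shifted point -/
def sh (N : Fin r → ℕ) (g : Fin k → Fin m → Fin r) (ε : Fin k → Fin m → Fin 2) (u : Fin r → ℕ)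
    (i : Fin r) : ℕ := (u i + e g ε i) % N i

theorem sh_mem (N : Fin r → ℕ) (hN : ∀ i, 1 ≤ N i) (g : Fin k → Fin m → Fin r)
    (ε : Fin k → Fin m → Fin 2) (u : Fin r → ℕ) :
    sh N g ε u ∈ Fintype.piFinset fun i => Finset.range (N i) := by
  rw [Fintype.mem_piFinset]
  intro i
  rw [Finset.mem_range]
  exact Nat.mod_lt _ (hN i)

theorem sh_inj (N : Fin r → ℕ) (g : Fin k → Fin m → Fin r)
    (ε : Fin k → Fin m → Fin 2) :
    Set.InjOn (sh N g ε) (Fintype.piFinset fun i => Finset.range (N i) : Finset (Fin r → ℕ)) := by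
  intro u hu u' hu' h
  rw [Finset.mem_coe, Fintype.mem_piFinset] at hu hu'
  funext i
  have h1 := congrFun h i
  have h2 := Finset.mem_range.1 (hu i)
  have h3 := Finset.mem_range.1 (hu' i)
  unfold sh at h1
  have h4 : u i ≡ u' i [MOD N i] := Nat.ModEq.add_right_cancel' (e g ε i) h1
  exact Nat.ModEq.eq_of_lt_of_lt h4 h2 h3

open scoped Classical in
theorem card_sh (N : Fin r → ℕ) (hN : ∀ i, 1 ≤ N i) (g : Fin k → Fin m → Fin r)
    (ε : Fin k → Fin m → Fin 2) (P : (Fin r → ℕ) → Prop) :
    ((Fintype.piFinset fun i => Finset.range (N i)).filter (fun u => P (sh N g ε u))).card =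
      ((Fintype.piFinset fun i => Finset.range (N i)).filter P).card := by
  set X : Finset (Fin r → ℕ) := Fintype.piFinset fun i => Finset.range (N i) with hX
  have himg : X.image (sh N g ε) = X := by
    apply Finset.eq_of_subset_of_card_le
    · intro y hy
      obtain ⟨u, _, rfl⟩ := Finset.mem_image.1 hy
      exact sh_mem N hN g ε u
    · rw [Finset.card_image_of_injOn (sh_inj N g ε)]
  have h1 : X.filter P = (X.filter (fun u => P (sh N g ε u))).image (sh N g ε) := by
    conv_lhs => rw [← himg]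
    rw [Finset.filter_image]
  rw [h1, Finset.card_image_of_injOn]
  exact (sh_inj N g ε).mono (by intro x hx; exact (Finset.mem_filter.1 hx).1)

/-- the coefficient -/
def co (N : Fin r → ℕ) (g : Fin k → Fin m → Fin r) (u : Fin r → ℕ) (p : Fin k) (q : Fin m) : ℤ :=
  (((u (g p q) + 1) % N (g p q) : ℕ) : ℤ) - (u (g p q) : ℤ)

theorem co_ne (N : Fin r → ℕ) (g : Fin k → Fin m → Fin r) (u : Fin r → ℕ)
    (hu : ∀ i, u i < N i) (hN : ∀ p q, 2 ≤ N (g p q)) (p : Fin k) (q : Fin m) :
    co N g u p q ≠ 0 := by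
  unfold co
  have h1 := hu (g p q)
  have h2 := hN p q
  rcases Nat.lt_or_ge (u (g p q) + 1) (N (g p q)) with h | h
  · rw [Nat.mod_eq_of_lt h]
    push_cast
    omega
  · have h3 : u (g p q) + 1 = N (g p q) := by omega
    rw [h3, Nat.mod_self]
    push_cast
    omega

theorem sh_coord (N : Fin r → ℕ) (g : Fin k → Fin m → Fin r)
    (hg : Function.Injective (fun p : Fin k × Fin m => g p.1 p.2)) (u : Fin r → ℕ)
    (hu : ∀ i, u i < N i) (ε : Fin k → Fin m → Fin 2) (i : Fin r) :
    ((sh N g ε u i : ℕ) : ℤ) = (u i : ℤ) +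
      ∑ p : Fin k × Fin m, if g p.1 p.2 = i then
        (((ε p.1 p.2 : Fin 2) : ℕ) : ℤ) * co N g u p.1 p.2 else 0 := by
  by_cases hi : ∃ p : Fin k × Fin m, g p.1 p.2 = i
  · obtain ⟨p, rfl⟩ := hi
    rw [Finset.sum_eq_single p]
    · rw [if_pos rfl]
      unfold sh
      rw [e_g g hg]
      have h01 : ((ε p.1 p.2 : Fin 2) : ℕ) = 0 ∨ ((ε p.1 p.2 : Fin 2) : ℕ) = 1 := by omega
      rcases h01 with h | h
      · rw [h, add_zero, Nat.mod_eq_of_lt (hu _)]
        simp
      · rw [h]
        unfold co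
        push_cast
        ring
    · intro q _ hqp
      rw [if_neg]
      intro h
      exact hqp (hg h)
    · simp
  · push Not at hi
    unfold sh
    rw [e_out g ε i hi, add_zero, Nat.mod_eq_of_lt (hu i), Finset.sum_eq_zero, add_zero]
    intro p _
    exact if_neg (hi p)

theorem sum_eq {d : ℕ} (N : Fin r → ℕ) (g : Fin k → Fin m → Fin r) (a : Fin d → ℤ)
    (v : Fin r → Fin d → ℤ)
    (hg : Function.Injective (fun p : Fin k × Fin m => g p.1 p.2)) (u : Fin r → ℕ)
    (hu : ∀ i, u i < N i) (ε : Fin k → Fin m → Fin 2) :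
    a + ∑ i, sh N g ε u i • v i = (a + ∑ i, u i • v i) +
      ∑ p, ∑ i, ((ε p i : Fin 2) : ℕ) • (co N g u p i • v (g p i)) := by
  have h1 : ∀ i, sh N g ε u i • v i = u i • v i + ∑ p : Fin k × Fin m, if g p.1 p.2 = i then
        ((((ε p.1 p.2 : Fin 2) : ℕ) : ℤ) * co N g u p.1 p.2) • v (g p.1 p.2) else 0 := by
    intro i
    rw [← natCast_zsmul, sh_coord N g hg u hu ε i, add_smul, natCast_zsmul, Finset.sum_smul]
    congr 1
    refine Finset.sum_congr rfl fun p _ => ?_
    split_ifs with h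
    · rw [h]
    · rw [zero_smul]
  rw [Finset.sum_congr rfl fun i _ => h1 i, Finset.sum_add_distrib, ← add_assoc]
  congr 1
  rw [Finset.sum_comm]
  rw [← Fintype.sum_prod_type' (f := fun p i => ((ε p i : Fin 2) : ℕ) • (co N g u p i • v (g p i)))]
  refine Finset.sum_congr rfl fun p _ => ?_
  rw [Finset.sum_ite_eq, if_pos (Finset.mem_univ _), mul_smul, natCast_zsmul]

end Pool.Agent.TH513.FR.PairCond

namespace Pool.Agent.TH513.FR

open Finset

open scoped Classical in
theorem pairCond : PairCondB := by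
  intro d r m k N a v g hg hN hN2 B
  set X : Finset (Fin r → ℕ) := Fintype.piFinset fun i => Finset.range (N i) with hX
  have hXc : X.card = ∏ i, N i := by
    rw [hX, Fintype.card_piFinset]
    simp
  have hXne : X.Nonempty := by
    refine ⟨fun _ => 0, ?_⟩
    rw [hX, Fintype.mem_piFinset]
    intro i
    rw [Finset.mem_range]
    have := hN i
    omega
  set P : (Fin r → ℕ) → Prop := fun n => a + ∑ i, n i • v i ∈ B with hP
  have hcardε : (Finset.univ : Finset (Fin k → Fin m → Fin 2)).card = 2 ^ (k * m) := by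
    rw [Finset.card_univ, Fintype.card_fun, Fintype.card_fun, Fintype.card_fin, Fintype.card_fin,
      Fintype.card_fin, ← pow_mul, mul_comm]
  have hdc : ∑ u ∈ X, (Finset.univ.filter
      (fun ε : Fin k → Fin m → Fin 2 => P (PairCond.sh N g ε u))).card =
      2 ^ (k * m) * (X.filter P).card := by
    have h1 : ∀ u ∈ X, (Finset.univ.filter
        (fun ε : Fin k → Fin m → Fin 2 => P (PairCond.sh N g ε u))).card =
        ∑ ε : Fin k → Fin m → Fin 2, if P (PairCond.sh N g ε u) then 1 else 0 := by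
      intro u _
      rw [Finset.card_filter]
    rw [Finset.sum_congr rfl h1, Finset.sum_comm]
    have h2 : ∀ ε ∈ (Finset.univ : Finset (Fin k → Fin m → Fin 2)),
        (∑ u ∈ X, if P (PairCond.sh N g ε u) then 1 else 0) = (X.filter P).card := by
      intro ε _
      rw [← Finset.card_filter]
      exact PairCond.card_sh N hN g ε P
    rw [Finset.sum_congr rfl h2, Finset.sum_const, smul_eq_mul, hcardε]
  obtain ⟨u, huX, hu⟩ : ∃ u ∈ X, (X.filter P).card * 2 ^ (k * m) ≤
      (∏ i, N i) * (Finset.univ.filter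
        (fun ε : Fin k → Fin m → Fin 2 => P (PairCond.sh N g ε u))).card := by
    apply Finset.exists_le_of_sum_le hXne
    rw [Finset.sum_const, smul_eq_mul, hXc, ← Finset.mul_sum, hdc]
    exact le_of_eq (by ring)
  have hu' : ∀ i, u i < N i := by
    intro i
    rw [hX, Fintype.mem_piFinset] at huX
    exact Finset.mem_range.1 (huX i)
  refine ⟨a + ∑ i, u i • v i, PairCond.co N g u, ?_, ?_⟩
  · intro p i
    exact PairCond.co_ne N g u hu' hN2 p i
  · refine le_trans hu (le_of_eq ?_)
    congr 2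
    refine Finset.filter_congr fun ε _ => ?_
    simp only [hP]
    rw [PairCond.sum_eq N g a v hg u hu' ε]

end Pool.Agent.TH513.FR
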