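import Pool.Agent.TH513.FR.Defs

/-!
The theta sum bound `ThetaB`.
-/

set_option autoImplicit false

namespace Pool.Agent.TH513.FR

namespace Theta

open MeasureTheory Matrix Set Real
open scoped MatrixOrder

variable {j : ℕ}

/-- quadratic form -/
noncomputable def q (Θ : Matrix (Fin j) (Fin j) ℝ) (u : Fin j → ℝ) : ℝ := u ⬝ᵥ (Θ *ᵥ u)

theorem cont_q (Θ : Matrix (Fin j) (Fin j) ℝ) : Continuous (q Θ) := by
  unfold q
  simp only [dotProduct, mulVec]
  fun_prop

theorem para (Θ : Matrix (Fin j) (Fin j) ℝ) (y u : Fin j → ℝ) :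
    q Θ (y + u) + q Θ (y - u) = 2 * q Θ y + 2 * q Θ u := by
  unfold q
  simp only [mulVec_add, mulVec_sub, add_dotProduct, sub_dotProduct, dotProduct_add,
    dotProduct_sub]
  ring

theorem std_int (j : ℕ) : Integrable (fun w : Fin j → ℝ => Real.exp (-(w ⬝ᵥ w))) ∧
    ∫ w : Fin j → ℝ, Real.exp (-(w ⬝ᵥ w)) = (Real.sqrt π) ^ j := by
  have e : (fun w : Fin j → ℝ => Real.exp (-(w ⬝ᵥ w))) =
      fun w => ∏ i, Real.exp (-1 * (w i) ^ 2) := by
    funext w
    rw [← Real.exp_sum]
    congr 1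
    simp only [dotProduct, ← Finset.sum_neg_distrib]
    refine Finset.sum_congr rfl fun i _ => ?_
    ring
  rw [e]
  refine ⟨Integrable.fintype_prod (f := fun _ x => Real.exp (-1 * x ^ 2))
    (fun i => integrable_exp_neg_mul_sq one_pos), ?_⟩
  have := integral_fintype_prod_volume_eq_prod (ι := Fin j)
    (f := fun _ (x : ℝ) => Real.exp (-1 * x ^ 2))
  rw [this]
  simp only [integral_gaussian, div_one, Finset.prod_const, Finset.card_univ, Fintype.card_fin]

theorem gauss {Θ : Matrix (Fin j) (Fin j) ℝ} (hΘ : Θ.PosDef) :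
    Integrable (fun v => Real.exp (-q Θ v)) ∧
    (∫ v, Real.exp (-q Θ v)) * Real.sqrt Θ.det = (Real.sqrt π) ^ j := by
  obtain ⟨B, hB⟩ := CStarAlgebra.nonneg_iff_eq_star_mul_self.mp hΘ.posSemidef.nonneg
  rw [star_eq_conjTranspose] at hB
  have hdet : Θ.det = B.det ^ 2 := by
    rw [hB, det_mul, det_conjTranspose]
    simp [sq]
  have hne : B.det ≠ 0 := by
    intro h
    have := hΘ.det_pos
    rw [hdet, h] at this
    norm_num at this
  have hq : ∀ v, q Θ v = (B *ᵥ v) ⬝ᵥ (B *ᵥ v) := by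
    intro v
    unfold q
    rw [hB, ← mulVec_mulVec, dotProduct_mulVec, vecMul_conjTranspose]
    simp
  have hmap := Real.map_matrix_volume_pi_eq_smul_volume_pi hne
  have hmeas : Measurable (Matrix.toLin' B) := (Matrix.toLin' B).continuous_of_finiteDimensional.measurable
  have hc : Continuous (fun w : Fin j → ℝ => Real.exp (-(w ⬝ᵥ w))) := by
    simp only [dotProduct]
    fun_prop
  obtain ⟨i1, i2⟩ := std_int j
  have hfun : (fun v => Real.exp (-q Θ v)) =
      (fun w : Fin j → ℝ => Real.exp (-(w ⬝ᵥ w))) ∘ (Matrix.toLin' B) := by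
    funext v
    simp only [Function.comp, hq, Matrix.toLin'_apply]
  constructor
  · rw [hfun]
    refine (integrable_map_measure hc.aestronglyMeasurable hmeas.aemeasurable).1 ?_
    rw [hmap]
    exact i1.smul_measure ENNReal.ofReal_ne_top
  · have h1 : ∫ v, Real.exp (-q Θ v) = |B.det|⁻¹ * (Real.sqrt π) ^ j := by
      rw [hfun]
      have := integral_map (μ := volume) hmeas.aemeasurable
        (f := fun w : Fin j → ℝ => Real.exp (-(w ⬝ᵥ w))) hc.aestronglyMeasurable
      have h2 : ∫ v, ((fun w : Fin j → ℝ => Real.exp (-(w ⬝ᵥ w))) ∘ (Matrix.toLin' B)) v =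
          ∫ w, Real.exp (-(w ⬝ᵥ w)) ∂(Measure.map (Matrix.toLin' B) volume) := this.symm
      rw [h2, hmap, integral_smul_measure, i2, ENNReal.toReal_ofReal (abs_nonneg _), abs_inv]
      rfl
    rw [h1, hdet, Real.sqrt_sq_eq_abs]
    have : |B.det| ≠ 0 := abs_ne_zero.2 hne
    field_simp

/-- the cube -/
def Bx (j : ℕ) : Set (Fin j → ℝ) := Set.pi univ fun _ => Ioo (-(1 / 2) : ℝ) (1 / 2)

theorem meas_Bx : MeasurableSet (Bx j) := MeasurableSet.univ_pi fun _ => measurableSet_Ioo

theorem vol_Bx : (volume (Bx j)) = 1 := by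
  unfold Bx
  rw [Real.volume_pi_Ioo]
  norm_num

theorem neg_Bx {u : Fin j → ℝ} : -u ∈ Bx j ↔ u ∈ Bx j := by
  unfold Bx
  simp only [mem_pi, mem_univ, true_imp_iff, mem_Ioo, Pi.neg_apply]
  constructor
  · intro h i
    have := h i
    constructor <;> linarith [this.1, this.2]
  · intro h i
    have := h i
    constructor <;> linarith [this.1, this.2]

theorem q_Bx {Θ : Matrix (Fin j) (Fin j) ℝ} (hle : ∀ u : Fin j → ℝ, u ⬝ᵥ (Θ *ᵥ u) ≤ u ⬝ᵥ u)
    {u : Fin j → ℝ} (hu : u ∈ Bx j) : q Θ u ≤ j / 4 := by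
  refine (hle u).trans ?_
  have : u ⬝ᵥ u ≤ ∑ _i : Fin j, (1 / 4 : ℝ) := by
    unfold dotProduct
    refine Finset.sum_le_sum fun i _ => ?_
    have h := hu i (mem_univ i)
    nlinarith [h.1, h.2]
  refine this.trans (le_of_eq ?_)
  simp
  ring

theorem lower {Θ : Matrix (Fin j) (Fin j) ℝ} (hΘ : Θ.PosDef)
    (hle : ∀ u : Fin j → ℝ, u ⬝ᵥ (Θ *ᵥ u) ≤ u ⬝ᵥ u) (y : Fin j → ℝ) :
    Real.exp (-q Θ y) * Real.exp (-(j / 4 : ℝ)) ≤
      ∫ v, (Bx j).indicator (fun _ => (1 : ℝ)) (v - y) * Real.exp (-q Θ v) := by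
  obtain ⟨hi, -⟩ := gauss hΘ
  have hcq := cont_q Θ
  have m1 : ∀ w : Fin j → ℝ, Measurable (fun v : Fin j → ℝ =>
      (Bx j).indicator (fun _ => (1 : ℝ)) (v - w)) := fun w =>
    (measurable_const.indicator meas_Bx).comp (measurable_id.sub_const w)
  -- translate
  have h1 : ∫ v, (Bx j).indicator (fun _ => (1 : ℝ)) (v - y) * Real.exp (-q Θ v) =
      ∫ u, (Bx j).indicator (fun _ => (1 : ℝ)) u * Real.exp (-q Θ (y + u)) := by
    rw [← integral_add_right_eq_self (fun v => (Bx j).indicator (fun _ => (1 : ℝ)) (v - y) *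
      Real.exp (-q Θ v)) y]
    refine integral_congr_ae (Filter.Eventually.of_forall fun u => ?_)
    simp only [add_sub_cancel_right]
    rw [add_comm u y]
  have h2 : ∫ u, (Bx j).indicator (fun _ => (1 : ℝ)) u * Real.exp (-q Θ (y + u)) =
      ∫ u, (Bx j).indicator (fun _ => (1 : ℝ)) u * Real.exp (-q Θ (y - u)) := by
    rw [← integral_neg_eq_self (fun u => (Bx j).indicator (fun _ => (1 : ℝ)) u *
      Real.exp (-q Θ (y + u))) volume]
    refine integral_congr_ae (Filter.Eventually.of_forall fun u => ?_)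
    simp only
    congr 1
    by_cases hu : u ∈ Bx j
    · rw [indicator_of_mem hu, indicator_of_mem (neg_Bx.2 hu)]
    · rw [indicator_of_notMem hu, indicator_of_notMem (fun h => hu (neg_Bx.1 h))]
  -- integrability
  have hii : ∀ f : (Fin j → ℝ) → ℝ, Continuous f →
      Integrable (fun u : Fin j → ℝ => (Bx j).indicator (fun _ => (1 : ℝ)) u * f u) := by
    intro f hf
    have hb : Bx j ⊆ Icc (fun _ => (-(1 / 2) : ℝ)) (fun _ => (1 / 2 : ℝ)) := by
      intro u hu
      rw [mem_Icc]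
      exact ⟨fun i => (hu i (mem_univ i)).1.le, fun i => (hu i (mem_univ i)).2.le⟩
    have h3 : IntegrableOn f (Bx j) volume :=
      (hf.continuousOn.integrableOn_compact isCompact_Icc).mono_set hb
    rw [← integrable_indicator_iff meas_Bx] at h3
    refine h3.congr (Filter.Eventually.of_forall fun u => ?_)
    by_cases hu : u ∈ Bx j
    · simp only [indicator_of_mem hu, one_mul]
    · simp only [indicator_of_notMem hu, zero_mul]
  have c1 : Continuous (fun u => Real.exp (-q Θ (y + u))) :=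
    Real.continuous_exp.comp (hcq.comp (continuous_const.add continuous_id)).neg
  have c2 : Continuous (fun u => Real.exp (-q Θ (y - u))) :=
    Real.continuous_exp.comp (hcq.comp (continuous_const.sub continuous_id)).neg
  have c3 : Continuous (fun _ : Fin j → ℝ => Real.exp (-q Θ y) * Real.exp (-(j / 4 : ℝ))) :=
    continuous_const
  have h4 : ∫ u, (Bx j).indicator (fun _ => (1 : ℝ)) u *
      (Real.exp (-q Θ y) * Real.exp (-(j / 4 : ℝ))) =
      Real.exp (-q Θ y) * Real.exp (-(j / 4 : ℝ)) := by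
    rw [integral_mul_const, integral_indicator meas_Bx, setIntegral_const, measureReal_def, vol_Bx]
    simp
  have h5 : 2 * (Real.exp (-q Θ y) * Real.exp (-(j / 4 : ℝ))) ≤
      (∫ u, (Bx j).indicator (fun _ => (1 : ℝ)) u * Real.exp (-q Θ (y + u))) +
      ∫ u, (Bx j).indicator (fun _ => (1 : ℝ)) u * Real.exp (-q Θ (y - u)) := by
    rw [← h4, ← integral_const_mul, ← integral_add (hii _ c1) (hii _ c2)]
    refine integral_mono ((hii _ c3).const_mul 2) ((hii _ c1).add (hii _ c2)) fun u => ?_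
    simp only
    by_cases hu : u ∈ Bx j
    · simp only [indicator_of_mem hu, one_mul]
      have hq := q_Bx hle hu
      have hp := para Θ y u
      have e1 : Real.exp (-q Θ y) * Real.exp (-(j / 4 : ℝ)) ≤
          Real.exp (-q Θ y) * Real.exp (-q Θ u) := by
        gcongr
      have e2 : Real.exp (-q Θ y) * Real.exp (-q Θ u) =
          Real.exp (-q Θ (y + u) / 2) * Real.exp (-q Θ (y - u) / 2) := by
        rw [← Real.exp_add, ← Real.exp_add]
        congr 1
        linarith
      have e3 : Real.exp (-q Θ (y + u)) = Real.exp (-q Θ (y + u) / 2) ^ 2 := by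
        rw [← Real.exp_nat_mul]
        congr 1
        push_cast
        ring
      have e4 : Real.exp (-q Θ (y - u)) = Real.exp (-q Θ (y - u) / 2) ^ 2 := by
        rw [← Real.exp_nat_mul]
        congr 1
        push_cast
        ring
      rw [e3, e4]
      nlinarith [sq_nonneg (Real.exp (-q Θ (y + u) / 2) - Real.exp (-q Θ (y - u) / 2))]
    · simp only [indicator_of_notMem hu, zero_mul]
      norm_num
  rw [h1]
  rw [← h2] at h5
  linarith

open scoped Classical in
theorem upper {Θ : Matrix (Fin j) (Fin j) ℝ} (hΘ : Θ.PosDef) (W : Finset (Fin j → ℝ)) (N : ℕ)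
    (hW : ∀ v : Fin j → ℝ, (W.filter (fun y => ∀ i, v i ≤ y i ∧ y i < v i + 1)).card ≤ N) :
    ∑ y ∈ W, ∫ v, (Bx j).indicator (fun _ => (1 : ℝ)) (v - y) * Real.exp (-q Θ v) ≤
      N * ∫ v, Real.exp (-q Θ v) := by
  obtain ⟨hi, -⟩ := gauss hΘ
  have m1 : ∀ w : Fin j → ℝ, Measurable (fun v : Fin j → ℝ =>
      (Bx j).indicator (fun _ => (1 : ℝ)) (v - w)) := fun w =>
    (measurable_const.indicator meas_Bx).comp (measurable_id.sub_const w)
  have hint : ∀ y ∈ W, Integrable (fun v => (Bx j).indicator (fun _ => (1 : ℝ)) (v - y) *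
      Real.exp (-q Θ v)) := by
    intro y _
    refine hi.bdd_mul (c := 1) (m1 y).aestronglyMeasurable (Filter.Eventually.of_forall fun v => ?_)
    by_cases hu : v - y ∈ Bx j
    · simp only [indicator_of_mem hu, norm_one]; exact le_refl _
    · simp only [indicator_of_notMem hu, norm_zero]; exact zero_le_one
  rw [← integral_finsetSum _ hint, ← integral_const_mul]
  refine integral_mono (integrable_finsetSum _ hint) (hi.const_mul _) fun v => ?_
  simp only
  rw [← Finset.sum_mul]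
  refine mul_le_mul_of_nonneg_right ?_ (Real.exp_pos _).le
  have hv := hW (fun i => v i - 1 / 2)
  have e : ∑ y ∈ W, (Bx j).indicator (fun _ => (1 : ℝ)) (v - y) ≤
      ((W.filter (fun y => ∀ i, v i - 1 / 2 ≤ y i ∧ y i < v i - 1 / 2 + 1)).card : ℝ) := by
    rw [Finset.card_filter]
    push_cast
    refine Finset.sum_le_sum fun y _ => ?_
    by_cases hu : v - y ∈ Bx j
    · rw [indicator_of_mem hu, if_pos]
      intro i
      have := hu i (mem_univ i)
      simp only [Pi.sub_apply, mem_Ioo] at this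
      constructor <;> linarith [this.1, this.2]
    · rw [indicator_of_notMem hu]
      split_ifs <;> norm_num
  exact e.trans (by exact_mod_cast hv)

end Theta

open scoped Classical in
theorem theta : ThetaB := by
  intro j Θ hΘ hle W N hW
  have h1 := Theta.upper hΘ W N hW
  have h2 : (∑ y ∈ W, Real.exp (-Theta.q Θ y)) * Real.exp (-(j / 4 : ℝ)) ≤
      N * ∫ v, Real.exp (-Theta.q Θ v) := by
    rw [Finset.sum_mul]
    exact (Finset.sum_le_sum fun y _ => Theta.lower hΘ hle y).trans h1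
  obtain ⟨-, h3⟩ := Theta.gauss hΘ
  have hs : 0 ≤ Real.sqrt Θ.det := Real.sqrt_nonneg _
  have h4 : (∑ y ∈ W, Real.exp (-Theta.q Θ y)) * Real.exp (-(j / 4 : ℝ)) * Real.sqrt Θ.det ≤
      N * (Real.sqrt Real.pi) ^ j := by
    rw [← h3, ← mul_assoc]
    exact mul_le_mul_of_nonneg_right h2 hs
  have hexp : Real.exp (j / 4 : ℝ) = Real.exp (1 / 4) ^ j := by
    rw [← Real.exp_nat_mul]
    congr 1
    ring
  have h5 : (∑ y ∈ W, Real.exp (-Theta.q Θ y)) * Real.sqrt Θ.det ≤
      N * (Real.exp (1 / 4) * Real.sqrt Real.pi) ^ j := by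
    rw [mul_pow, ← hexp]
    have e : (∑ y ∈ W, Real.exp (-Theta.q Θ y)) * Real.sqrt Θ.det =
        Real.exp (j / 4 : ℝ) * ((∑ y ∈ W, Real.exp (-Theta.q Θ y)) * Real.exp (-(j / 4 : ℝ)) *
          Real.sqrt Θ.det) := by
      rw [Real.exp_neg]
      have := (Real.exp_pos (j / 4 : ℝ)).ne'
      field_simp
    rw [e]
    calc _ ≤ Real.exp (j / 4 : ℝ) * (N * (Real.sqrt Real.pi) ^ j) := by gcongr
      _ = _ := by ring
  have h6 : Real.exp (1 / 4) * Real.sqrt Real.pi ≤ 4 := by
    have a1 : Real.exp (1 / 4) ≤ 2 := by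
      have : Real.exp (1 / 4) ≤ Real.exp 1 ^ (1 / 4 : ℝ) := by
        rw [← Real.exp_mul]
        simp
      have h2 : Real.exp (1 / 4) ≤ Real.exp (Real.log 2) := by
        apply Real.exp_le_exp.2
        have := Real.log_two_gt_d9
        linarith
      rwa [Real.exp_log (by norm_num)] at h2
    have a2 : Real.sqrt Real.pi ≤ 2 := by
      rw [Real.sqrt_le_left (by norm_num)]
      have := Real.pi_lt_four
      linarith
    have a3 := Real.sqrt_nonneg Real.pi
    calc Real.exp (1 / 4) * Real.sqrt Real.pi ≤ 2 * 2 := by gcongr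
      _ = 4 := by norm_num
  refine h5.trans ?_
  gcongr

end Pool.Agent.TH513.FR
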