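import Pool.Agent.TH513.FR.Defs

/-!
K1: the triangle kernel restricted to a subgroup is positive definite.
-/

namespace Pool.Agent.TH513.FR

namespace TriPD

open Finset

/-- one dimensional identity -/
theorem one_dim (R : ℕ) (m M a b : ℤ) (ha : m ≤ a) (hb : m ≤ b)
    (ha' : a + 2 * R ≤ M) (hb' : b + 2 * R ≤ M) :
    ∑ s ∈ Finset.Ico m M, (if a ≤ s ∧ s < a + 2 * R then (1 : ℝ) else 0) *
      (if b ≤ s ∧ s < b + 2 * R then (1 : ℝ) else 0)
      = max 0 (2 * (R : ℝ) - |((a - b : ℤ) : ℝ)|) := by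
  have h1 : ∀ s ∈ Finset.Ico m M, (if a ≤ s ∧ s < a + 2 * R then (1 : ℝ) else 0) *
      (if b ≤ s ∧ s < b + 2 * R then (1 : ℝ) else 0)
      = if (max a b ≤ s ∧ s < min a b + 2 * R) then (1 : ℝ) else 0 := by
    intro s _
    by_cases h : max a b ≤ s ∧ s < min a b + 2 * R
    · have h2 : a ≤ s ∧ s < a + 2 * R := by omega
      have h3 : b ≤ s ∧ s < b + 2 * R := by omega
      rw [if_pos h, if_pos h2, if_pos h3, mul_one]
    · rw [if_neg h]
      by_cases h2 : a ≤ s ∧ s < a + 2 * R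
      · have h3 : ¬ (b ≤ s ∧ s < b + 2 * R) := by omega
        rw [if_neg h3, mul_zero]
      · rw [if_neg h2, zero_mul]
  rw [Finset.sum_congr rfl h1, Finset.sum_boole]
  have h4 : (Finset.Ico m M).filter (fun s => max a b ≤ s ∧ s < min a b + 2 * R)
      = Finset.Ico (max a b) (min a b + 2 * R) := by
    ext s
    simp only [Finset.mem_filter, Finset.mem_Ico]
    omega
  rw [h4, Int.card_Ico]
  have h5 : (((min a b + 2 * (R : ℤ) - max a b).toNat : ℕ) : ℤ) = max 0 (2 * (R : ℤ) - |a - b|) := by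
    rcases le_total a b with h | h
    · rw [abs_of_nonpos (by omega)]; omega
    · rw [abs_of_nonneg (by omega)]; omega
  have h6 : (((min a b + 2 * (R : ℤ) - max a b).toNat : ℕ) : ℝ)
      = ((max 0 (2 * (R : ℤ) - |a - b|) : ℤ) : ℝ) := by
    exact_mod_cast congrArg (fun z : ℤ => (z : ℝ)) h5
  rw [h6]
  push_cast
  rfl

open scoped Classical in
theorem main : TriPDB := by
  intro d R hR Λ n c u
  have hR0 : (0 : ℝ) < 2 * (R : ℝ) := by
    have : (0 : ℝ) < (R : ℝ) := by exact_mod_cast hR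
    linarith
  -- bounds
  obtain ⟨B, hB⟩ : ∃ B : ℤ, ∀ i l, |u i l| ≤ B := by
    refine ⟨∑ i, ∑ l, |u i l|, fun i l => ?_⟩
    calc |u i l| ≤ ∑ l, |u i l| :=
          Finset.single_le_sum (f := fun l => |u i l|) (fun _ _ => abs_nonneg _) (Finset.mem_univ l)
      _ ≤ _ := Finset.single_le_sum (f := fun i => ∑ l, |u i l|)
          (fun i _ => Finset.sum_nonneg fun _ _ => abs_nonneg _) (Finset.mem_univ i)
  set m : ℤ := -B with hm
  set M : ℤ := B + 2 * R with hM
  set W : Finset (Fin d → ℤ) := Fintype.piFinset fun _ : Fin d => Finset.Ico m M with hW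
  set qq : (Fin d → ℤ) → ((Fin d → ℤ) ⧸ Λ) := fun x => (QuotientAddGroup.mk x) with hqq
  set Cl : Finset ((Fin d → ℤ) ⧸ Λ) := Finset.univ.image (fun i => qq (u i)) with hCl
  let A : Fin n → (Fin d → ℤ) → ℝ := fun i s =>
    ∏ l, (if u i l ≤ s l ∧ s l < u i l + 2 * R then (1 : ℝ) else 0)
  let D : Fin n → ((Fin d → ℤ) ⧸ Λ) → ℝ := fun i e => if qq (u i) = e then (1 : ℝ) else 0
  have hclass : ∀ i j, (∑ e ∈ Cl, D i e * D j e) = if u i - u j ∈ Λ then (1 : ℝ) else 0 := by
    intro i j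
    have h1 : ∀ e ∈ Cl, D i e * D j e = if e = qq (u i) then D j (qq (u i)) else 0 := by
      intro e _
      by_cases h : e = qq (u i)
      · subst h
        simp [D]
      · rw [if_neg h]
        have : D i e = 0 := by
          simp only [D]
          rw [if_neg (fun h' => h h'.symm)]
        rw [this, zero_mul]
    rw [Finset.sum_congr rfl h1, Finset.sum_ite_eq' Cl (qq (u i)) (fun _ => D j (qq (u i)))]
    rw [if_pos (by rw [hCl]; exact Finset.mem_image_of_mem _ (Finset.mem_univ i))]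
    simp only [D]
    have h2 : (qq (u j) = qq (u i)) ↔ u i - u j ∈ Λ := by
      rw [hqq]
      simp only
      rw [QuotientAddGroup.eq]
      constructor
      · intro h; rwa [neg_add_eq_sub] at h
      · intro h; rwa [neg_add_eq_sub]
    by_cases h3 : u i - u j ∈ Λ
    · rw [if_pos h3, if_pos (h2.2 h3)]
    · rw [if_neg h3, if_neg (fun h => h3 (h2.1 h))]
  have hprod : ∀ i j, (∑ s ∈ W, A i s * A j s)
      = (2 * (R : ℝ)) ^ d * ∏ l, max 0 (1 - |(((u i - u j) l : ℤ) : ℝ)| / (2 * R)) := by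
    intro i j
    have h1 : ∀ s, A i s * A j s = ∏ l, ((if u i l ≤ s l ∧ s l < u i l + 2 * R then (1 : ℝ) else 0) *
        (if u j l ≤ s l ∧ s l < u j l + 2 * R then (1 : ℝ) else 0)) := by
      intro s
      simp only [A]
      rw [Finset.prod_mul_distrib]
    simp only [h1]
    rw [hW, ← Finset.prod_univ_sum (fun _ : Fin d => Finset.Ico m M)
      (fun (l : Fin d) (s : ℤ) => (if u i l ≤ s ∧ s < u i l + 2 * R then (1 : ℝ) else 0) *
        (if u j l ≤ s ∧ s < u j l + 2 * R then (1 : ℝ) else 0))]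
    have h2 : ∀ l, (∑ s ∈ Finset.Ico m M, (if u i l ≤ s ∧ s < u i l + 2 * R then (1 : ℝ) else 0) *
        (if u j l ≤ s ∧ s < u j l + 2 * R then (1 : ℝ) else 0))
        = (2 * (R : ℝ)) * max 0 (1 - |(((u i - u j) l : ℤ) : ℝ)| / (2 * R)) := by
      intro l
      have hi := abs_le.1 (hB i l)
      have hj := abs_le.1 (hB j l)
      rw [one_dim R m M (u i l) (u j l) (by omega) (by omega) (by omega) (by omega)]
      rw [mul_max_of_nonneg _ _ hR0.le, mul_zero, mul_sub, mul_one, mul_div_cancel₀ _ hR0.ne']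
      rfl
    rw [Finset.prod_congr rfl fun l _ => h2 l, Finset.prod_mul_distrib, Finset.prod_const,
      Finset.card_univ, Fintype.card_fin]
  have hP : (0 : ℝ) < (2 * (R : ℝ)) ^ d := pow_pos hR0 d
  have htri : ∀ i j, c i * c j * tri Λ R (u i - u j)
      = ((2 * (R : ℝ)) ^ d)⁻¹ * ∑ s ∈ W, ∑ e ∈ Cl, (c i * A i s * D i e) * (c j * A j s * D j e) := by
    intro i j
    have h1 : ∑ s ∈ W, ∑ e ∈ Cl, (c i * A i s * D i e) * (c j * A j s * D j e)
        = c i * c j * ((∑ s ∈ W, A i s * A j s) * (∑ e ∈ Cl, D i e * D j e)) := by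
      rw [Finset.sum_mul_sum, Finset.mul_sum]
      refine Finset.sum_congr rfl fun s _ => ?_
      rw [Finset.mul_sum]
      refine Finset.sum_congr rfl fun e _ => ?_
      ring
    rw [h1, hprod, hclass]
    unfold tri
    by_cases h : u i - u j ∈ Λ
    · rw [if_pos h, if_pos h, mul_one]
      field_simp
    · rw [if_neg h, if_neg h]
      ring
  have hall : ∑ i, ∑ j, c i * c j * tri Λ R (u i - u j)
      = ((2 * (R : ℝ)) ^ d)⁻¹ * ∑ s ∈ W, ∑ e ∈ Cl, (∑ i, c i * A i s * D i e) ^ 2 := by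
    simp only [htri]
    simp only [← Finset.mul_sum]
    congr 1
    calc ∑ i, ∑ j, ∑ s ∈ W, ∑ e ∈ Cl, (c i * A i s * D i e) * (c j * A j s * D j e)
        = ∑ i, ∑ s ∈ W, ∑ j, ∑ e ∈ Cl, (c i * A i s * D i e) * (c j * A j s * D j e) :=
          Finset.sum_congr rfl fun i _ => Finset.sum_comm
      _ = ∑ s ∈ W, ∑ i, ∑ j, ∑ e ∈ Cl, (c i * A i s * D i e) * (c j * A j s * D j e) :=
          Finset.sum_comm
      _ = ∑ s ∈ W, ∑ i, ∑ e ∈ Cl, ∑ j, (c i * A i s * D i e) * (c j * A j s * D j e) :=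
          Finset.sum_congr rfl fun s _ => Finset.sum_congr rfl fun i _ => Finset.sum_comm
      _ = ∑ s ∈ W, ∑ e ∈ Cl, ∑ i, ∑ j, (c i * A i s * D i e) * (c j * A j s * D j e) :=
          Finset.sum_congr rfl fun s _ => Finset.sum_comm
      _ = ∑ s ∈ W, ∑ e ∈ Cl, (∑ i, c i * A i s * D i e) ^ 2 :=
          Finset.sum_congr rfl fun s _ => Finset.sum_congr rfl fun e _ => by
            rw [sq, Finset.sum_mul_sum]
  rw [hall]
  refine mul_nonneg (inv_nonneg.2 hP.le) ?_
  exact Finset.sum_nonneg fun s _ => Finset.sum_nonneg fun e _ => sq_nonneg _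

end TriPD

theorem triPD : TriPDB := TriPD.main

end Pool.Agent.TH513.FR
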