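import Pool.Agent.TH513.FR.Defs

/-!
L3: reduction modulo a lower triangular integer matrix with positive diagonal.
-/

set_option autoImplicit false

namespace Pool.Agent.TH513.FR

theorem TriReduce.last_eq {j : ℕ} (T : Fin (j + 1) → Fin (j + 1) → ℤ)
    (hT : ∀ i k, i < k → T i k = 0) (a : Fin (j + 1) → ℤ) :
    ∑ i, a i * T i (Fin.last j) = a (Fin.last j) * T (Fin.last j) (Fin.last j) := by
  rw [Fin.sum_univ_castSucc]
  have h : ∑ i : Fin j, a i.castSucc * T i.castSucc (Fin.last j) = 0 :=
    Finset.sum_eq_zero fun i _ => by rw [hT _ _ (Fin.castSucc_lt_last i), mul_zero]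
  rw [h, zero_add]

theorem triReduce : TriReduceB := by
  intro j
  induction j with
  | zero =>
    intro T _ _
    refine ⟨fun η => ⟨fun i => i.elim0, fun i => i.elim0, fun i => i.elim0, fun k => k.elim0⟩, ?_⟩
    intro a ρ ρ' _ _ _
    exact ⟨Subsingleton.elim _ _, Subsingleton.elim _ _⟩
  | succ j ih =>
    intro T hd hT
    obtain ⟨ih1, ih2⟩ := ih (fun i k => T i.castSucc k.castSucc) (fun i => hd i.castSucc)
      (fun i k hik => hT _ _ (Fin.castSucc_lt_castSucc_iff.2 hik))
    have hl : 1 ≤ T (Fin.last j) (Fin.last j) := hd (Fin.last j)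
    constructor
    · intro η
      obtain ⟨a, ρ, h1, h2⟩ := ih1 (fun k => η k.castSucc -
        η (Fin.last j) / T (Fin.last j) (Fin.last j) * T (Fin.last j) k.castSucc)
      refine ⟨Fin.snoc (α := fun _ => ℤ) a (η (Fin.last j) / T (Fin.last j) (Fin.last j)),
        Fin.snoc (α := fun _ => ℤ) ρ (η (Fin.last j) % T (Fin.last j) (Fin.last j)), ?_, ?_⟩
      · intro i
        refine Fin.lastCases ?_ (fun i => ?_) i
        · rw [Fin.snoc_last]
          exact ⟨Int.emod_nonneg _ (by omega), Int.emod_lt_of_pos _ (by omega)⟩
        · rw [Fin.snoc_castSucc]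
          exact h1 i
      · intro k
        refine Fin.lastCases ?_ (fun k => ?_) k
        · rw [TriReduce.last_eq T hT, Fin.snoc_last, Fin.snoc_last, mul_comm]
          exact (Int.emod_add_mul_ediv _ _).symm
        · rw [Fin.sum_univ_castSucc, Fin.snoc_last, Fin.snoc_castSucc]
          have h3 := h2 k
          simp only [Fin.snoc_castSucc]
          linarith
    · intro a ρ ρ' h1 h2 h3
      have hal : a (Fin.last j) = 0 := by
        have h4 := h3 (Fin.last j)
        rw [TriReduce.last_eq T hT] at h4
        have h5 := h1 (Fin.last j)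
        have h6 := h2 (Fin.last j)
        by_contra hne
        rcases lt_or_gt_of_ne hne with h7 | h7
        · have : a (Fin.last j) * T (Fin.last j) (Fin.last j) ≤ -T (Fin.last j) (Fin.last j) := by
            nlinarith
          omega
        · have : T (Fin.last j) (Fin.last j) ≤ a (Fin.last j) * T (Fin.last j) (Fin.last j) := by
            nlinarith
          omega
      have hρl : ρ (Fin.last j) = ρ' (Fin.last j) := by
        have h4 := h3 (Fin.last j)
        rw [TriReduce.last_eq T hT, hal, zero_mul] at h4
        omega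
      obtain ⟨h8, h9⟩ := ih2 (fun i => a i.castSucc) (fun i => ρ i.castSucc)
        (fun i => ρ' i.castSucc) (fun i => h1 _) (fun i => h2 _) (fun k => by
          have h4 := h3 k.castSucc
          rw [Fin.sum_univ_castSucc, hal, zero_mul, add_zero] at h4
          exact h4)
      constructor
      · funext i
        refine Fin.lastCases hal (fun i => ?_) i
        exact congrFun h8 i
      · funext i
        refine Fin.lastCases hρl (fun i => ?_) i
        exact congrFun h9 i

end Pool.Agent.TH513.FR
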