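import Pool.Agent.TH513.FR.Defs

/-!
# L4: the union bound over lattices
-/

namespace Pool.Agent.TH513.FR.Union

open Finset

/-- columns -/
lemma zcol (j H : ℕ) (T : Fin j → Fin j → ℤ) (h : Fin j → ℕ) (hT : ∀ i, T i i = h i)
    (h1 : ∀ i, 1 ≤ h i) (h2 : ∀ i k, i < k → T i k = 0) :
    ∃ Z : Finset (Fin j → ℤ), (∀ ζ : Fin j → ℤ, (∀ i, |∑ k, T i k * ζ k| ≤ (H : ℤ)) → ζ ∈ Z) ∧
      Z.card ≤ ∏ i, (2 * H / h i + 1) := by
  classical
  set S : Set (Fin j → ℤ) := {ζ | ∀ i, |∑ k, T i k * ζ k| ≤ (H : ℤ)} with hS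
  let φ : (Fin j → ℤ) → (Fin j → ℕ) := fun ζ i => ((∑ k, T i k * ζ k + H) / (h i : ℤ)).toNat
  set W : Finset (Fin j → ℕ) := Fintype.piFinset fun i => Finset.range (2 * H / h i + 1) with hW
  have hh : ∀ i, (0 : ℤ) < h i := fun i => by exact_mod_cast h1 i
  have hnn : ∀ ζ ∈ S, ∀ i, 0 ≤ (∑ k, T i k * ζ k + H) / (h i : ℤ) := by
    intro ζ hζ i
    have := abs_le.1 (hζ i)
    exact Int.ediv_nonneg (by linarith) (hh i).le
  have hmaps : ∀ ζ ∈ S, φ ζ ∈ W := by
    intro ζ hζ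
    rw [hW, Fintype.mem_piFinset]
    intro i
    rw [Finset.mem_range, Nat.lt_succ_iff]
    have h3 := abs_le.1 (hζ i)
    have h4 : (∑ k, T i k * ζ k + H) / (h i : ℤ) ≤ ((2 * H / h i : ℕ) : ℤ) := by
      push_cast
      exact Int.ediv_le_ediv (hh i) (by linarith)
    have h5 := Int.toNat_le_toNat h4
    rwa [Int.toNat_natCast] at h5
  have hinj : Set.InjOn φ S := by
    intro ζ hζ ζ' hζ' he
    have key : ∀ n : ℕ, ∀ i : Fin j, (i : ℕ) = n → ζ i = ζ' i := by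
      intro n
      induction n using Nat.strong_induction_on with
      | _ n ih =>
        intro i hi
        have e1 : (∑ k, T i k * ζ k + H) / (h i : ℤ) = (∑ k, T i k * ζ' k + H) / (h i : ℤ) := by
          have e2 : φ ζ i = φ ζ' i := congrFun he i
          have e3 := congrArg (fun n : ℕ => (n : ℤ)) e2
          simp only [φ] at e3
          rwa [Int.toNat_of_nonneg (hnn ζ hζ i), Int.toNat_of_nonneg (hnn ζ' hζ' i)] at e3
        have e4 : ∑ k, T i k * ζ k - ∑ k, T i k * ζ' k = (h i : ℤ) * (ζ i - ζ' i) := by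
          rw [← Finset.sum_sub_distrib, Finset.sum_eq_single i]
          · rw [hT]; ring
          · intro k _ hk
            rcases lt_or_gt_of_ne hk with hlt | hgt
            · rw [ih k (by rw [← hi]; exact hlt) k rfl]; ring
            · rw [h2 i k hgt]; ring
          · intro hne
            exact absurd (Finset.mem_univ i) hne
        have e5 : ∑ k, T i k * ζ k + H = (∑ k, T i k * ζ' k + H) + (h i : ℤ) * (ζ i - ζ' i) := by
          linarith
        rw [e5, Int.add_mul_ediv_left _ _ (hh i).ne'] at e1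
        linarith
    funext i
    exact key _ i rfl
  have hfin : S.Finite := by
    refine Set.Finite.of_injOn (f := φ) (t := (W : Set (Fin j → ℕ))) ?_ hinj W.finite_toSet
    intro ζ hζ
    exact Finset.mem_coe.2 (hmaps ζ hζ)
  refine ⟨hfin.toFinset, fun ζ hζ => hfin.mem_toFinset.2 hζ, ?_⟩
  have h6 : hfin.toFinset.card ≤ W.card := by
    apply Finset.card_le_card_of_injOn φ
    · intro ζ hζ
      exact hmaps ζ (hfin.mem_toFinset.1 hζ)
    · intro ζ hζ ζ' hζ' he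
      exact hinj (hfin.mem_toFinset.1 hζ) (hfin.mem_toFinset.1 hζ') he
  refine h6.trans (le_of_eq ?_)
  rw [hW, Fintype.card_piFinset]
  simp

/-- matrices -/
lemma zmat (j d H : ℕ) (T : Fin j → Fin j → ℤ) (h : Fin j → ℕ) (hT : ∀ i, T i i = h i)
    (h1 : ∀ i, 1 ≤ h i) (h2 : ∀ i k, i < k → T i k = 0) :
    ∃ Z : Finset (Fin j → Fin d → ℤ),
      (∀ z : Fin j → Fin d → ℤ, (∀ i l, |∑ k, T i k * z k l| ≤ (H : ℤ)) → z ∈ Z) ∧
      Z.card ≤ (∏ i, (2 * H / h i + 1)) ^ d := by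
  classical
  obtain ⟨Z, hZ, hc⟩ := zcol j H T h hT h1 h2
  refine ⟨(Fintype.piFinset fun _ : Fin d => Z).image (fun c i l => c l i), ?_, ?_⟩
  · intro z hz
    rw [Finset.mem_image]
    refine ⟨fun l i => z i l, ?_, rfl⟩
    rw [Fintype.mem_piFinset]
    intro l
    exact hZ _ fun i => hz i l
  · refine Finset.card_image_le.trans ?_
    rw [Fintype.card_piFinset]
    simp only [Finset.prod_const, Finset.card_univ, Fintype.card_fin]
    exact Nat.pow_le_pow_left hc d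

/-- the parameters `t` for a fixed triangular matrix -/
lemma badT (d j H q : ℕ) [NeZero q]
    (hcard : ∀ x : Fin j → Fin d → ℤ, (∀ i l, |x i l| ≤ (H : ℤ)) →
      LinearIndependent ℚ (fun i => qv (x i)) →
      Nat.card {t : Fin d → ZMod q // ∀ i, ∑ l, t l * ((x i l : ℤ) : ZMod q) = 0} * q ^ j = q ^ d)
    (T : Fin j → Fin j → ℤ) (h : Fin j → ℕ) (hT : ∀ i, T i i = h i)
    (h1 : ∀ i, 1 ≤ h i) (h2 : ∀ i k, i < k → T i k = 0) (B : Finset (Fin d → ZMod q))
    (hB : ∀ t ∈ B, ∃ x z : Fin j → Fin d → ℤ, LinearIndependent ℚ (fun i => qv (x i)) ∧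
      (∀ i l, |x i l| ≤ (H : ℤ)) ∧ (∀ i, ∑ l, t l * ((x i l : ℤ) : ZMod q) = 0) ∧
      (∀ i, x i = ∑ k, T i k • z k)) :
    B.card * q ^ j ≤ (∏ i, (2 * H / h i + 1)) ^ d * q ^ d := by
  classical
  obtain ⟨Z, hZ, hc⟩ := zmat j d H T h hT h1 h2
  let X : (Fin j → Fin d → ℤ) → Fin j → Fin d → ℤ := fun z i => ∑ k, T i k • z k
  let Z' := Z.filter fun z => LinearIndependent ℚ (fun i => qv (X z i)) ∧
    ∀ i l, |X z i l| ≤ (H : ℤ)
  have hsub : B ⊆ Z'.biUnion fun z =>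
      Finset.univ.filter fun t : Fin d → ZMod q => ∀ i, ∑ l, t l * ((X z i l : ℤ) : ZMod q) = 0 := by
    intro t ht
    obtain ⟨x, z, hx1, hx2, hx3, hx4⟩ := hB t ht
    have hxX : x = X z := by funext i; exact hx4 i
    subst hxX
    rw [Finset.mem_biUnion]
    refine ⟨z, ?_, ?_⟩
    · rw [Finset.mem_filter]
      refine ⟨hZ z ?_, hx1, hx2⟩
      intro i l
      have := hx2 i l
      simpa [X, Finset.sum_apply] using this
    · rw [Finset.mem_filter]
      exact ⟨Finset.mem_univ _, hx3⟩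
  have h3 : ∀ z ∈ Z', (Finset.univ.filter fun t : Fin d → ZMod q =>
      ∀ i, ∑ l, t l * ((X z i l : ℤ) : ZMod q) = 0).card * q ^ j = q ^ d := by
    intro z hz
    have hz' := (Finset.mem_filter.1 hz).2
    have := hcard (X z) hz'.2 hz'.1
    rw [← this, Nat.card_eq_fintype_card, Fintype.card_subtype]
  calc B.card * q ^ j ≤ (∑ z ∈ Z', (Finset.univ.filter fun t : Fin d → ZMod q =>
      ∀ i, ∑ l, t l * ((X z i l : ℤ) : ZMod q) = 0).card) * q ^ j := by
        gcongr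
        exact (Finset.card_le_card hsub).trans Finset.card_biUnion_le
    _ = ∑ z ∈ Z', q ^ d := by
        rw [Finset.sum_mul]
        exact Finset.sum_congr rfl h3
    _ = Z'.card * q ^ d := by rw [Finset.sum_const, smul_eq_mul]
    _ ≤ (∏ i, (2 * H / h i + 1)) ^ d * q ^ d := by
        gcongr
        exact (Finset.card_filter_le _ _).trans hc

/-- the sum of the inverse squares -/
lemma invsq (B : ℕ) : ∑ h ∈ Finset.Icc 1 B, (1 / (h : ℝ) ^ 2) ≤ 2 := by
  have key : ∀ B : ℕ, 1 ≤ B → ∑ h ∈ Finset.Icc 1 B, (1 / (h : ℝ) ^ 2) ≤ 2 - 1 / (B : ℝ) := by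
    intro B hB
    induction B, hB using Nat.le_induction with
    | base => norm_num
    | succ n hn ih =>
      rw [Finset.sum_Icc_succ_top (by omega)]
      have hn' : (0 : ℝ) < n := by exact_mod_cast hn
      have e : (1 : ℝ) / ((n + 1 : ℕ) : ℝ) ^ 2 ≤ 1 / n - 1 / ((n + 1 : ℕ) : ℝ) := by
        push_cast
        rw [div_sub_div _ _ hn'.ne' (by positivity), div_le_div_iff₀ (by positivity) (by positivity)]
        nlinarith
      linarith
  rcases Nat.eq_zero_or_pos B with rfl | hB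
  · simp
  · have := key B hB
    have h2 : (0 : ℝ) ≤ 1 / (B : ℝ) := by positivity
    linarith

/-- the triangular matrix of a code -/
def TT {j : ℕ} (h : Fin j → ℕ) (U : Fin j → Fin j → ℕ) (i k : Fin j) : ℤ :=
  if k < i then (U i k : ℤ) else if k = i then (h i : ℤ) else 0

lemma card_Us (j : ℕ) (h : Fin j → ℕ) :
    (Fintype.piFinset fun i : Fin j => Fintype.piFinset fun k : Fin j =>
      if k < i then Finset.range (h i) else {0}).card = ∏ i, h i ^ (i : ℕ) := by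
  classical
  rw [Fintype.card_piFinset]
  apply Finset.prod_congr rfl
  intro i _
  rw [Fintype.card_piFinset]
  have e : ∀ k : Fin j, (if k < i then Finset.range (h i) else ({0} : Finset ℕ)).card
      = if k < i then h i else 1 := by
    intro k
    split_ifs <;> simp
  rw [Finset.prod_congr rfl fun k _ => e k, Finset.prod_ite]
  simp only [Finset.prod_const, one_pow, mul_one]
  congr 1
  have : (Finset.univ.filter fun k : Fin j => k < i) = Finset.Iio i := by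
    ext k; simp
  rw [this, Fin.card_Iio]

/-- the estimate of one term -/
lemma term (d j H L a : ℕ) (hL : 1 ≤ L) (ha : ∀ i : Fin j, (i : ℕ) + a + 2 ≤ d) (h : Fin j → ℕ)
    (h1 : ∀ i, 1 ≤ h i) (hH : ∀ i, h i ≤ H) (hLh : L ^ j ≤ ∏ i, h i) :
    ((∏ i, h i ^ (i : ℕ) : ℕ) : ℝ) * (((∏ i, (2 * H / h i + 1)) ^ d : ℕ) : ℝ)
      ≤ (3 * (H : ℝ)) ^ (j * d) / (L : ℝ) ^ (j * a) * ∏ i, (1 / (h i : ℝ) ^ 2) := by
  have hp : ∀ i, (0 : ℝ) < h i := fun i => by exact_mod_cast h1 i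
  have hL0 : (0 : ℝ) < L := by exact_mod_cast hL
  set D : ℝ := ∏ i, (h i : ℝ) with hD
  have hD0 : 0 < D := Finset.prod_pos fun i _ => hp i
  have e1 : ((∏ i, (2 * H / h i + 1) : ℕ) : ℝ) ≤ (3 * (H : ℝ)) ^ j / D := by
    have e0 : (3 * (H : ℝ)) ^ j / D = ∏ i : Fin j, (3 * (H : ℝ)) / (h i : ℝ) := by
      rw [Finset.prod_div_distrib, Finset.prod_const, Finset.card_univ, Fintype.card_fin]
    rw [e0]
    push_cast
    apply Finset.prod_le_prod
    · intro i _; positivity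
    · intro i _
      rw [le_div_iff₀ (hp i)]
      have e2 : (((2 * H / h i : ℕ)) : ℝ) * h i ≤ 2 * H := by
        have := Nat.div_mul_le_self (2 * H) (h i)
        exact_mod_cast this
      have e3 : (h i : ℝ) ≤ H := by exact_mod_cast hH i
      have e4 : ((2 * H / h i : ℕ) : ℝ) + 1 = ((2 * H / h i + 1 : ℕ) : ℝ) := by push_cast; ring
      nlinarith
  have e2 : (L : ℝ) ^ (j * a) ≤ D ^ a := by
    rw [pow_mul]
    have : (L : ℝ) ^ j ≤ D := by rw [hD]; exact_mod_cast hLh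
    exact pow_le_pow_left₀ (by positivity) this a
  have e3 : ((∏ i, h i ^ (i : ℕ) : ℕ) : ℝ) * D ^ a / D ^ d ≤ ∏ i, (1 / (h i : ℝ) ^ 2) := by
    rw [hD, ← Finset.prod_pow, ← Finset.prod_pow]
    push_cast
    rw [← Finset.prod_mul_distrib, ← Finset.prod_div_distrib]
    apply Finset.prod_le_prod
    · intro i _; positivity
    · intro i _
      have hpi := hp i
      rw [div_le_div_iff₀ (by positivity) (by positivity), ← pow_add, ← pow_add, one_mul]
      exact pow_le_pow_right₀ (by exact_mod_cast h1 i) (ha i)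
  have e4 : (((∏ i, (2 * H / h i + 1)) ^ d : ℕ) : ℝ) ≤ (3 * (H : ℝ)) ^ (j * d) / D ^ d := by
    rw [pow_mul, ← div_pow]
    push_cast
    have := pow_le_pow_left₀ (by positivity) e1 d
    push_cast at this
    exact this
  calc ((∏ i, h i ^ (i : ℕ) : ℕ) : ℝ) * (((∏ i, (2 * H / h i + 1)) ^ d : ℕ) : ℝ)
      ≤ ((∏ i, h i ^ (i : ℕ) : ℕ) : ℝ) * ((3 * (H : ℝ)) ^ (j * d) / D ^ d) := by gcongr
    _ ≤ ((∏ i, h i ^ (i : ℕ) : ℕ) : ℝ) * ((3 * (H : ℝ)) ^ (j * d) / D ^ d)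
        * (D ^ a / (L : ℝ) ^ (j * a)) := by
        apply le_mul_of_one_le_right (by positivity)
        rw [le_div_iff₀ (by positivity), one_mul]
        exact e2
    _ = (3 * (H : ℝ)) ^ (j * d) / (L : ℝ) ^ (j * a) *
        (((∏ i, h i ^ (i : ℕ) : ℕ) : ℝ) * D ^ a / D ^ d) := by ring
    _ ≤ _ := by gcongr

/-- the parameters which are bad for a given `j` -/
lemma badj (d j H L q B : ℕ) [NeZero q] (hL : 1 ≤ L)
    (ha : ∀ i : Fin j, (i : ℕ) + d / 2 + 2 ≤ d) (hBH : B ≤ H)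
    (hcard : ∀ x : Fin j → Fin d → ℤ, (∀ i l, |x i l| ≤ (H : ℤ)) →
      LinearIndependent ℚ (fun i => qv (x i)) →
      Nat.card {t : Fin d → ZMod q // ∀ i, ∑ l, t l * ((x i l : ℤ) : ZMod q) = 0} * q ^ j = q ^ d)
    (Bad : Finset (Fin d → ZMod q))
    (hBad : ∀ t ∈ Bad, ∃ (x z : Fin j → Fin d → ℤ) (T : Fin j → Fin j → ℤ),
      LinearIndependent ℚ (fun i => qv (x i)) ∧ (∀ i l, |x i l| ≤ (H : ℤ)) ∧
      (∀ i, ∑ l, t l * ((x i l : ℤ) : ZMod q) = 0) ∧
      (∀ i, 1 ≤ T i i) ∧ (∀ i k, k < i → 0 ≤ T i k ∧ T i k < T i i) ∧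
      (∀ i k, i < k → T i k = 0) ∧ (∀ i, x i = ∑ k, T i k • z k) ∧
      (∏ i, T i i) ≤ (B : ℤ) ∧ (L : ℤ) ^ j < ∏ i, T i i) :
    (Bad.card : ℝ) * (q : ℝ) ^ j ≤
      (3 * (H : ℝ)) ^ (j * d) / (L : ℝ) ^ (j * (d / 2)) * 2 ^ j * (q : ℝ) ^ d := by
  classical
  let C : (Fin j → ℕ) → (Fin j → Fin j → ℕ) → (Fin d → ZMod q) → Prop := fun h U t =>
    ∃ x z : Fin j → Fin d → ℤ, LinearIndependent ℚ (fun i => qv (x i)) ∧
      (∀ i l, |x i l| ≤ (H : ℤ)) ∧ (∀ i, ∑ l, t l * ((x i l : ℤ) : ZMod q) = 0) ∧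
      (∀ i, x i = ∑ k, TT h U i k • z k)
  let Hs : Finset (Fin j → ℕ) := (Fintype.piFinset fun _ : Fin j => Finset.Icc 1 B).filter
    fun h => L ^ j < ∏ i, h i
  let Us : (Fin j → ℕ) → Finset (Fin j → Fin j → ℕ) := fun h =>
    Fintype.piFinset fun i : Fin j => Fintype.piFinset fun k : Fin j =>
      if k < i then Finset.range (h i) else {0}
  have hsub : Bad ⊆ Hs.biUnion fun h => (Us h).biUnion fun U => Bad.filter (C h U) := by
    intro t ht
    obtain ⟨x, z, T, hx1, hx2, hx3, hT1, hT2, hT3, hx4, hT4, hT5⟩ := hBad t ht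
    let h : Fin j → ℕ := fun i => (T i i).toNat
    let U : Fin j → Fin j → ℕ := fun i k => if k < i then (T i k).toNat else 0
    have hh : ∀ i, (h i : ℤ) = T i i := fun i => Int.toNat_of_nonneg (by have := hT1 i; omega)
    have hh1 : ∀ i, 1 ≤ h i := by
      intro i
      have h6 := hh i
      have h7 := hT1 i
      omega
    have hTT : ∀ i k, TT h U i k = T i k := by
      intro i k
      unfold TT
      split_ifs with h6 h7
      · have h8 : ((T i k).toNat : ℤ) = T i k := Int.toNat_of_nonneg (hT2 i k h6).1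
        simp only [U, if_pos h6]
        exact h8
      · subst h7; exact hh k
      · rw [hT3 i k (lt_of_le_of_ne (not_lt.1 h6) (Ne.symm h7))]
    have hprod : ((∏ i, h i : ℕ) : ℤ) = ∏ i, T i i := by
      push_cast
      exact Finset.prod_congr rfl fun i _ => hh i
    have hpB : (∏ i, h i) ≤ B := by
      have : ((∏ i, h i : ℕ) : ℤ) ≤ B := by rw [hprod]; exact hT4
      exact_mod_cast this
    rw [Finset.mem_biUnion]
    refine ⟨h, ?_, ?_⟩
    · rw [Finset.mem_filter, Fintype.mem_piFinset]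
      refine ⟨fun i => ?_, ?_⟩
      · rw [Finset.mem_Icc]
        refine ⟨hh1 i, le_trans ?_ hpB⟩
        exact Nat.le_of_dvd (Finset.prod_pos fun i _ => hh1 i)
          (Finset.dvd_prod_of_mem h (Finset.mem_univ i))
      · have : (L : ℤ) ^ j < ((∏ i, h i : ℕ) : ℤ) := by rw [hprod]; exact hT5
        exact_mod_cast this
    · rw [Finset.mem_biUnion]
      refine ⟨U, ?_, ?_⟩
      · rw [Fintype.mem_piFinset]
        intro i
        rw [Fintype.mem_piFinset]
        intro k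
        by_cases h6 : k < i
        · rw [if_pos h6, Finset.mem_range]
          have h7 := hT2 i k h6
          simp only [U, if_pos h6]
          have h8 := hh i
          have h9 : ((T i k).toNat : ℤ) = T i k := Int.toNat_of_nonneg h7.1
          omega
        · rw [if_neg h6, Finset.mem_singleton]
          simp only [U, if_neg h6]
      · rw [Finset.mem_filter]
        refine ⟨ht, x, z, hx1, hx2, hx3, fun i => ?_⟩
        rw [hx4 i]
        exact Finset.sum_congr rfl fun k _ => by rw [hTT]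
  have hone : ∀ h ∈ Hs, ∀ U ∈ Us h,
      (Bad.filter (C h U)).card * q ^ j ≤ (∏ i, (2 * H / h i + 1)) ^ d * q ^ d := by
    intro h hh U _
    have hh' := (Finset.mem_filter.1 hh).1
    rw [Fintype.mem_piFinset] at hh'
    apply badT d j H q hcard (TT h U) h
    · intro i; simp [TT]
    · intro i; exact (Finset.mem_Icc.1 (hh' i)).1
    · intro i k hik
      unfold TT
      rw [if_neg (not_lt.2 hik.le), if_neg hik.ne']
    · intro t ht
      exact (Finset.mem_filter.1 ht).2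
  have hsum : Bad.card * q ^ j ≤
      ∑ h ∈ Hs, (∏ i, h i ^ (i : ℕ)) * ((∏ i, (2 * H / h i + 1)) ^ d * q ^ d) := by
    calc Bad.card * q ^ j ≤ (∑ h ∈ Hs, ∑ U ∈ Us h, (Bad.filter (C h U)).card) * q ^ j := by
          gcongr
          refine (Finset.card_le_card hsub).trans (Finset.card_biUnion_le.trans ?_)
          exact Finset.sum_le_sum fun h _ => Finset.card_biUnion_le
      _ = ∑ h ∈ Hs, ∑ U ∈ Us h, (Bad.filter (C h U)).card * q ^ j := by
          rw [Finset.sum_mul]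
          exact Finset.sum_congr rfl fun h _ => Finset.sum_mul _ _ _
      _ ≤ ∑ h ∈ Hs, ∑ U ∈ Us h, (∏ i, (2 * H / h i + 1)) ^ d * q ^ d :=
          Finset.sum_le_sum fun h hh => Finset.sum_le_sum fun U hU => hone h hh U hU
      _ = _ := by
          apply Finset.sum_congr rfl
          intro h _
          rw [Finset.sum_const, smul_eq_mul, card_Us]
  have hreal : (Bad.card : ℝ) * (q : ℝ) ^ j ≤
      ∑ h ∈ Hs, (((∏ i, h i ^ (i : ℕ) : ℕ) : ℝ) * (((∏ i, (2 * H / h i + 1)) ^ d : ℕ) : ℝ))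
        * (q : ℝ) ^ d := by
    have := (Nat.cast_le (α := ℝ)).2 hsum
    rw [Nat.cast_mul, Nat.cast_pow, Nat.cast_sum] at this
    refine this.trans (le_of_eq ?_)
    apply Finset.sum_congr rfl
    intro h _
    rw [Nat.cast_mul, Nat.cast_mul, Nat.cast_pow q]
    ring
  refine hreal.trans ?_
  rw [← Finset.sum_mul]
  gcongr
  calc ∑ h ∈ Hs, (((∏ i, h i ^ (i : ℕ) : ℕ) : ℝ) * (((∏ i, (2 * H / h i + 1)) ^ d : ℕ) : ℝ))
      ≤ ∑ h ∈ Hs, (3 * (H : ℝ)) ^ (j * d) / (L : ℝ) ^ (j * (d / 2)) *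
          ∏ i, (1 / (h i : ℝ) ^ 2) := by
        apply Finset.sum_le_sum
        intro h hh
        have hh' := (Finset.mem_filter.1 hh)
        rw [Fintype.mem_piFinset] at hh'
        exact term d j H L (d / 2) hL ha h (fun i => (Finset.mem_Icc.1 (hh'.1 i)).1)
          (fun i => (Finset.mem_Icc.1 (hh'.1 i)).2.trans hBH) hh'.2.le
    _ ≤ ∑ h ∈ Fintype.piFinset fun _ : Fin j => Finset.Icc 1 B,
          (3 * (H : ℝ)) ^ (j * d) / (L : ℝ) ^ (j * (d / 2)) * ∏ i, (1 / (h i : ℝ) ^ 2) := by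
        apply Finset.sum_le_sum_of_subset_of_nonneg (Finset.filter_subset _ _)
        intro h _ _
        positivity
    _ = (3 * (H : ℝ)) ^ (j * d) / (L : ℝ) ^ (j * (d / 2)) *
          ∏ _i : Fin j, ∑ k ∈ Finset.Icc 1 B, (1 / (k : ℝ) ^ 2) := by
        rw [← Finset.mul_sum, Finset.prod_univ_sum]
    _ ≤ (3 * (H : ℝ)) ^ (j * d) / (L : ℝ) ^ (j * (d / 2)) * 2 ^ j := by
        gcongr
        rw [Finset.prod_const, Finset.card_univ, Fintype.card_fin]
        apply pow_le_pow_left₀ _ (invsq B)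
        exact Finset.sum_nonneg fun k _ => by positivity

/-- the parameters with a short vector -/
lemma bad1 (d Q H q : ℕ) [NeZero q] (hQH : Q ≤ H)
    (hcard : ∀ x : Fin 1 → Fin d → ℤ, (∀ i l, |x i l| ≤ (H : ℤ)) →
      LinearIndependent ℚ (fun i => qv (x i)) →
      Nat.card {t : Fin d → ZMod q // ∀ i, ∑ l, t l * ((x i l : ℤ) : ZMod q) = 0} * q ^ 1 = q ^ d)
    (Bad : Finset (Fin d → ZMod q))
    (hBad : ∀ t ∈ Bad, ∃ x : Fin d → ℤ, (∑ l, t l * ((x l : ℤ) : ZMod q) = 0) ∧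
      (∀ l, 4 * |x l| ≤ (Q : ℤ)) ∧ x ≠ 0) :
    Bad.card * q ≤ (2 * (Q / 4) + 1) ^ d * q ^ d := by
  classical
  let X : Finset (Fin d → ℤ) := (Fintype.piFinset fun _ : Fin d =>
    Finset.Icc (-((Q / 4 : ℕ) : ℤ)) ((Q / 4 : ℕ) : ℤ)).filter fun x => x ≠ 0
  have hXc : X.card ≤ (2 * (Q / 4) + 1) ^ d := by
    refine (Finset.card_filter_le _ _).trans (le_of_eq ?_)
    rw [Fintype.card_piFinset]
    simp only [Finset.prod_const, Finset.card_univ, Fintype.card_fin, Int.card_Icc]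
    congr 1
    omega
  have hsub : Bad ⊆ X.biUnion fun x =>
      Finset.univ.filter fun t : Fin d → ZMod q => ∑ l, t l * ((x l : ℤ) : ZMod q) = 0 := by
    intro t ht
    obtain ⟨x, h1, h2, h3⟩ := hBad t ht
    rw [Finset.mem_biUnion]
    refine ⟨x, ?_, ?_⟩
    · rw [Finset.mem_filter, Fintype.mem_piFinset]
      refine ⟨fun l => ?_, h3⟩
      rw [Finset.mem_Icc, ← abs_le]
      have := h2 l
      push_cast
      omega
    · rw [Finset.mem_filter]
      exact ⟨Finset.mem_univ _, h1⟩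
  have hone : ∀ x ∈ X, (Finset.univ.filter fun t : Fin d → ZMod q =>
      ∑ l, t l * ((x l : ℤ) : ZMod q) = 0).card * q = q ^ d := by
    intro x hx
    have hx' := Finset.mem_filter.1 hx
    rw [Fintype.mem_piFinset] at hx'
    have h4 := hcard (fun _ => x) (fun _ l => by
      have h5 := Finset.mem_Icc.1 (hx'.1 l)
      rw [← abs_le] at h5
      refine h5.trans ?_
      have : Q / 4 ≤ H := (Nat.div_le_self _ _).trans hQH
      exact_mod_cast this) (by
      rw [linearIndependent_unique_iff]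
      intro h6
      apply hx'.2
      funext l
      have := congrFun h6 l
      simpa [qv] using this)
    rw [← h4, pow_one, Nat.card_eq_fintype_card, Fintype.card_subtype]
    congr 2
    ext t
    simp
  calc Bad.card * q ≤ (∑ x ∈ X, (Finset.univ.filter fun t : Fin d → ZMod q =>
      ∑ l, t l * ((x l : ℤ) : ZMod q) = 0).card) * q := by
        gcongr
        exact (Finset.card_le_card hsub).trans Finset.card_biUnion_le
    _ = ∑ x ∈ X, q ^ d := by
        rw [Finset.sum_mul]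
        exact Finset.sum_congr rfl hone
    _ = X.card * q ^ d := by rw [Finset.sum_const, smul_eq_mul]
    _ ≤ _ := by gcongr

/-- numerical facts -/
lemma num_small (M d Q : ℕ) (hM : 1 ≤ M) (hd : 8 ≤ d) (hQ : (8 * d * M) ^ (2 * d) < Q) (j : ℕ)
    (hj : 4 * j ≤ d) : j.factorial * (d * (2 * M * Q) ^ 2) ^ j < Q ^ d := by
  have h1 : j.factorial ≤ d ^ j :=
    (Nat.factorial_le_pow j).trans (Nat.pow_le_pow_left (by omega) j)
  have h2 : j.factorial * (d * (2 * M * Q) ^ 2) ^ j ≤ (4 * d ^ 2 * M ^ 2) ^ j * Q ^ (2 * j) := by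
    calc j.factorial * (d * (2 * M * Q) ^ 2) ^ j ≤ d ^ j * (d * (2 * M * Q) ^ 2) ^ j := by gcongr
      _ = (4 * d ^ 2 * M ^ 2) ^ j * Q ^ (2 * j) := by
        rw [pow_mul, ← mul_pow, ← mul_pow]
        congr 1
        ring
  have hQ1 : 1 ≤ Q := by omega
  have h3 : (4 * d ^ 2 * M ^ 2) ^ j < Q := by
    refine lt_of_le_of_lt ?_ hQ
    calc (4 * d ^ 2 * M ^ 2) ^ j ≤ ((8 * d * M) ^ 2) ^ j := by
          apply Nat.pow_le_pow_left
          nlinarith [Nat.zero_le (d ^ 2 * M ^ 2)]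
      _ = (8 * d * M) ^ (2 * j) := by rw [← pow_mul]
      _ ≤ (8 * d * M) ^ (2 * d) := by
          apply Nat.pow_le_pow_right _ (by omega)
          have : 0 < 8 * d * M := by positivity
          omega
  calc j.factorial * (d * (2 * M * Q) ^ 2) ^ j ≤ (4 * d ^ 2 * M ^ 2) ^ j * Q ^ (2 * j) := h2
    _ < Q * Q ^ (2 * j) := by
        apply Nat.mul_lt_mul_of_pos_right h3
        positivity
    _ = Q ^ (2 * j + 1) := by ring
    _ ≤ Q ^ d := Nat.pow_le_pow_right hQ1 (by omega)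

lemma num_B (M d Q : ℕ) (hM : 1 ≤ M) (hd : 8 ≤ d) (hQ : (8 * d * M) ^ (2 * d) < Q) (j : ℕ)
    (hj : 4 * j ≤ d) : (8 * j * M) ^ j ≤ 2 * M * Q := by
  have h0 : 1 ≤ 8 * d * M := by
    have : 0 < 8 * d * M := by positivity
    omega
  calc (8 * j * M) ^ j ≤ (8 * d * M) ^ j := by
        apply Nat.pow_le_pow_left
        gcongr
        omega
    _ ≤ (8 * d * M) ^ (2 * d) := Nat.pow_le_pow_right h0 (by omega)
    _ ≤ Q := hQ.le
    _ ≤ 2 * M * Q := by nlinarith

lemma num_one (d Q : ℕ) (hd : 8 ≤ d) (hQ : 4 ≤ Q) : 2 * (2 * (Q / 4) + 1) ^ d ≤ Q ^ d := by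
  have h1 : 4 * (2 * (Q / 4) + 1) ≤ 3 * Q := by omega
  have h2 : 4 ^ d * (2 * (Q / 4) + 1) ^ d ≤ 3 ^ d * Q ^ d := by
    rw [← mul_pow, ← mul_pow]
    exact Nat.pow_le_pow_left h1 d
  have h3 : 2 * 3 ^ d ≤ 4 ^ d := by
    obtain ⟨e, rfl⟩ := Nat.exists_eq_add_of_le hd
    rw [pow_add, pow_add]
    have : (3 : ℕ) ^ e ≤ 4 ^ e := Nat.pow_le_pow_left (by norm_num) e
    norm_num
    omega
  have h4 : (0 : ℕ) < 3 ^ d := by positivity
  nlinarith [Nat.zero_le ((2 * (Q / 4) + 1) ^ d), Nat.zero_le (Q ^ d)]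

lemma num_r (M d : ℕ) (hM : 1 ≤ M) (hd : 8 ≤ d) :
    (6 * (M : ℝ)) ^ d * 2 / (((200 * M) ^ 4 : ℕ) : ℝ) ^ (d / 2) ≤ 1 / (4 * d) := by
  have hM' : (1 : ℝ) ≤ M := by exact_mod_cast hM
  have hd' : (8 : ℝ) ≤ d := by exact_mod_cast hd
  rw [div_le_div_iff₀ (by positivity) (by positivity), one_mul]
  push_cast
  rw [← pow_mul]
  have h1 : (200 * (M : ℝ)) ^ (d + 1) ≤ (200 * (M : ℝ)) ^ (4 * (d / 2)) :=
    pow_le_pow_right₀ (by linarith) (by omega)
  refine le_trans ?_ h1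
  have h2 : (d : ℝ) ≤ 2 ^ d := by
    have := (Nat.lt_two_pow_self (n := d)).le
    exact_mod_cast this
  have h3 : (12 * (M : ℝ)) ^ d ≤ (200 * (M : ℝ)) ^ d := by gcongr; norm_num
  have h4 : (12 * (M : ℝ)) ^ d = (6 * (M : ℝ)) ^ d * 2 ^ d := by
    rw [← mul_pow]; congr 1; ring
  rw [pow_succ]
  have h5 : 0 < (6 * (M : ℝ)) ^ d := by positivity
  calc (6 * (M : ℝ)) ^ d * 2 * (4 * d) = 8 * ((6 * (M : ℝ)) ^ d * d) := by ring
    _ ≤ 8 * ((6 * (M : ℝ)) ^ d * 2 ^ d) := by gcongr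
    _ ≤ 8 * (200 * (M : ℝ)) ^ d := by rw [← h4]; gcongr
    _ ≤ (200 * (M : ℝ)) ^ d * (200 * M) := by
        have h6 : 0 < (200 * (M : ℝ)) ^ d := by positivity
        nlinarith

end Pool.Agent.TH513.FR.Union

namespace Pool.Agent.TH513.FR

open Finset Pool.Agent.TH513.FR.Union in
theorem union : CardOrthB → UnionB := by
  classical
  intro hCO M hM
  refine ⟨8, fun d hd => ?_⟩
  obtain ⟨Q, hQdef⟩ : ∃ Q, Q = (8 * d * M) ^ (2 * d) + 4 := ⟨_, rfl⟩
  have hQ4 : 4 ≤ Q := by omega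
  have hQ : (8 * d * M) ^ (2 * d) < Q := by omega
  obtain ⟨q, hqp, hq1, hq2⟩ := Nat.exists_prime_lt_and_le_two_mul (Q ^ d) (by positivity)
  have : NeZero q := ⟨hqp.ne_zero⟩
  have hsmall : ∀ j, 4 * j ≤ d → j.factorial * (d * (2 * M * Q) ^ 2) ^ j < q := fun j hj =>
    (num_small M d Q hM hd hQ j hj).trans hq1
  refine ⟨Q, q, hQ4, hqp, hq1.le, hq2, hsmall, ?_⟩
  have hcard : ∀ j, 4 * j ≤ d → ∀ x : Fin j → Fin d → ℤ,
      (∀ i l, |x i l| ≤ ((2 * M * Q : ℕ) : ℤ)) → LinearIndependent ℚ (fun i => qv (x i)) →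
      Nat.card {t : Fin d → ZMod q // ∀ i, ∑ l, t l * ((x i l : ℤ) : ZMod q) = 0} * q ^ j
        = q ^ d := fun j hj x h1 h2 =>
    (hCO d j (2 * M * Q) x h1 h2).2.2 q hqp (hsmall j hj)
  by_contra hno
  push Not at hno
  -- the bad sets
  let P1 : (Fin d → ZMod q) → Prop := fun t => ∃ x : Fin d → ℤ,
    (∑ l, t l * ((x l : ℤ) : ZMod q) = 0) ∧ (∀ l, 4 * |x l| ≤ (Q : ℤ)) ∧ x ≠ 0
  let P2 : ℕ → (Fin d → ZMod q) → Prop := fun j t =>
    ∃ (x z : Fin j → Fin d → ℤ) (T : Fin j → Fin j → ℤ),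
      LinearIndependent ℚ (fun i => qv (x i)) ∧ (∀ i l, |x i l| ≤ ((2 * M * Q : ℕ) : ℤ)) ∧
      (∀ i, ∑ l, t l * ((x i l : ℤ) : ZMod q) = 0) ∧
      (∀ i, 1 ≤ T i i) ∧ (∀ i k, k < i → 0 ≤ T i k ∧ T i k < T i i) ∧
      (∀ i k, i < k → T i k = 0) ∧ (∀ i, x i = ∑ k, T i k • z k) ∧
      (∏ i, T i i) ≤ (((8 * j * M) ^ j : ℕ) : ℤ) ∧
      (((200 * M) ^ 4 : ℕ) : ℤ) ^ j < ∏ i, T i i
  have hcover : ∀ t, P1 t ∨ ∃ j, 1 ≤ j ∧ 4 * j ≤ d ∧ P2 j t := by
    intro t
    by_contra hc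
    push Not at hc
    obtain ⟨hc1, hc2⟩ := hc
    apply hno t
    constructor
    · intro x h1 h2
      by_contra h3
      exact hc1 ⟨x, h1, h2, h3⟩
    · intro j hj x z T h1 h2 h3 h4 h5 h6 h7 h8
      by_contra h9
      push Not at h9
      rcases Nat.eq_zero_or_pos j with hj0 | hj0
      · subst hj0
        simp at h9
      · apply hc2 j hj0 hj
        refine ⟨x, z, T, h1, ?_, h3, h4, h5, h6, h7, ?_, ?_⟩
        · intro i l
          have := h2 i l
          push_cast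
          exact this
        · push_cast
          exact h8
        · push_cast
          exact h9
  set Bad1 : Finset (Fin d → ZMod q) := Finset.univ.filter P1 with hBad1
  have hsub : (Finset.univ : Finset (Fin d → ZMod q)) ⊆
      Bad1 ∪ (Finset.Icc 1 (d / 4)).biUnion fun j => Finset.univ.filter (P2 j) := by
    intro t _
    rw [Finset.mem_union]
    rcases hcover t with h | ⟨j, hj1, hj2, h⟩
    · left
      rw [hBad1, Finset.mem_filter]
      exact ⟨Finset.mem_univ _, h⟩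
    · right
      rw [Finset.mem_biUnion]
      refine ⟨j, Finset.mem_Icc.2 ⟨hj1, by omega⟩, ?_⟩
      rw [Finset.mem_filter]
      exact ⟨Finset.mem_univ _, h⟩
  have hcardU : (Finset.univ : Finset (Fin d → ZMod q)).card = q ^ d := by
    rw [Finset.card_univ, Fintype.card_fun, ZMod.card, Fintype.card_fin]
  have htot : q ^ d ≤ Bad1.card + ∑ j ∈ Finset.Icc 1 (d / 4), (Finset.univ.filter (P2 j)).card := by
    rw [← hcardU]
    exact (Finset.card_le_card hsub).trans ((Finset.card_union_le _ _).trans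
      (Nat.add_le_add_left Finset.card_biUnion_le _))
  have hq0 : 0 < q := hqp.pos
  -- the first bad set
  have hb1 : 2 * Bad1.card ≤ q ^ d := by
    have h1 := bad1 d Q (2 * M * Q) q (by nlinarith) (hcard 1 (by omega)) Bad1 (fun t ht =>
      (Finset.mem_filter.1 ht).2)
    have h2 := num_one d Q hd hQ4
    have h3 : 2 * Bad1.card * q ≤ q ^ d * q := by
      calc 2 * Bad1.card * q = 2 * (Bad1.card * q) := by ring
        _ ≤ 2 * ((2 * (Q / 4) + 1) ^ d * q ^ d) := by gcongr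
        _ = (2 * (2 * (Q / 4) + 1) ^ d) * q ^ d := by ring
        _ ≤ Q ^ d * q ^ d := by gcongr
        _ ≤ q * q ^ d := by gcongr
        _ = q ^ d * q := by ring
    exact Nat.le_of_mul_le_mul_right h3 hq0
  -- the others
  have hqR : (0 : ℝ) < q := by exact_mod_cast hq0
  have hdR : (8 : ℝ) ≤ d := by exact_mod_cast hd
  have hb2 : ∀ j ∈ Finset.Icc 1 (d / 4),
      ((Finset.univ.filter (P2 j)).card : ℝ) ≤ 1 / (4 * d) * (q : ℝ) ^ d := by
    intro j hj
    rw [Finset.mem_Icc] at hj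
    have hj4 : 4 * j ≤ d := by omega
    have h1 := badj d j (2 * M * Q) ((200 * M) ^ 4) q ((8 * j * M) ^ j)
      (Nat.one_le_pow _ _ (by omega)) (fun i => by have := i.2; omega)
      (num_B M d Q hM hd hQ j hj4) (hcard j hj4) (Finset.univ.filter (P2 j))
      (fun t ht => (Finset.mem_filter.1 ht).2)
    set r : ℝ := (6 * (M : ℝ)) ^ d * 2 / (((200 * M) ^ 4 : ℕ) : ℝ) ^ (d / 2) with hr
    have hr0 : 0 ≤ r := by positivity
    have hr1 : r ≤ 1 / (4 * d) := num_r M d hM hd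
    have hr2 : r ≤ 1 := by
      refine hr1.trans ?_
      rw [div_le_one (by positivity)]
      linarith
    have h2 : (3 * ((2 * M * Q : ℕ) : ℝ)) ^ (j * d) /
        (((200 * M) ^ 4 : ℕ) : ℝ) ^ (j * (d / 2)) * 2 ^ j * (q : ℝ) ^ d
        = r ^ j * (((Q : ℝ) ^ d) ^ j) * (q : ℝ) ^ d := by
      have e1 : (3 * ((2 * M * Q : ℕ) : ℝ)) ^ (j * d) = ((6 * (M : ℝ)) ^ d * (Q : ℝ) ^ d) ^ j := by
        rw [mul_comm j d, pow_mul, ← mul_pow]
        push_cast
        congr 2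
        ring
      have e2 : (((200 * M) ^ 4 : ℕ) : ℝ) ^ (j * (d / 2)) =
          ((((200 * M) ^ 4 : ℕ) : ℝ) ^ (d / 2)) ^ j := by
        rw [mul_comm j, pow_mul]
      rw [e1, e2, hr, div_pow, mul_pow, mul_pow]
      ring
    rw [h2] at h1
    have h3 : ((Q : ℝ) ^ d) ^ j ≤ (q : ℝ) ^ j := by
      apply pow_le_pow_left₀ (by positivity)
      exact_mod_cast hq1.le
    have h4 : ((Finset.univ.filter (P2 j)).card : ℝ) * (q : ℝ) ^ j
        ≤ (r ^ j * (q : ℝ) ^ d) * (q : ℝ) ^ j := by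
      refine h1.trans ?_
      calc r ^ j * ((Q : ℝ) ^ d) ^ j * (q : ℝ) ^ d ≤ r ^ j * (q : ℝ) ^ j * (q : ℝ) ^ d := by gcongr
        _ = _ := by ring
    have h5 := le_of_mul_le_mul_right h4 (by positivity)
    refine h5.trans ?_
    gcongr
    refine le_trans ?_ hr1
    calc r ^ j ≤ r ^ 1 := pow_le_pow_of_le_one hr0 hr2 hj.1
      _ = r := pow_one r
  -- conclusion
  have h1 : (q : ℝ) ^ d ≤ Bad1.card +
      ∑ j ∈ Finset.Icc 1 (d / 4), ((Finset.univ.filter (P2 j)).card : ℝ) := by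
    exact_mod_cast htot
  have h2 : (2 : ℝ) * Bad1.card ≤ (q : ℝ) ^ d := by exact_mod_cast hb1
  have h3 : ∑ j ∈ Finset.Icc 1 (d / 4), ((Finset.univ.filter (P2 j)).card : ℝ)
      ≤ 1 / 16 * (q : ℝ) ^ d := by
    calc ∑ j ∈ Finset.Icc 1 (d / 4), ((Finset.univ.filter (P2 j)).card : ℝ)
        ≤ ∑ _j ∈ Finset.Icc 1 (d / 4), 1 / (4 * (d : ℝ)) * (q : ℝ) ^ d := Finset.sum_le_sum hb2
      _ = ((d / 4 : ℕ) : ℝ) * (1 / (4 * (d : ℝ)) * (q : ℝ) ^ d) := by
          rw [Finset.sum_const, Nat.card_Icc, nsmul_eq_mul]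
          congr 2
      _ ≤ ((d : ℝ) / 4) * (1 / (4 * (d : ℝ)) * (q : ℝ) ^ d) := by
          gcongr
          exact Nat.cast_div_le
      _ = 1 / 16 * (q : ℝ) ^ d := by
          field_simp
          ring
  have h4 : (0 : ℝ) < (q : ℝ) ^ d := by positivity
  linarith

end Pool.Agent.TH513.FR
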